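import Mathlib

/-!
# Package INT (project SR): valuation rings which contain the invariants
-/

set_option autoImplicit false

open Polynomial

namespace Pool.Agent.Helper49.SR

/-- A valuation ring which contains the invariants of a finite group of automorphisms in a stable
subring contains the subring. -/
theorem mem_of_inv {k K : Type} [Field k] [Field K] [Algebra k K] (H : Subgroup (K ≃ₐ[k] K))
    [Finite H] (R : Subalgebra k K) (hR : ∀ h ∈ H, ∀ x ∈ R, h x ∈ R) (W : ValuationSubring K)
    (hW : ∀ x ∈ R, (∀ h ∈ H, h x = x) → x ∈ W) : ∀ x ∈ R, x ∈ W := by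
  classical
  intro x hx
  have := Fintype.ofFinite H
  let P : K[X] := ∏ h : H, (X - C ((h : K ≃ₐ[k] K) x))
  have hPm : P.Monic := monic_prod_of_monic _ _ fun h _ => monic_X_sub_C _
  have hP0 : P.eval x = 0 := by
    simp only [P, eval_prod]
    exact Finset.prod_eq_zero (Finset.mem_univ (1 : H)) (by simp)
  -- the coefficients are in `R`
  have hPR : ∀ i, P.coeff i ∈ R := by
    have h1 : P ∈ Polynomial.lifts (algebraMap R K) := by
      refine (Polynomial.lifts (algebraMap R K)).prod_mem fun h _ => ?_
      rw [sub_eq_add_neg, ← C_neg]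
      refine (Polynomial.lifts (algebraMap R K)).add_mem (Polynomial.X_mem_lifts _) ?_
      exact Polynomial.C'_mem_lifts (f := algebraMap R K)
        ⟨⟨_, R.neg_mem (hR h h.2 x hx)⟩, rfl⟩
    intro i
    obtain ⟨y, hy⟩ := (Polynomial.lifts_iff_coeff_lifts P).1 h1 i
    rw [← hy]
    exact y.2
  -- the coefficients are invariant
  have hPi : ∀ g ∈ H, ∀ i, g (P.coeff i) = P.coeff i := by
    intro g hg i
    have h1 : P.map (g : K →+* K) = P := by
      simp only [P, Polynomial.map_prod, Polynomial.map_sub, Polynomial.map_X, Polynomial.map_C]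
      rw [← Equiv.prod_comp (Equiv.mulLeft (⟨g, hg⟩ : H))
        (fun h : H => (X - C ((h : K ≃ₐ[k] K) x)))]
      rfl
    have h2 := congrArg (fun q : K[X] => q.coeff i) h1
    simpa [Polynomial.coeff_map] using h2
  -- the root is integral
  have hPW : P ∈ Polynomial.lifts (algebraMap W K) := by
    rw [Polynomial.lifts_iff_coeff_lifts]
    intro i
    exact ⟨⟨_, hW _ (hPR i) fun h hh => hPi h hh i⟩, rfl⟩
  have hint : IsIntegral W x := by
    obtain ⟨q, hq, -, hqm⟩ := Polynomial.lifts_and_natDegree_eq_and_monic hPW hPm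
    refine ⟨q, hqm, ?_⟩
    rw [← Polynomial.eval_map, hq, hP0]
  obtain ⟨y, hy⟩ := IsIntegrallyClosed.isIntegral_iff.1 hint
  rw [← hy]
  exact y.2

end Pool.Agent.Helper49.SR
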