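import Pool.Agent.Helper49.SR.PV

/-!
# The padded families
-/

set_option autoImplicit false
set_option linter.unusedSectionVars false

namespace Pool.Agent.Helper49.SR

open Finset Pool.Agent.W559.Mg Pool.Agent.Helper46.AQ Pool.Agent.Helper49.PQ Pointwise
  Pool.Agent.Helper49.SQ

variable {k K : Type} [Field k] [Field K] [Algebra k K] [DecidableEq K] {G : Type} [Group G]
  [Fintype G] [DecidableEq G] {ρ : G →* (K ≃ₐ[k] K)} {B : Subalgebra k K} {Z : Finset K}
  {Γ : Type} [LinearOrderedCommGroupWithZero Γ] {v : Valuation K Γ}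

section pw

lemma fam_pow (hZ : Fam ρ B Z) (j : ℕ) : Fam ρ B (Z ^ j) := by
  induction j with
  | zero =>
    rw [pow_zero]
    refine ⟨Finset.one_nonempty, ?_, ?_, ?_⟩
    · intro a ha
      rw [Finset.mem_one] at ha
      rw [ha]
      exact B.one_mem
    · intro a ha
      rw [Finset.mem_one] at ha
      rw [ha]
      exact one_ne_zero
    · intro g a ha
      rw [Finset.mem_one] at ha
      rw [ha, map_one]
      exact Finset.one_mem_one
  | succ j ih =>
    rw [pow_succ]
    exact ih.mul hZ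

end pw

/-- The padded families are permuted. -/
theorem lf_Fp (hb : SB ρ B Z) (p : ℕ) : LF ρ B Z (Fp ρ Z p) where
  fZ := hb.fam
  ne l := ((lf_Fl hb p).ne l).mul (fam_pow hb.fam _).ne
  mem l a ha := by
    obtain ⟨x, hx, y, hy, rfl⟩ := Finset.mem_mul.1 ha
    exact B.mul_mem ((lf_Fl hb p).mem l x hx) ((fam_pow hb.fam _).mem y hy)
  n0 l a ha := by
    obtain ⟨x, hx, y, hy, rfl⟩ := Finset.mem_mul.1 ha
    exact mul_ne_zero ((lf_Fl hb p).n0 l x hx) ((fam_pow hb.fam _).n0 y hy)
  pm := by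
    intro g
    have hcc : ∀ c : G, c ≠ 1 → g * c * g⁻¹ ≠ 1 := by
      intro c hc h1
      apply hc
      rwa [mul_inv_eq_one, mul_eq_left] at h1
    have hcc' : ∀ c : G, c ≠ 1 → g⁻¹ * c * g ≠ 1 := by
      intro c hc h1
      apply hc
      have : c = g * (g⁻¹ * c * g) * g⁻¹ := by group
      rw [this, h1]
      group
    refine ⟨Equiv.sumCongr ⟨fun h => g * h * g⁻¹, fun h => g⁻¹ * h * g, fun h => by group,
      fun h => by group⟩ (Equiv.prodCongr ⟨fun c => ⟨g * c.1 * g⁻¹, hcc c.1 c.2⟩,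
        fun c => ⟨g⁻¹ * c.1 * g, hcc' c.1 c.2⟩, fun c => Subtype.ext (by simp only; group),
        fun c => Subtype.ext (by simp only; group)⟩ (Equiv.refl _)), ?_⟩
    rintro (h | ⟨c, u⟩) a ha
    · obtain ⟨x, hx, y, hy, rfl⟩ := Finset.mem_mul.1 ha
      rw [map_mul]
      refine Finset.mul_mem_mul ?_ ((fam_pow hb.fam _).st g y hy)
      change ρ g x ∈ FF ρ Z (g * h * g⁻¹)
      rw [FF_conj hb]
      exact Finset.mem_image_of_mem _ hx
    · obtain ⟨x, hx, y, hy, rfl⟩ := Finset.mem_mul.1 ha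
      rw [map_mul]
      exact Finset.mul_mem_mul (nn_conj hb g c.1 _ x hx) ((fam_pow hb.fam _).st g y hy)
  one := ⟨Sum.inl 1, fun Γ _ v hv => by
    have h1 : mx v (FF ρ Z 1) = 1 := by
      rw [FF_one]
      exact hv.2
    change mx v (FF ρ Z 1 * Z ^ _) = 1
    rw [mx_mul (FF_nonempty hb 1) (fam_pow hb.fam _).ne, mx_pow, hv.2, one_pow,
      mul_one, h1]⟩

/-- The norm of the padded families. -/
lemma mx_Fp (hb : SB ρ B Z) (hv : Pos B Z v) (p : ℕ) (l : Lam G p) :
    mx v (Fp ρ Z p l) = mx v (Fl ρ Z p l) := by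
  unfold Fp
  rw [mx_mul ((lf_Fl hb p).ne l) (fam_pow hb.fam _).ne, mx_pow, hv.2, one_pow, mul_one]

section hf

variable {K0 : Subfield K} {t : K} (ht : t ≠ 0)

lemma HF.mono_image {d : ℤ} {Ψ : Finset K} (h : HF K0 t d Ψ) {f : K → K}
    (hf : ∀ a, a / t ^ d ∈ K0 → f a / t ^ d ∈ K0) : HF K0 t d (Ψ.image f) := by
  intro a ha
  obtain ⟨x, hx, rfl⟩ := Finset.mem_image.1 ha
  exact hf x (h x hx)

include ht in
lemma HF.pow {d : ℤ} {Ψ : Finset K} (h : HF K0 t d Ψ) (j : ℕ) : HF K0 t (j * d) (Ψ ^ j) := by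
  induction j with
  | zero =>
    intro a ha
    rw [pow_zero, Finset.mem_one] at ha
    rw [ha, Nat.cast_zero, zero_mul, zpow_zero, div_one]
    exact K0.one_mem
  | succ j ih =>
    rw [pow_succ]
    have h1 := ih.mul ht h
    have h2 : (j : ℤ) * d + d = ((j + 1 : ℕ) : ℤ) * d := by push_cast; ring
    rwa [h2] at h1

include ht in
lemma HF.fprod {J : Type} (S : Finset J) (Ψ : J → Finset K) (d : ℤ)
    (h : ∀ j ∈ S, HF K0 t d (Ψ j)) : HF K0 t (S.card * d) (∏ j ∈ S, Ψ j) := by
  classical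
  induction S using Finset.induction_on with
  | empty =>
    intro a ha
    rw [Finset.prod_empty, Finset.mem_one] at ha
    rw [ha, Finset.card_empty, Nat.cast_zero, zero_mul, zpow_zero, div_one]
    exact K0.one_mem
  | insert x S hx ih =>
    rw [Finset.prod_insert hx, Finset.card_insert_of_notMem hx]
    have h1 := (h x (Finset.mem_insert_self _ _)).mul ht
      (ih fun j hj => h j (Finset.mem_insert_of_mem hj))
    have h2 : d + (S.card : ℤ) * d = ((S.card + 1 : ℕ) : ℤ) * d := by push_cast; ring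
    rwa [h2] at h1

/-- The iterated differences of the generators are homogeneous. -/
lemma hom_dlt (hb : SB ρ B Z) (_ : HF K0 t 1 Z) (c : G) (a : ℕ) :
    ∀ x ∈ Submodule.span ℤ (Z : Set K), ((dlt ρ c) ^ a : Module.End k K) x ∈
      Submodule.span ℤ (Z : Set K) := by
  induction a with
  | zero => exact fun x hx => hx
  | succ a ih =>
    intro x hx
    rw [pow_succ', Module.End.mul_apply]
    have h1 := ih x hx
    rw [dlt_apply]
    refine Submodule.sub_mem _ ?_ h1
    have key : ∀ w ∈ Submodule.span ℤ (Z : Set K), ρ c w ∈ Submodule.span ℤ (Z : Set K) := by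
      intro w hw
      induction hw using Submodule.span_induction with
      | mem y hy => exact Submodule.subset_span (hb.fam.st c y hy)
      | zero => rw [map_zero]; exact Submodule.zero_mem _
      | add y z _ _ hy hz => rw [map_add]; exact Submodule.add_mem _ hy hz
      | smul r y _ hy => rw [map_zsmul]; exact Submodule.smul_mem _ _ hy
    exact key _ h1

lemma hom_span (hZ : HF K0 t 1 Z) : ∀ x ∈ Submodule.span ℤ (Z : Set K), x / t ^ (1 : ℤ) ∈ K0 := by
  intro x hx
  induction hx using Submodule.span_induction with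
  | mem y hy => exact hZ y hy
  | zero => rw [zero_div]; exact K0.zero_mem
  | add y z _ _ hy hz => rw [add_div]; exact K0.add_mem hy hz
  | smul r y _ hy =>
    rw [zsmul_eq_mul, mul_div_assoc]
    exact K0.mul_mem (intCast_mem K0 r) hy

lemma FF_span (hb : SB ρ B Z) (h : G) : ∀ x ∈ FF ρ Z h, x ∈ Submodule.span ℤ (Z : Set K) := by
  intro x hx
  unfold FF at hx
  split_ifs at hx with h1
  · exact Submodule.subset_span hx
  · obtain ⟨-, h3⟩ := Finset.mem_erase.1 hx
    obtain ⟨z, hz, rfl⟩ := Finset.mem_image.1 h3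
    rw [dlt_apply]
    exact Submodule.sub_mem _ (Submodule.subset_span (hb.fam.st h z hz))
      (Submodule.subset_span hz)

lemma hf_FF (hb : SB ρ B Z) (hZ : HF K0 t 1 Z) (h : G) : HF K0 t 1 (FF ρ Z h) :=
  fun x hx => hom_span hZ x (FF_span hb h x hx)

include ht in
lemma hf_bb (hb : SB ρ B Z) (hZ : HF K0 t 1 Z) (c : G) {a : ℕ} (ha : 1 ≤ a) :
    HF K0 t ((a * Fintype.card G : ℕ) : ℤ) (bb ρ Z c a) := by
  intro x hx
  unfold bb at hx
  obtain ⟨h, -, hx⟩ := Finset.mem_biUnion.1 hx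
  have h1 : HF K0 t 1 (((FF ρ Z h).image ((dlt ρ c) ^ a : Module.End k K)).erase 0) := by
    intro y hy
    obtain ⟨z, hz, rfl⟩ := Finset.mem_image.1 (Finset.mem_erase.1 hy).2
    exact hom_span hZ _ (hom_dlt hb hZ c a z (FF_span hb h z hz))
  have h2 := HF.fprod ht (Finset.univ.erase h) (fun h' => FF ρ Z h') 1 fun h' _ => hf_FF hb hZ h'
  have h3 := HF.pow ht (HF.fprod ht (Finset.univ : Finset G) (fun h' => FF ρ Z h') 1
    fun h' _ => hf_FF hb hZ h') (a - 1)
  have h4 := (h1.mul ht h2).mul ht h3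
  have h5 : (1 : ℤ) + ((Finset.univ.erase h).card : ℤ) * 1 +
      ((a - 1 : ℕ) : ℤ) * (((Finset.univ : Finset G).card : ℤ) * 1) =
      ((a * Fintype.card G : ℕ) : ℤ) := by
    rw [Finset.card_erase_of_mem (Finset.mem_univ _), Finset.card_univ]
    have h6 : 0 < Fintype.card G := Fintype.card_pos
    obtain ⟨m, hm⟩ := Nat.exists_eq_succ_of_ne_zero h6.ne'
    obtain ⟨b, rfl⟩ := Nat.exists_eq_add_of_le' ha
    rw [hm]
    simp only [Nat.succ_eq_add_one, Nat.add_sub_cancel]
    push_cast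
    ring
  rw [h5] at h4
  exact h4 x hx

include ht in
lemma hf_nn (hb : SB ρ B Z) (hZ : HF K0 t 1 Z) (c : G) (u : ℕ) :
    HF K0 t ((u * Fintype.card G : ℕ) : ℤ) (nn ρ Z c u) := by
  induction u using Nat.strong_induction_on with
  | _ u ih =>
    cases u with
    | zero =>
      intro x hx
      unfold nn at hx
      rw [Finset.mem_singleton] at hx
      rw [hx, zero_mul, Nat.cast_zero, zpow_zero, div_one]
      exact K0.one_mem
    | succ u =>
      intro x hx
      rw [nn] at hx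
      obtain ⟨a, -, hx⟩ := Finset.mem_biUnion.1 hx
      have h1 := (hf_bb ht hb hZ c (a := a + 1) (by omega)).mul ht
        (ih (u - a) (by have := a.2; omega))
      have h2 : (((a + 1 : ℕ) * Fintype.card G : ℕ) : ℤ) + (((u - a : ℕ) * Fintype.card G : ℕ) : ℤ)
          = (((u + 1 : ℕ) * Fintype.card G : ℕ) : ℤ) := by
        rw [← Nat.cast_add, ← Nat.add_mul]
        congr 2
        have := a.2
        omega
      rw [h2] at h1
      exact h1 x hx

end hf

/-- The padded families are homogeneous of one degree. -/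
theorem hm_Fp (hb : SB ρ B Z) (p : ℕ) : Hm Z (Fp ρ Z p) := by
  intro K0 t ht hZ
  refine ⟨((1 + p * Fintype.card G : ℕ) : ℤ), fun l => ?_⟩
  have key : ∀ d : ℕ, d ≤ 1 + p * Fintype.card G → HF K0 t (d : ℤ) (Fl ρ Z p l) →
      d = dgr G p l → HF K0 t ((1 + p * Fintype.card G : ℕ) : ℤ) (Fp ρ Z p l) := by
    intro d hd h1 h2
    have h3 := h1.mul ht (HF.pow ht hZ (1 + p * Fintype.card G - dgr G p l))
    have h4 : (d : ℤ) + ((1 + p * Fintype.card G - dgr G p l : ℕ) : ℤ) * 1 =
        ((1 + p * Fintype.card G : ℕ) : ℤ) := by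
      rw [← h2, mul_one, ← Nat.cast_add]
      congr 1
      omega
    rw [h4] at h3
    exact h3
  rcases l with h | ⟨c, u⟩
  · exact key 1 (by omega) (by exact_mod_cast hf_FF hb hZ h) rfl
  · refine key ((u + 1) * Fintype.card G) ?_ (hf_nn ht hb hZ c.1 _) rfl
    have h1 : (u : ℕ) + 1 ≤ p := by have := u.2; omega
    exact (Nat.mul_le_mul_right _ h1).trans (Nat.le_add_left _ _)

end Pool.Agent.Helper49.SR
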