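import Pool.Agent.Helper49.SR.Hd4
import Pool.Graph.R_seed8.W559.Et.All
import Pool.Graph.R_seed8.W469.WR.Mb
import Pool.Graph.R_seed8.W469.WR.IsoR

/-!
# Projective models from smooth charts, relative version
-/

set_option autoImplicit false
set_option linter.unusedSectionVars false

namespace Pool.Agent.Helper49.SR

open Finset Pool.Agent.W559.Mg Pool.Agent.Helper46.AQ Pool.Agent.Helper49.PQ Pointwise
  Pool.Agent.Helper49.PN Pool.Agent.Helper49.SQ Pool.Agent.W559.Wr Pool.Agent.W559.Et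

/-- The groups of degrees which can be removed. -/
def NRR (G : Type) [AddCommGroup G] : Prop :=
  TwoUniqueSums G ∧
  ∀ (k K : Type) [Field k] [Field K] [Algebra k K] (𝒱 : Set (ValuationSubring K))
    (Kf : Subfield K) (𝒜 : Type) (W : 𝒜 → Set K) (T : Type) [Finite T] (E : ℕ)
    (C : T → Subalgebra k (ML K G)) (H : T → K), MB 𝒱 Kf W E C H →
    ∃ (T' : Type) (_ : Finite T') (E' : ℕ) (C' : T' → Subalgebra k (ML K Unit)) (H' : T' → K),
      MB 𝒱 Kf W E' C' H'

lemma nrr_unit : NRR Unit := by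
  refine ⟨inferInstance, ?_⟩
  intro k K _ _ _ 𝒱 Kf 𝒜 W T hT E C H h
  exact ⟨T, hT, E, C, H, h⟩

lemma nrr_prod {G : Type} [AddCommGroup G] (hG : NRR G) : NRR (ℤ × G) := by
  obtain ⟨h1, h4⟩ := hG
  refine ⟨inferInstance, ?_⟩
  intro k K _ _ _ 𝒱 Kf 𝒜 W T hT E C H h
  have : IsDomain (ML K G) := NoZeroDivisors.to_isDomain _
  obtain ⟨T1, hT1, E1, C1, H1, h2⟩ := step' k K G 𝒱 Kf 𝒜 W T E C H h
  exact h4 k K 𝒱 Kf 𝒜 W T1 E1 C1 H1 h2

/-- The group of degrees. -/
lemma exists_nrr_fin (n : ℕ) :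
    ∃ (L : Type) (_ : AddCommGroup L) (_ : L ≃+ (Fin n → ℤ)), NRR L := by
  induction n with
  | zero =>
    exact ⟨Unit, inferInstance,
      { toFun := fun _ => 0
        invFun := fun _ => ()
        left_inv := fun _ => rfl
        right_inv := fun f => by funext i; exact i.elim0
        map_add' := fun _ _ => by simp }, nrr_unit⟩
  | succ n ih =>
    obtain ⟨L, _, e, hL⟩ := ih
    refine ⟨ℤ × L, inferInstance,
      { toFun := fun x => Fin.cons x.1 (e x.2)
        invFun := fun f => (f 0, e.symm (Fin.tail f))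
        left_inv := ?_
        right_inv := ?_
        map_add' := ?_ }, nrr_prod hL⟩
    · rintro ⟨a, x⟩
      simp
    · intro f
      simp
    · rintro ⟨a, x⟩ ⟨b, y⟩
      funext i
      refine Fin.cases ?_ (fun j => ?_) i
      · simp
      · simp

lemma exists_nrr (ι : Type) [Finite ι] :
    ∃ (L : Type) (_ : AddCommGroup L) (_ : L ≃+ (ι → ℤ)), NRR L := by
  obtain ⟨n, ⟨e⟩⟩ := Finite.exists_equiv_fin ι
  obtain ⟨L, _, d, hL⟩ := exists_nrr_fin n
  refine ⟨L, inferInstance, d.trans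
    { toFun := fun f i => f (e i)
      invFun := fun f i => f (e.symm i)
      left_inv := fun f => by funext i; simp
      right_inv := fun f => by funext i; simp
      map_add' := fun f g => rfl }, hL⟩

/-- The atlas in the sense of the library. -/
lemma PFR.mb {k K : Type} [Field k] [Field K] [Algebra k K] {G : Type} [AddCommGroup G]
    {𝒱 : Set (ValuationSubring K)} {E : ℕ} {T : Type}
    {C : T → Subalgebra k (ML K G)} {H : T → K} (h : PFR 𝒱 E C H)
    (hsm : ∀ t, Algebra.Smooth k (C t)) :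
    MB 𝒱 (⊤ : IntermediateField k K).toSubfield (fun t : T => {x : K | mo 0 x ∈ C t}) E C H where
  pb :=
    { H0 := h.H0
      HK := fun t => trivial
      gr := fun t => by rw [inf_top_eq]; exact h.gr t
      aa := fun t => ⟨t, fun x hx => ⟨hx, trivial⟩⟩
      inF := fun t x _ => trivial
      Fi := fun m a _ _ => trivial
      rt := fun t t' => ⟨h.rt t t', trivial⟩
      gl := h.gl
      cv := h.cv
      E0 := h.E0
      un := fun t => by rw [inf_top_eq]; exact h.un t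
      gen := fun t => by rw [inf_top_eq]; exact h.gen t }
  sm := hsm

/-- A smooth atlas gives a projective model. -/
theorem spmr_of_PFR {k K : Type} [Field k] [Field K] [Algebra k K] {G : Type} [AddCommGroup G]
    (hG : NRR G) (A₀ : Subalgebra k K) {E : ℕ} {T : Type} [Finite T]
    {C : T → Subalgebra k (ML K G)} {H : T → K} (h : PFR {V | ∀ a ∈ A₀, a ∈ V} E C H)
    (hsm : ∀ t, Algebra.Smooth k (C t)) (hA : ∀ t, ∀ a ∈ A₀, mo 0 a ∈ C t) : SPMR k K A₀ := by
  obtain ⟨T', hT', E', C', H', h'⟩ := hG.2 k K _ _ _ _ T E C H (h.mb hsm)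
  have h1 := Pool.Agent.W469.WR.Mb.mb k K (⊤ : IntermediateField k K) T
    (fun t : T => {x : K | mo 0 x ∈ C t}) (fun t x _ => by
      obtain ⟨a, b, ha, hb, hb0, hx⟩ := h.fr t x
      exact ⟨a, ha, b, hb, hb0, hx⟩) A₀ (fun _ _ => trivial) (fun t a ha => hA t a ha) T' E' C' H'
    h'
  have h2 := Pool.Agent.W469.WR.IsoR.isoR k (⊤ : IntermediateField k K) K
    IntermediateField.topEquiv _ h1
  have h3 : (A₀.comap (⊤ : IntermediateField k K).val).map
      ((IntermediateField.topEquiv : (⊤ : IntermediateField k K) ≃ₐ[k] K) :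
        (⊤ : IntermediateField k K) →ₐ[k] K) = A₀ := by
    ext x
    constructor
    · rintro ⟨y, hy, rfl⟩
      exact hy
    · intro hx
      exact ⟨⟨x, trivial⟩, hx, rfl⟩
  rwa [h3] at h2

variable {k K : Type} [Field k] [Field K] [Algebra k K] [DecidableEq K] {G : Type} [Group G]
  {ρ : G →* (K ≃ₐ[k] K)} {B : Subalgebra k K} {Φ : Finset K}
  {ι : Type} [Fintype ι] [DecidableEq ι] {A B' : ι → Finset K}
  {L : Type} [AddCommGroup L] {dg : L ≃+ (ι → ℤ)}
  {K0 F : IntermediateField k K} {t : K}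

/-- Projective models from smooth charts. -/
theorem spmr_of_GS [Finite G] (hb : GB ρ B Φ) (hS : GS ρ B Φ A B')
    (h : Scl ρ Φ K0 F t) (ht : t ≠ 0)
    (hsm : ∀ (L : Type) [AddCommGroup L] [IsDomain (ML K L)] (dg : L ≃+ (ι → ℤ))
      (D : Tp Φ A B'), Algebra.Smooth k ↥(CC dg hS.pc D ⊓ Fx ρ L))
    {Y Z1 : Finset K} (hr : RG ρ B Φ Y Z1) (A₀ : Subalgebra k F)
    (hA : ∀ a ∈ A₀, ∀ (Γ : Type) [LinearOrderedCommGroupWithZero Γ] (v : Valuation K Γ),
      Pos B Φ v → v (a : K) ≤ 1)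
    (hY : ∀ W : ValuationSubring K, (∀ a ∈ A₀, (a : K) ∈ W) → ∀ y ∈ Y, y ∈ W) :
    SPMR k F A₀ := by
  obtain ⟨L, _, dg, hNR⟩ := exists_nrr ι
  have hTU := hNR.1
  have : IsDomain (ML K L) := NoZeroDivisors.to_isDomain _
  obtain ⟨d1, τ, h1, h2, h3, h4, h5⟩ := exists_tau (dg := dg) hS h ht
  have hτ : Tau ρ dg K0 t hS.pc d1 τ := ⟨h1, h2, h3, h4, h5⟩
  obtain ⟨D0, -⟩ := hS.pc.exists_chart (1 : Valuation K (WithZero (Multiplicative ℤ)))
  have hpf := pf_CF (dg := dg) hb hS h hτ hr A₀ hY ht D0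
  refine spmr_of_PFR (nrr_prod hNR) A₀ hpf
    (fun D => smooth_CF hb hS h hτ ht D (hsm L dg D)) fun D a ha => ?_
  rw [mo_zero_CF]
  refine ⟨(mo_mem_CC hS.pc).2 ?_, mo_F_Fx h a.2⟩
  intro Γ _ v hv
  rw [map_zero, nm_zero]
  exact hA a ha Γ v hv.1

end Pool.Agent.Helper49.SR
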