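import Pool.Agent.Helper49.SR.As1

/-!
# Comparison of the weights and membership of the families
-/

set_option autoImplicit false
set_option linter.unusedSectionVars false

namespace Pool.Agent.Helper49.SR

open Finset Pool.Agent.W559.Mg Pool.Agent.Helper46.AQ Pool.Agent.Helper49.PQ Pointwise
  Pool.Agent.Helper49.SQ

section ctx

variable {k K : Type} [Field k] [Field K] [Algebra k K] [DecidableEq K] {G : Type} [Group G]
  [Fintype G] [DecidableEq G] {ρ : G →* (K ≃ₐ[k] K)} {B : Subalgebra k K} {Z : Finset K} {p : ℕ}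
  {ι : Type} [Fintype ι] [DecidableEq ι] {A B' : ι → Finset K} {Ex : ι → ι → Prop}
  {N : ℕ → ι → ℕ} {Γ : Type} [LinearOrderedCommGroupWithZero Γ]
  {ps : Lam G p ≃ Fin (Fintype.card (Lam G p))} {v : Valuation K Γ}

section wt

variable (hx : Cx ρ B Z p A B' Ex N ps v)

include hx

lemma Cx.wM_add {c : G} (hc : c ≠ 1) {a b : ℕ} (hab : a + b < p) (i : ι) (hi : al A B' v i < 1) :
    wM N ps c (a + b) i ≤ wM N ps c a i + wM N ps c b i := by
  refine hx.le_of (d := wM N ps c (a + b)) (d' := wM N ps c a + wM N ps c b) (wM_bd c _)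
    ((wM_bd c a).add (wM_bd c b)) (by unfold rB; omega) ?_ i hi
  rw [mz_add hx.al_ne, hx.mz_wM hc (by omega), hx.mz_wM hc (by omega), hx.mz_wM hc hab]
  exact nv_mul hx.sb hc a b

lemma Cx.nv_le_one {c : G} (hc : c ≠ 1) (hr : SQ.Rel ρ Z v c) (u : ℕ) : nv ρ Z v c u ≤ 1 := by
  induction u with
  | zero => rw [nv_zero]
  | succ u ih => exact (nv_rel hx.sb hc hr u).trans ih

lemma Cx.wM_nonneg {c : G} (hc : c ≠ 1) (hr : SQ.Rel ρ Z v c) {a : ℕ} (ha : a < p) (i : ι)
    (hi : al A B' v i < 1) : 0 ≤ wM N ps c a i := by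
  refine hx.le_of (d := 0) (d' := wM N ps c a) (Bd.zero 0) (wM_bd c a)
    (by unfold rB; omega) ?_ i hi
  rw [mz_zero, hx.mz_wM hc ha]
  exact hx.nv_le_one hc hr a

lemma Cx.wM_mono {c : G} (hc : c ≠ 1) (hr : SQ.Rel ρ Z v c) {a : ℕ} (ha : a + 1 < p) (i : ι)
    (hi : al A B' v i < 1) : wM N ps c a i ≤ wM N ps c (a + 1) i := by
  refine hx.le_of (wM_bd c a) (wM_bd c (a + 1)) (by unfold rB; omega) ?_ i hi
  rw [hx.mz_wM hc ha, hx.mz_wM hc (by omega)]
  exact nv_rel hx.sb hc hr a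

lemma Cx.wN_conj {c : G} (hr : SQ.Rel ρ Z v c) (h : G) (i : ι) (hi : al A B' v i < 1) :
    wN N ps (c * h * c⁻¹) i = wN N ps h i := by
  refine hx.eq_of (wN_bd _) (wN_bd _) (by unfold rB; omega) ?_ i hi
  rw [hx.mz_wN, hx.mz_wN]
  exact (dv_rel hx.sb hr h).symm

lemma Cx.wN_eq (h : G) (i : ι) (hi : al A B' v i < 1) :
    Nv N ps (Sum.inl h) i = wN N ps h i := by
  refine hx.eq_of (Nv_bd _) (wN_bd _) (by unfold rB; omega) ?_ i hi
  rw [hx.mz_wN, hx.mz_inl]

lemma Cx.wN_nonneg (h : G) (i : ι) : 0 ≤ wN N ps h i := by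
  unfold wN
  split_ifs
  · exact le_rfl
  · exact Nv_nonneg _ _

lemma Cx.Nv_zero {h : G} (hd : dv ρ Z v h = 1) (i : ι) (hi : al A B' v i < 1) :
    Nv N ps (Sum.inl h) i = 0 := by
  refine (hx.eq_of (d := 0) (Bd.zero 0) (Nv_bd _) (by unfold rB; omega) ?_ i hi).symm
  rw [mz_zero, hx.mz_inl, hd]

/-- Irrelevant elements. -/
lemma Cx.irr_le {c : G} (hc : c ≠ 1) (hr : ¬ SQ.Rel ρ Z v c) (h : G) {t a : ℕ} (hta : t ≤ a)
    (ha : a < p) (i : ι) (hi : al A B' v i < 1) :
    Nv N ps (Sum.inl h) i + wM N ps c a i ≤ Nv N ps (Sum.inl (c ^ t * h * (c ^ t)⁻¹)) i := by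
  refine hx.le_of (d := Nv N ps (Sum.inl h) + wM N ps c a) ((Nv_bd _).add (wM_bd c a)) (Nv_bd _)
    (by unfold rB; omega) ?_ i hi
  rw [mz_add hx.al_ne, hx.mz_inl, hx.mz_inl, hx.mz_wM hc ha, nv_irr hx.sb hc hr a]
  refine (dv_irr hx.sb hc hr h t).trans (mul_le_mul' le_rfl ?_)
  exact pow_le_pow_right₀ (one_le_nv hx.sb hc hr) hta

end wt

section adm

variable {L : Type} [AddCommGroup L] {dg : L ≃+ (ι → ℤ)}

/-- The subalgebra contains the monomials which are nonnegative on `J`. -/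
def Adm (dg : L ≃+ (ι → ℤ)) (J : Set ι) (S : Subalgebra k (ML K L)) : Prop :=
  ∀ m : ι → ℤ, (∀ i ∈ J, 0 ≤ m i) → xz K dg m ∈ S

lemma mo_mul' (d d' : ι → ℤ) (a b : K) : (mo (dg.symm d) a * mo (dg.symm d') b : ML K L) =
    mo (dg.symm (d + d')) (a * b) := by
  rw [mo_mul, map_add]

lemma mo_xz (d m : ι → ℤ) (a : K) : (mo (dg.symm d) a : ML K L) =
    xz K dg m * mo (dg.symm (d + m)) a := by
  unfold xz
  rw [mo_mul', one_mul]
  congr 2
  abel

variable {J : Set ι} {S : Subalgebra k (ML K L)}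

lemma Adm.mono {S' : Subalgebra k (ML K L)} (h : Adm dg J S) (hS : S ≤ S') : Adm dg J S' :=
  fun m hm => hS (h m hm)

lemma Adm.adj (hS : Adm dg J S) {d d' : ι → ℤ} {a : K} (h : mo (dg.symm d) a ∈ S)
    (hd : ∀ i ∈ J, d' i ≤ d i) : mo (dg.symm d') a ∈ S := by
  rw [mo_xz d' (d - d') a, add_sub_cancel]
  refine S.mul_mem (hS _ fun i hi => ?_) h
  have := hd i hi
  rw [Pi.sub_apply]
  omega

/-- The coefficients of the elements of degree `d`. -/
def cfA (S : Subalgebra k (ML K L)) (d : L) : Submodule k K where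
  carrier := {a | mo d a ∈ S}
  add_mem' := fun {a b} ha hb => by
    change mo d (a + b) ∈ S
    rw [mo_add]
    exact S.add_mem ha hb
  zero_mem' := by
    change mo d 0 ∈ S
    rw [mo_zero]
    exact S.zero_mem
  smul_mem' := fun r a ha => by
    change mo d (r • a) ∈ S
    rw [← smul_mo]
    exact S.smul_mem ha r

lemma mem_cf {d : L} {a : K} : a ∈ cfA S d ↔ mo d a ∈ S := Iff.rfl

lemma prod_mem_S {I : Type} [DecidableEq I] (s : Finset I) (Fm : I → Finset K) (w : I → ι → ℤ)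
    (h : ∀ j ∈ s, ∀ a ∈ Fm j, mo (dg.symm (w j)) a ∈ S) :
    ∀ x ∈ ∏ j ∈ s, Fm j, mo (dg.symm (∑ j ∈ s, w j)) x ∈ S := by
  induction s using Finset.induction_on with
  | empty =>
    intro x hx
    rw [Finset.prod_empty, Finset.mem_one] at hx
    rw [hx, Finset.sum_empty, map_zero, mo_one]
    exact S.one_mem
  | insert j s hj ih =>
    intro x hx
    rw [Finset.prod_insert hj] at hx
    obtain ⟨a, ha, b, hb, rfl⟩ := Finset.mem_mul.1 hx
    rw [Finset.sum_insert hj, ← mo_mul']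
    exact S.mul_mem (h j (Finset.mem_insert_self _ _) a ha)
      (ih (fun j' hj' => h j' (Finset.mem_insert_of_mem hj')) b hb)

lemma pow_mem_S (Fm : Finset K) (w : ι → ℤ) (h : ∀ a ∈ Fm, mo (dg.symm w) a ∈ S) (n : ℕ) :
    ∀ x ∈ Fm ^ n, mo (dg.symm (n • w)) x ∈ S := by
  induction n with
  | zero =>
    intro x hx
    rw [pow_zero, Finset.mem_one] at hx
    rw [hx, zero_nsmul, map_zero, mo_one]
    exact S.one_mem
  | succ n ih =>
    intro x hx
    rw [pow_succ] at hx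
    obtain ⟨a, ha, b, hb, rfl⟩ := Finset.mem_mul.1 hx
    rw [succ_nsmul, ← mo_mul']
    exact S.mul_mem (ih a ha) (h b hb)

end adm

section key

variable {L : Type} [AddCommGroup L] {dg : L ≃+ (ι → ℤ)} {S : Subalgebra k (ML K L)}
  (hx : Cx ρ B Z p A B' Ex N ps v)

/-- The rescaled differences are in the subalgebra. -/
def Key (ρ : G →* (K ≃ₐ[k] K)) (Z : Finset K) (p : ℕ) (N : ℕ → ι → ℕ)
    (ps : Lam G p ≃ Fin (Fintype.card (Lam G p))) (dg : L ≃+ (ι → ℤ))
    (S : Subalgebra k (ML K L)) (c : G) : Prop :=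
  ∀ a < p, ∀ h, ∀ i ∈ FF ρ Z h,
    mo (dg.symm (Nv N ps (Sum.inl h) + wM N ps c a)) (((dlt ρ c) ^ a : Module.End k K) i) ∈ S

include hx in
/-- The elements of the families of products are in the subalgebra. -/
theorem nn_mem (hS : Adm dg {i | al A B' v i < 1} S)
    (hF : ∀ h, ∀ i ∈ FF ρ Z h, mo (dg.symm (Nv N ps (Sum.inl h))) i ∈ S) {c : G} (hc : c ≠ 1)
    (hk : Key ρ Z p N ps dg S c) : ∀ u < p, ∀ w ∈ nn ρ Z c u,
      mo (dg.symm (u • SN N ps + wM N ps c u)) w ∈ S := by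
  have key : ∀ u ≤ p - 1, ∀ w ∈ nn ρ Z c u, u < p →
      mo (dg.symm (u • SN N ps + wM N ps c u)) w ∈ S := by
    refine nn_ind c (p - 1) (fun u w => u < p → mo (dg.symm (u • SN N ps + wM N ps c u)) w ∈ S)
      ?_ ?_
    · intro _
      rw [wM_zero, zero_nsmul, add_zero, map_zero, mo_one]
      exact S.one_mem
    · intro a u ha hau h i hi _ x hxm y hym w hw hlt
      have h1 := hk a (by omega) h i hi
      have h2 := prod_mem_S (dg := dg) (S := S) (Finset.univ.erase h) (FF ρ Z)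
        (fun h => Nv N ps (Sum.inl h)) (fun j _ => hF j) x hxm
      have h3 := pow_mem_S (dg := dg) (S := S) _ (SN N ps)
        (prod_mem_S (dg := dg) (S := S) Finset.univ (FF ρ Z) (fun h => Nv N ps (Sum.inl h))
          fun j _ => hF j) (a - 1) y hym
      have h4 := hw (by omega)
      have h5 := S.mul_mem (S.mul_mem (S.mul_mem h1 h2) h3) h4
      rw [mo_mul', mo_mul', mo_mul'] at h5
      refine hS.adj h5 fun j hj => ?_
      have h6 := hx.wM_add hc (show a + u < p by omega) j hj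
      have h7 : SN N ps j = Nv N ps (Sum.inl h) j +
          ∑ h' ∈ Finset.univ.erase h, Nv N ps (Sum.inl h') j := by
        unfold SN
        rw [Finset.sum_apply, ← Finset.add_sum_erase _ _ (Finset.mem_univ h)]
      simp only [Pi.add_apply, Pi.smul_apply, Finset.sum_apply]
      simp only [nsmul_eq_mul]
      obtain ⟨a', rfl⟩ := Nat.exists_eq_add_of_le ha
      have h8 : 1 + a' - 1 = a' := by omega
      rw [h8]
      push_cast
      linarith
  exact fun u hu w hw => key u (by omega) w hw hu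

include hx in
/-- All elements of the families are in the subalgebra. -/
theorem fl_mem (hS : Adm dg {i | al A B' v i < 1} S)
    (hF : ∀ h, ∀ i ∈ FF ρ Z h, mo (dg.symm (Nv N ps (Sum.inl h))) i ∈ S)
    (hk : ∀ c, c ≠ 1 → Key ρ Z p N ps dg S c) (l : Lam G p) (a : K) (ha : a ∈ Fl ρ Z p l) :
    mo (dg.symm (Nv N ps l)) a ∈ S := by
  rcases l with h | ⟨⟨c, hc⟩, ⟨u, hu⟩⟩
  · exact hF h a ha
  · have h1 := nn_mem hx hS hF hc (hk c hc) (u + 1) (by omega) a ha
    have h2 : (u + 1) • SN N ps + wM N ps c (u + 1) = Nv N ps (Sum.inr (⟨c, hc⟩, ⟨u, hu⟩)) := by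
      unfold wM
      rw [dif_pos ⟨hc, by omega, by omega⟩, add_sub_cancel]
      rfl
    rwa [h2] at h1

include hx in
/-- The irrelevant elements. -/
theorem key_irr (hS : Adm dg {i | al A B' v i < 1} S)
    (hF : ∀ h, ∀ i ∈ FF ρ Z h, mo (dg.symm (Nv N ps (Sum.inl h))) i ∈ S) {c : G} (hc : c ≠ 1)
    (hr : ¬ SQ.Rel ρ Z v c) : Key ρ Z p N ps dg S c := by
  intro a ha h i hi
  -- the iterated difference is a combination of conjugates
  have h1 : ((dlt ρ c) ^ a : Module.End k K) i ∈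
      Submodule.span k {x | ∃ t ≤ a, x = ρ (c ^ t) i} := by
    have key : ∀ a, ((dlt ρ c) ^ a : Module.End k K) i ∈
        Submodule.span k {x | ∃ t ≤ a, x = ρ (c ^ t) i} := by
      intro a
      induction a with
      | zero =>
        refine Submodule.subset_span ⟨0, le_rfl, ?_⟩
        rw [pow_zero, pow_zero, map_one]
        rfl
      | succ a ih =>
        rw [pow_succ', Module.End.mul_apply]
        have h2 : Submodule.span k {x | ∃ t ≤ a, x = ρ (c ^ t) i} ≤
            (Submodule.span k {x | ∃ t ≤ a + 1, x = ρ (c ^ t) i}).comap (dlt ρ c) := by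
          rw [Submodule.span_le]
          rintro _ ⟨t, ht, rfl⟩
          change dlt ρ c (ρ (c ^ t) i) ∈ Submodule.span k {x | ∃ t ≤ a + 1, x = ρ (c ^ t) i}
          rw [dlt_apply]
          refine Submodule.sub_mem _ (Submodule.subset_span ⟨t + 1, by omega, ?_⟩)
            (Submodule.subset_span ⟨t, by omega, rfl⟩)
          rw [pow_succ', map_mul]
          rfl
        exact h2 ih
    exact key a
  have h2 : Submodule.span k {x | ∃ t ≤ a, x = ρ (c ^ t) i} ≤
      cfA S (dg.symm (Nv N ps (Sum.inl h) + wM N ps c a)) := by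
    rw [Submodule.span_le]
    rintro _ ⟨t, ht, rfl⟩
    have h3 : (ρ (c ^ t) i : K) ∈ FF ρ Z (c ^ t * h * (c ^ t)⁻¹) := by
      rw [FF_conj hx.sb]
      exact Finset.mem_image_of_mem (ρ (c ^ t)) hi
    have h4 : mo (dg.symm (Nv N ps (Sum.inl h) + wM N ps c a)) (ρ (c ^ t) i) ∈ S :=
      hS.adj (hF _ _ h3) fun j hj => hx.irr_le hc hr h ht ha j hj
    exact h4
  exact h2 h1

end key

end ctx

end Pool.Agent.Helper49.SR
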