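import Pool.Agent.Helper49.SR.As3

/-!
# The local model
-/

set_option autoImplicit false
set_option linter.unusedSectionVars false

namespace Pool.Agent.Helper49.SR

open Finset Pool.Agent.W559.Mg Pool.Agent.Helper46.AQ Pool.Agent.Helper49.PQ Pointwise
  Pool.Agent.Helper49.SQ

variable {k K : Type} [Field k] [Field K] [Algebra k K] [DecidableEq K] {G : Type} [Group G]
  [Fintype G] [DecidableEq G] {ρ : G →* (K ≃ₐ[k] K)} {B : Subalgebra k K} {Z : Finset K} {p : ℕ}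
  {ι : Type} [Fintype ι] [DecidableEq ι] {A B' : ι → Finset K} {Ex : ι → ι → Prop}
  {N : ℕ → ι → ℕ} {ps : Lam G p ≃ Fin (Fintype.card (Lam G p))}
  {L : Type} [AddCommGroup L] {dg : L ≃+ (ι → ℤ)}
  {F Γ : Type} [Field F] [Algebra (ML K L) F] [FaithfulSMul (ML K L) F]
  [LinearOrderedCommGroupWithZero Γ] {W : Valuation F Γ}

/-- The weight of a rescaled difference. -/
def wt (N : ℕ → ι → ℕ) (ps : Lam G p ≃ Fin (Fintype.card (Lam G p))) (c h : G) (u : ℕ) : ι → ℤ :=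
  wN N ps h + wM N ps c u

/-- The operator. -/
noncomputable def op (ρ : G →* (K ≃ₐ[k] K)) (c h : G) (u : ℕ) : Module.End k K :=
  (dlt ρ c) ^ u * dl' ρ h

lemma op_apply (c h : G) (u : ℕ) (x : K) :
    op ρ c h u x = ((dlt ρ c) ^ u : Module.End k K) (dl' ρ h x) := rfl

/-- The indices. -/
def TI (G : Type) [Group G] (p : ℕ) (I H : Subgroup G) : Type :=
  {t : G × G × Fin p // t.1 ∈ I ∧ t.2.1 ∈ H ∧ (t.1 = 1 → (t.2.2 : ℕ) = 0)}

instance (I H : Subgroup G) : Finite (TI G p I H) := by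
  unfold TI
  infer_instance

lemma dl'_mem (h : G) {z : K} (hz : z ∈ Z) : dl' ρ h z ∈ FF ρ Z h ∨ dl' ρ h z = 0 := by
  unfold dl' FF
  split_ifs with h1
  · exact Or.inl hz
  · by_cases h2 : dlt ρ h z = 0
    · exact Or.inr h2
    · exact Or.inl (Finset.mem_erase.2 ⟨h2, Finset.mem_image_of_mem _ hz⟩)

lemma FF_cases {h : G} {i : K} (hi : i ∈ FF ρ Z h) : ∃ z ∈ Z, i = dl' ρ h z := by
  unfold FF at hi
  unfold dl'
  split_ifs at hi ⊢ with h1
  · exact ⟨i, hi, rfl⟩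
  · obtain ⟨h2, h3⟩ := Finset.mem_erase.1 hi
    obtain ⟨z, hz, rfl⟩ := Finset.mem_image.1 h3
    exact ⟨z, hz, rfl⟩

section val

variable {v : Valuation K Γ} (hx : Cx ρ B Z p A B' Ex N ps v)

include hx

lemma Cx.mz_wt {c h : G} {u : ℕ} (hu : u < p) (hc : c = 1 → u = 0) :
    mz (al A B' v) (wt N ps c h u) = dv ρ Z v h * (if c = 1 then 1 else nv ρ Z v c u) := by
  unfold wt
  rw [mz_add hx.al_ne, hx.mz_wN]
  split_ifs with h1
  · rw [hc h1, wM_zero, mz_zero]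
  · rw [hx.mz_wM h1 hu]

lemma Cx.val_op {c h : G} {u : ℕ} (hu : u < p) (hc : c = 1 → u = 0) {z : K} (hz : z ∈ Z) :
    v (op ρ c h u z) ≤ mz (al A B' v) (wt N ps c h u) := by
  rw [hx.mz_wt hu hc, op_apply]
  rcases dl'_mem (ρ := ρ) h hz with h1 | h1
  · split_ifs with h2
    · rw [hc h2, pow_zero, mul_one]
      exact le_mx h1
    · exact le_nv hx.sb h2 h _ h1 u
  · rw [h1, map_zero, map_zero]
    exact zero_le

lemma wt_bd (c h : G) (u : ℕ) : Bd (Fintype.card (Lam G p)) N (1 + (1 + p * Fintype.card G))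
    (wt N ps c h u) := (wN_bd h).add (wM_bd c u)

lemma Cx.wt_nonneg {I : Subgroup G} (hI : ∀ c ∈ I, SQ.Rel ρ Z v c) {c h : G} (hcI : c ∈ I) {u : ℕ}
    (hu : u < p) (hc : c = 1 → u = 0) (i : ι) (hi : al A B' v i < 1) :
    0 ≤ wt N ps c h u i := by
  unfold wt
  rw [Pi.add_apply]
  have h1 := hx.wN_nonneg h i
  have h2 : 0 ≤ wM N ps c u i := by
    by_cases h3 : c = 1
    · rw [hc h3, wM_zero]
      rfl
    · exact hx.wM_nonneg h3 (hI c hcI) hu i hi
  omega

end val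

/-- The properties of the local model. -/
structure LM (ρ : G →* (K ≃ₐ[k] K)) (B : Subalgebra k K) (Z : Finset K) (p : ℕ)
    (N : ℕ → ι → ℕ) (ps : Lam G p ≃ Fin (Fintype.card (Lam G p))) (dg : L ≃+ (ι → ℤ))
    (J : Set ι) (W : Valuation F Γ) (I H : Subgroup G) (R : Subalgebra k (ML K L)) : Prop where
  sm : Algebra.Smooth k R
  reg : IsRegularRing R
  ic : IC R
  gr : Gr R
  le : ∀ f ∈ R, W (algebraMap (ML K L) F f) ≤ 1
  ad : Adm dg J R
  bm : ∀ b ∈ B, mo 0 b ∈ R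
  leib : ∀ c ∈ I, ∀ h ∈ H, ∀ u < p, (c = 1 → u = 0) → ∀ b ∈ B,
    mo (dg.symm (wt N ps c h u)) (op ρ c h u b) ∈ LW R W
  univ : ∀ S : Subalgebra k (ML K L), Clo W S → (∀ b ∈ B, mo 0 b ∈ S) → Adm dg J S →
    (∀ c ∈ I, ∀ h ∈ H, ∀ u < p, (c = 1 → u = 0) → ∀ z ∈ Z,
      mo (dg.symm (wt N ps c h u)) (op ρ c h u z) ∈ S) → R ≤ S

section model

variable (hx : Cx ρ B Z p A B' Ex N ps (vK k L W)) (hmo : MoV k A B' dg W)

include hx hmo

/-- Existence of the local model. -/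
theorem exists_LM [IsDomain (ML K L)] (hp : 0 < p) (hLL : LLZ ρ B Z) (q : Ideal B) (hq : q.IsPrime)
    (hqv : ∀ b : B, b ∈ q ↔ vK k L W (b : K) < 1) (I H : Subgroup G) (hIH : I ≤ H)
    (hI : ∀ c ∈ I, SQ.Rel ρ Z (vK k L W) c)
    (hH : ∀ h, h ∈ H ↔ ∀ b ∈ B, vK k L W (ρ h b - b) < 1) :
    ∃ R : Subalgebra k (ML K L), LM ρ B Z p N ps dg {i | al A B' (vK k L W) i < 1} W I H R := by
  classical
  set v : Valuation K Γ := vK k L W with hv
  set J : Set ι := {i | al A B' v i < 1} with hJ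
  have hqZ : ∃ (z : K) (hz : z ∈ B), z ∈ Z ∧ (⟨z, hz⟩ : B) ∉ q := by
    obtain ⟨z, hz, hz1⟩ := exists_mx (v := v) hx.sb.fam.ne
    refine ⟨z, hx.sb.fam.mem z hz, hz, fun hzq => ?_⟩
    have h1 := (hqv ⟨z, hx.sb.fam.mem z hz⟩).1 hzq
    have h2 : v z = 1 := by rw [← hz1]; exact hx.pos.2
    exact h1.ne h2
  obtain ⟨f, hf, hfq, n, y, hy, hyZ, hyH⟩ := hLL q hq hqZ
  have hBst : ∀ (h : G), ∀ b ∈ B, ρ h b ∈ B := by
    obtain ⟨Y, Z1, hr⟩ := hx.sb.gen
    exact hr.stable hx.sb.fam.st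
  have hf1 : v f = 1 := by
    refine le_antisymm (hx.pos.1 f hf) (not_lt.1 fun h => hfq ?_)
    exact (hqv ⟨f, hf⟩).2 h
  have hf0 : f ≠ 0 := by
    intro h
    rw [h, map_zero] at hf1
    exact zero_ne_one hf1
  have hyH' : ∀ h ∈ H, ρ h f = f ∧ ∀ j, ρ h (y j : K) ∈
      Submodule.span k (Set.range fun j => (y j : K)) := by
    intro h hh
    refine hyH h fun c hc hcc => ?_
    rw [hqv]
    exact (hH h).1 hh c hc
  let E : Subalgebra k K := lc B f hf
  set V : Submodule k K := Submodule.span k (Set.range fun j => (y j : K)) with hV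
  have hBE : B ≤ E := le_lc _ _ _
  have hVH : ∀ h ∈ H, ∀ x ∈ V, ρ h x ∈ V := by
    intro h hh
    have h1 : V ≤ V.comap (ρ h : K ≃ₐ[k] K).toLinearMap := by
      conv_lhs => rw [hV]
      rw [Submodule.span_le]
      rintro _ ⟨j, rfl⟩
      exact (hyH' h hh).2 j
    exact fun x hx => h1 hx
  have hVd : ∀ h ∈ H, ∀ x ∈ V, dlt ρ h x ∈ V := fun h hh x hxV => by
    rw [dlt_apply]
    exact V.sub_mem (hVH h hh x hxV) hxV
  have hVd' : ∀ h ∈ H, ∀ x ∈ V, dl' ρ h x ∈ V := fun h hh x hxV => by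
    unfold dl'
    split_ifs
    · exact hxV
    · exact hVd h hh x hxV
  have hVpow : ∀ c ∈ H, ∀ u : ℕ, ∀ x ∈ V, ((dlt ρ c) ^ u : Module.End k K) x ∈ V := by
    intro c hc u
    induction u with
    | zero => exact fun x hx => hx
    | succ u ih =>
      intro x hxV
      rw [pow_succ', Module.End.mul_apply]
      exact hVd c hc _ (ih x hxV)
  -- the indices
  let w : TI G p I H → ι → ℤ := fun t => wt N ps t.1.1 t.1.2.1 t.1.2.2
  let U : TI G p I H → Submodule k K := fun t => V.map (op ρ t.1.1 t.1.2.1 t.1.2.2)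
  let r : TI G p I H → TI G p I H → Prop := fun t t' => ∀ i ∈ J, w t' i ≤ w t i
  have hbd : ∀ t, Bd (Fintype.card (Lam G p)) N (1 + (1 + p * Fintype.card G)) (w t) :=
    fun t => wt_bd hx _ _ _
  let t0 : TI G p I H := ⟨(1, 1, ⟨0, hp⟩), I.one_mem, H.one_mem, fun _ => rfl⟩
  have hw0 : w t0 = 0 := by
    change wt N ps (1 : G) 1 0 = 0
    unfold wt
    rw [wN_one, wM_zero, add_zero]
  have hwn : ∀ t, ∀ i ∈ J, 0 ≤ w t i := fun t i hi =>
    hx.wt_nonneg hI t.2.1 t.1.2.2.2 t.2.2.2 i hi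
  obtain ⟨β, τ, hβ1, hβ2, hβ3, hβ4⟩ := adapted_basis r (fun t i _ => le_rfl)
    (fun a b c hab hbc i hi => (hbc i hi).trans (hab i hi))
    (fun a b => by
      rcases le_total (mz (al A B' v) (w a)) (mz (al A B' v) (w b)) with h1 | h1
      · exact Or.inl fun i hi => hx.le_of (hbd b) (hbd a) (by unfold rB; omega) h1 i hi
      · exact Or.inr fun i hi => hx.le_of (hbd a) (hbd b) (by unfold rB; omega) h1 i hi)
    (fun j => (y j : K)) (etale_linInd E y hy) U (fun t => by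
      rintro _ ⟨x, hxV, rfl⟩
      exact hVpow _ (hIH t.2.1) _ _ (hVd' _ t.2.2.1 x hxV)) t0 (by
      change V.map (op ρ 1 1 0) = V
      have h1 : op ρ (1 : G) 1 0 = (1 : Module.End k K) := by
        unfold op dl'
        rw [if_pos rfl, pow_zero, mul_one]
      rw [h1]
      exact Submodule.map_id V) (fun t i hi => by
      rw [hw0]
      exact hwn t i hi)
  have hβV : ∀ j, β j ∈ V := fun j => by
    change β j ∈ Submodule.span k (Set.range fun j => (y j : K))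
    rw [← hβ2]
    exact Submodule.subset_span ⟨j, rfl⟩
  have hVE : ∀ x ∈ V, x ∈ E := by
    have h1 : V ≤ Subalgebra.toSubmodule E := by
      rw [hV, Submodule.span_le]
      rintro _ ⟨j, rfl⟩
      exact (y j).2
    exact fun x hx => h1 hx
  let β' : Fin n → E := fun j => ⟨β j, hVE _ (hβV j)⟩
  have hβe : ((MvPolynomial.aeval β' : MvPolynomial (Fin n) k →ₐ[k] E).toRingHom).Etale :=
    etale_change E y β' hy hβ1 hβ2
  have hfr : ∀ x : K, ∃ a ∈ E, ∃ b ∈ E, b ≠ 0 ∧ x = a / b := by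
    intro x
    obtain ⟨a, ha, b, hb, hb0, h1⟩ := hx.sb.fr x
    exact ⟨a, hBE ha, b, hBE hb, hb0, h1⟩
  obtain ⟨hsm, hreg, hic⟩ := MR_props dg J E hfr β' hβe (fun j => w (τ j)) fun j => hwn (τ j)
  set R : Subalgebra k (ML K L) := MR dg J E (fun j => (β' j : K)) fun j => w (τ j) with hR
  have hRE : ∀ b ∈ E, mo 0 b ∈ R := fun b hb =>
    Algebra.subset_adjoin (Or.inl (Or.inl (Or.inl ⟨b, hb, rfl⟩)))
  have hRx : ∀ i, xz K dg (Pi.single i 1) ∈ R := fun i =>
    Algebra.subset_adjoin (Or.inl (Or.inl (Or.inr ⟨i, rfl⟩)))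
  have hRxi : ∀ i, i ∉ J → xz K dg (Pi.single i (-1)) ∈ R := fun i hi =>
    Algebra.subset_adjoin (Or.inl (Or.inr ⟨i, hi, rfl⟩))
  have hRs : ∀ j, mo (dg.symm (w (τ j))) (β j) ∈ R := fun j =>
    Algebra.subset_adjoin (Or.inr ⟨j, rfl⟩)
  have hRad : Adm dg J R := fun m hm => xz_mem hRx hRxi hm
  have hEv : ∀ b ∈ E, v b ≤ 1 := by
    rintro b ⟨n, hn⟩
    have h1 := hx.pos.1 _ hn
    rwa [map_mul, map_pow, hf1, one_pow, one_mul] at h1
  -- the values of the elements of the subspaces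
  have hUv : ∀ t, ∀ x ∈ U t, v x ≤ mz (al A B' v) (w t) := by
    intro t x hxU
    obtain ⟨x, hxV, rfl⟩ := hxU
    let Y : Submodule k K :=
      { carrier := {x | v (op ρ t.1.1 t.1.2.1 t.1.2.2 x) ≤ mz (al A B' v) (w t)}
        add_mem' := fun {a b} ha hb => by
          change v (op ρ t.1.1 t.1.2.1 t.1.2.2 (a + b)) ≤ _
          rw [map_add]
          exact (v.map_add _ _).trans (max_le ha hb)
        zero_mem' := by
          change v (op ρ t.1.1 t.1.2.1 t.1.2.2 0) ≤ _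
          rw [map_zero, map_zero]
          exact zero_le
        smul_mem' := fun r a ha => by
          change v (op ρ t.1.1 t.1.2.1 t.1.2.2 (r • a)) ≤ _
          rw [map_smul, Algebra.smul_def, map_mul]
          calc _ ≤ 1 * v (op ρ t.1.1 t.1.2.1 t.1.2.2 a) :=
                mul_le_mul_left (hx.pos.1 _ (B.algebraMap_mem r)) _
            _ ≤ _ := by rw [one_mul]; exact ha }
    have h1 : V ≤ Y := by
      rw [hV, Submodule.span_le]
      rintro _ ⟨j, rfl⟩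
      exact hx.val_op t.1.2.2.2 t.2.2.2 (hyZ j)
    exact h1 hxV
  have hle : ∀ g ∈ R, W (algebraMap (ML K L) F g) ≤ 1 := by
    let Y : Subalgebra k (ML K L) :=
      { carrier := {g | W (algebraMap (ML K L) F g) ≤ 1}
        mul_mem' := fun {a b} ha hb => by
          change W (algebraMap (ML K L) F (a * b)) ≤ 1
          rw [map_mul, map_mul]
          exact mul_le_one' ha hb
        add_mem' := fun {a b} ha hb => by
          change W (algebraMap (ML K L) F (a + b)) ≤ 1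
          rw [map_add]
          exact (W.map_add _ _).trans (max_le ha hb)
        algebraMap_mem' := fun r => by
          change W (algebraMap (ML K L) F (algebraMap k (ML K L) r)) ≤ 1
          rw [algebraMap_ML, ← vK_apply (k := k)]
          exact hx.pos.1 _ (B.algebraMap_mem r) }
    have h1 : R ≤ Y := by
      rw [hR]
      unfold MR
      refine Algebra.adjoin_le ?_
      rintro g (((⟨b, hb, rfl⟩ | ⟨i, rfl⟩) | ⟨i, hi, rfl⟩) | ⟨j, rfl⟩)
      · change W (algebraMap (ML K L) F (mo 0 b)) ≤ 1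
        rw [← vK_apply (k := k)]
        exact hEv b hb
      · change W (algebraMap (ML K L) F (xz K dg (Pi.single i 1))) ≤ 1
        rw [hmo.val_xz hx.sys.pc, mz_single, zpow_one]
        exact hx.al_le i
      · change W (algebraMap (ML K L) F (xz K dg (Pi.single i (-1)))) ≤ 1
        have h2 : al A B' (vK k L W) i = 1 := le_antisymm (hx.al_le i) (not_lt.1 hi)
        rw [hmo.val_xz hx.sys.pc, mz_single, h2, one_zpow]
      · change W (algebraMap (ML K L) F (mo (dg.symm (w (τ j))) (β j))) ≤ 1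
        rw [hmo.symm, div_le_one₀ (zero_lt_iff.2 (mz_ne_zero hx.al_ne _))]
        exact hUv _ _ (hβ3 j)
    exact fun g hg => h1 hg
  have hgr : Gr R := by
    rw [hR]
    unfold MR
    refine gr_adjoin _ ?_
    rintro g (((⟨b, -, rfl⟩ | ⟨i, rfl⟩) | ⟨i, -, rfl⟩) | ⟨j, rfl⟩)
    · exact ⟨_, _, rfl⟩
    · exact ⟨_, _, rfl⟩
    · exact ⟨_, _, rfl⟩
    · exact ⟨_, _, rfl⟩
  -- the elements of the subspaces
  have hUR : ∀ t, ∀ x ∈ U t, mo (dg.symm (w t)) x ∈ R := by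
    intro t x hxU
    have h1 : Submodule.span k {x | ∃ j, r (τ j) t ∧ x = β j} ≤ cfA R (dg.symm (w t)) := by
      rw [Submodule.span_le]
      rintro _ ⟨j, hj, rfl⟩
      exact hRad.adj (hRs j) hj
    exact h1 (hβ4 t hxU)
  have hnoeth : IsNoetherianRing R := Algebra.FiniteType.isNoetherianRing k R
  have hEH : ∀ h ∈ H, ∀ b ∈ E, ρ h b ∈ E := by
    rintro h hh b ⟨n, hn⟩
    refine ⟨n, ?_⟩
    have h1 := hBst h _ hn
    rwa [map_mul, map_pow, (hyH' h hh).1] at h1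
  have hin : ∀ h ∈ H, ∀ b ∈ E, W (algebraMap (ML K L) F (mo 0 (ρ h b - b))) < 1 := by
    rintro h hh b ⟨n, hn⟩
    rw [← vK_apply (k := k)]
    have h1 := (hH h).1 hh _ hn
    have h2 : ρ h (f ^ n * b) - f ^ n * b = f ^ n * (ρ h b - b) := by
      rw [map_mul, map_pow, (hyH' h hh).1]
      ring
    rw [h2, map_mul, map_pow, hf1, one_pow, one_mul] at h1
    exact h1
  have hleib := leib_ind (dg := dg) (W := W) E β' hβe R hnoeth hgr hRE hle p H I hIH hEH hin J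
    hRad (wN N ps) (wM N ps) wM_zero wN_one
    (fun c hc hc1 a b hab i hi => hx.wM_add hc1 hab i hi)
    (fun c hc hc1 a ha i hi => hx.wM_nonneg hc1 (hI c hc) ha i hi)
    (fun c hc h hh i hi => hx.wN_conj (hI c hc) h i hi)
    (fun h hh i hi => hx.wN_nonneg h i)
    (fun c hc h hh u hu hcu j => le_LW _ _ (hUR ⟨(c, h, ⟨u, hu⟩), hc, hh, hcu⟩ _
      ⟨β j, hβV j, rfl⟩))
  refine ⟨R, hsm, hreg, hic, hgr, hle, hRad, fun b hb => hRE b (hBE hb),
    fun c hc h hh u hu hcu b hb => hleib c hc h hh u hu hcu b (hBE hb), ?_⟩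
  -- the universal property
  intro S hclo hBS hadS hop
  have hES : ∀ b ∈ E, mo 0 b ∈ S := by
    rintro b ⟨n, hn⟩
    have h1 := hclo 0 (f ^ n) (pow_ne_zero _ hf0) (hBS _ (B.pow_mem hf n)) (by
      rw [← vK_apply (k := k), map_pow]
      change v f ^ n = 1
      rw [hf1, one_pow])
    have h2 := S.mul_mem h1 (hBS _ hn)
    rw [mo_mul, neg_zero, add_zero, inv_mul_cancel_left₀ (pow_ne_zero _ hf0)] at h2
    exact h2
  rw [hR]
  unfold MR
  refine Algebra.adjoin_le ?_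
  rintro g (((⟨b, hb, rfl⟩ | ⟨i, rfl⟩) | ⟨i, hi, rfl⟩) | ⟨j, rfl⟩)
  · exact hES b hb
  · refine hadS _ fun l _ => ?_
    by_cases hl : l = i
    · subst hl; simp
    · simp [hl]
  · refine hadS _ fun l hl => ?_
    have hli : l ≠ i := by
      rintro rfl
      exact hi hl
    simp [hli]
  · obtain ⟨x, hxV, hxj⟩ := hβ3 j
    have h1 : V ≤ (cfA S (dg.symm (w (τ j)))).comap
        (op ρ (τ j).1.1 (τ j).1.2.1 (τ j).1.2.2) := by
      rw [hV, Submodule.span_le]
      rintro _ ⟨l, rfl⟩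
      exact hop _ (τ j).2.1 _ (τ j).2.2.1 _ (τ j).1.2.2.2 (τ j).2.2.2 _ (hyZ l)
    have h2 : mo (dg.symm (w (τ j))) (op ρ (τ j).1.1 (τ j).1.2.1 (τ j).1.2.2 x) ∈ S := h1 hxV
    rw [hxj] at h2
    exact h2

end model

end Pool.Agent.Helper49.SR
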