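import Pool.Agent.Helper49.SR.As4

/-!
# Comparison of the chart with the local model
-/

set_option autoImplicit false
set_option linter.unusedSectionVars false

namespace Pool.Agent.Helper49.SR

open Finset Pool.Agent.W559.Mg Pool.Agent.Helper46.AQ Pool.Agent.Helper49.PQ Pointwise
  Pool.Agent.Helper49.SQ

variable {k K : Type} [Field k] [Field K] [Algebra k K] [DecidableEq K] {G : Type} [Group G]
  [Fintype G] [DecidableEq G] {ρ : G →* (K ≃ₐ[k] K)} {B : Subalgebra k K} {Z : Finset K} {p : ℕ}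
  {ι : Type} [Fintype ι] [DecidableEq ι] {A B' : ι → Finset K} {Ex : ι → ι → Prop}
  {N : ℕ → ι → ℕ} {ps : Lam G p ≃ Fin (Fintype.card (Lam G p))}
  {L : Type} [AddCommGroup L] {dg : L ≃+ (ι → ℤ)}
  {F Γ : Type} [Field F] [Algebra (ML K L) F] [FaithfulSMul (ML K L) F]
  [LinearOrderedCommGroupWithZero Γ] {W : Valuation F Γ}

lemma stB (hb : SB ρ B Z) (h : G) : ∀ b ∈ B, ρ h b ∈ B := by
  obtain ⟨Y, Z1, hr⟩ := hb.gen
  exact hr.stable hb.fam.st h

section key

variable (hx : Cx ρ B Z p A B' Ex N ps (vK k L W)) {I H : Subgroup G} {R : Subalgebra k (ML K L)}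
  (hR : LM ρ B Z p N ps dg {i | al A B' (vK k L W) i < 1} W I H R)
  (hI : ∀ c, c ∈ I ↔ SQ.Rel ρ Z (vK k L W) c)
  (hH : ∀ h, h ∈ H ↔ ∀ b ∈ B, vK k L W (ρ h b - b) < 1)

include hx hR

lemma adm_R : Adm dg {i | al A B' (vK k L W) i < 1} (LW R W) := hR.ad.mono (le_LW _ _)

include hH

lemma inl_R (hp : 0 < p) (h : G) (i : K) (hi : i ∈ FF ρ Z h) :
    mo (dg.symm (Nv N ps (Sum.inl h))) i ∈ LW R W := by
  have hadm := adm_R hx hR
  have hZB : ∀ z ∈ Z, z ∈ B := hx.sb.fam.mem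
  -- elements with trivial weight
  have triv : ∀ (h : G) (i : K), i ∈ B → dv ρ Z (vK k L W) h = 1 →
      mo (dg.symm (Nv N ps (Sum.inl h))) i ∈ LW R W := by
    intro h i hi hd
    have h1 : mo (dg.symm 0) i ∈ LW R W := by
      rw [map_zero]
      exact le_LW _ _ (hR.bm i hi)
    exact hadm.adj h1 fun j hj => (hx.Nv_zero hd j hj).le
  by_cases h1 : h = 1
  · subst h1
    refine triv 1 i ?_ hx.dv_one
    unfold FF at hi
    rw [if_pos rfl] at hi
    exact hZB i hi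
  by_cases hhH : h ∈ H
  · obtain ⟨z, hz, rfl⟩ := FF_cases hi
    have h2 := hR.leib 1 I.one_mem h hhH 0 hp (fun _ => rfl) z (hZB z hz)
    have h3 : wt N ps (1 : G) h 0 = wN N ps h := by
      unfold wt
      rw [wM_zero, add_zero]
    rw [h3, op_apply, pow_zero] at h2
    exact hadm.adj h2 fun j hj => (hx.wN_eq h j hj).le
  · have h2 := (lf_Fl hx.sb p).mem (Sum.inl h) i hi
    refine triv h i h2 (dv_of_not hx.sb hx.pos h ?_)
    by_contra hcon
    push Not at hcon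
    exact hhH ((hH h).2 hcon)

/-- The rescaled differences are in the local ring of the model. -/
theorem key_R (hI : ∀ c, c ∈ I ↔ SQ.Rel ρ Z (vK k L W) c) (hp : 0 < p) (c : G) (hc : c ≠ 1) :
    Key ρ Z p N ps dg (LW R W) c := by
  have hadm := adm_R hx hR
  by_cases hcI : c ∈ I
  · intro a ha h i hi
    have hiB : i ∈ B := (lf_Fl hx.sb p).mem (Sum.inl h) i hi
    have hone : ∀ b ∈ B, mo (dg.symm (wM N ps c a)) (((dlt ρ c) ^ a : Module.End k K) b) ∈
        LW R W := by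
      intro b hb
      have h2 := hR.leib c hcI 1 H.one_mem a ha (fun h => absurd h hc) b hb
      have h3 : wt N ps c 1 a = wM N ps c a := by
        unfold wt
        rw [wN_one, zero_add]
      rw [h3, op_apply] at h2
      unfold dl' at h2
      rw [if_pos rfl] at h2
      exact h2
    by_cases h1 : h = 1
    · subst h1
      refine hadm.adj (hone i hiB) fun j hj => ?_
      rw [Pi.add_apply, hx.wN_eq 1 j hj, wN_one]
      simp
    by_cases hhH : h ∈ H
    · obtain ⟨z, hz, rfl⟩ := FF_cases hi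
      have h2 := hR.leib c hcI h hhH a ha (fun h => absurd h hc) z (hx.sb.fam.mem z hz)
      refine hadm.adj h2 fun j hj => ?_
      unfold wt
      rw [Pi.add_apply, Pi.add_apply, hx.wN_eq h j hj]
    · have hd : dv ρ Z (vK k L W) h = 1 := by
        refine dv_of_not hx.sb hx.pos h ?_
        by_contra hcon
        push Not at hcon
        exact hhH ((hH h).2 hcon)
      refine hadm.adj (hone i hiB) fun j hj => ?_
      rw [Pi.add_apply, hx.Nv_zero hd j hj, zero_add]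
  · exact key_irr hx hadm (fun h i hi => inl_R hx hR hH hp h i hi) hc fun h => hcI ((hI c).2 h)

/-- All families are in the local ring of the model. -/
theorem fl_R (hI : ∀ c, c ∈ I ↔ SQ.Rel ρ Z (vK k L W) c) (hp : 0 < p) (l : Lam G p) (a : K)
    (ha : a ∈ Fl ρ Z p l) : mo (dg.symm (Nv N ps l)) a ∈ LW R W :=
  fl_mem hx (adm_R hx hR) (fun h i hi => inl_R hx hR hH hp h i hi)
    (fun c hc => key_R hx hR hH hI hp c hc) l a ha

end key

section main

variable {D : Tp Z A B'} (hx : Cx ρ B Z p A B' Ex N ps (vK k L W))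
  {Q : Ideal (CC dg hx.sys.pc D)} (hC : Cen dg hx.sys.pc D Q W) {I H : Subgroup G}
  {R : Subalgebra k (ML K L)}
  (hR : LM ρ B Z p N ps dg {i | al A B' (vK k L W) i < 1} W I H R)
  (hI : ∀ c, c ∈ I ↔ SQ.Rel ρ Z (vK k L W) c)
  (hH : ∀ h, h ∈ H ↔ ∀ b ∈ B, vK k L W (ρ h b - b) < 1)

include hC hR hI hH

/-- The chart is contained in a localization of the local model. -/
theorem exists_R [IsDomain (ML K L)] (hp : 0 < p) :
    ∃ R' : Subalgebra k (ML K L), Algebra.Smooth k R' ∧ IsRegularRing R' ∧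
      CC dg hx.sys.pc D ≤ R' ∧
      ∀ S : Subalgebra k (ML K L), Clo W S → (∀ b ∈ B, mo 0 b ∈ S) →
        (∀ i, xz K dg (Pi.single i 1) ∈ S) →
        (∀ c ∈ I, ∀ h, ∀ u < p, (c = 1 → u = 0) → ∀ z ∈ Z,
          mo (dg.symm (wt N ps c h u)) (op ρ c h u z) ∈ S) → R' ≤ S := by
  classical
  have hmo := mov_C hx hC
  have hLF := lf_Fl (ρ := ρ) hx.sb p
  have hg : ∀ l, ∃ g ∈ Fl ρ Z p l, mx (vK k L W) (Fl ρ Z p l) = vK k L W g := fun l =>
    exists_mx (hLF.ne l)
  choose g hg1 hg2 using hg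
  have hg0 : ∀ l, g l ≠ 0 := fun l => hLF.n0 l _ (hg1 l)
  have hfl := fl_R hx hR hH hI hp
  have hgi : ∀ l, mo (-(dg.symm (Nv N ps l))) (g l)⁻¹ ∈ LW R W := by
    intro l
    refine clo_LW R _ _ (hg0 l) (hfl l _ (hg1 l)) ?_
    rw [hmo.symm, hx.mx_Nv, ← hg2]
    exact div_self (mx_ne_zero (hLF.ne l) (hLF.n0 l))
  -- an element of maximal value
  obtain ⟨z, hzZ, hz1⟩ := exists_mx (v := vK k L W) hx.sb.fam.ne
  have hz2 : vK k L W z = 1 := by rw [← hz1]; exact hx.pos.2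
  have hz0 : z ≠ 0 := hx.sb.fam.n0 z hzZ
  have hziR : (mo (0 : L) z⁻¹ : ML K L) ∈ LW R W := by
    have h1 := clo_LW (W := W) R (0 : L) z hz0 (le_LW _ _ (hR.bm z (hx.sb.fam.mem z hzZ))) (by
      rw [← vK_apply (k := k), hz2])
    rwa [neg_zero] at h1
  -- the common denominator
  let Ix := ((Σ l : Lam G p, {a // a ∈ Fl ρ Z p l}) ⊕ Lam G p) ⊕ Unit
  let fx : Ix → ML K L := Sum.elim (Sum.elim (fun x => mo (dg.symm (Nv N ps x.1)) (x.2 : K))
    fun l => mo (-(dg.symm (Nv N ps l))) (g l)⁻¹) fun _ => mo (0 : L) z⁻¹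
  have hfx : ∀ x, fx x ∈ LW R W := by
    rintro ((⟨l, a, ha⟩ | l) | _)
    · exact hfl l a ha
    · exact hgi l
    · exact hziR
  obtain ⟨d, a, ha0, had, haW, hax⟩ := exists_den R fx hfx
  have hu : IsUnit (mo d a : ML K L) := isUnit_mo ha0
  set R1 := lc R (mo d a) had with hR1
  have hRR1 : R ≤ R1 := le_lc _ _ _
  have hx1 : ∀ x, fx x ∈ R1 := fun x => ⟨1, by rw [pow_one]; exact hax x⟩
  have hxR : ∀ i, xz K dg (Pi.single i 1) ∈ R := fun i => hR.ad _ fun l _ => by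
    by_cases hl : l = i
    · subst hl; simp
    · simp [hl]
  have hxiR : ∀ i, ¬ al A B' (vK k L W) i < 1 → xz K dg (Pi.single i (-1)) ∈ R :=
    fun i hi => hR.ad _ fun l hl => by
      have hli : l ≠ i := by
        rintro rfl
        exact hi hl
      simp [hli]
  obtain ⟨c, hc⟩ := hx.sys.la
  have hzR1 : (mo (0 : L) z⁻¹ : ML K L) ∈ R1 := hx1 (Sum.inr ())
  have hpw : ∀ j : ℕ, (mo (0 : L) (z ^ j)⁻¹ : ML K L) ∈ R1 := by
    intro j
    have h1 := R1.pow_mem hzR1 j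
    rwa [mo_pow, smul_zero, inv_pow] at h1
  obtain ⟨hm, hCle⟩ := model_le (D := D) (dg := dg) (lf_Fp hx.sb p) hx.sys hc hx.pos ps R1
    (hR.ic.lc had hu) (fun b hb => hRR1 (hR.bm b hb)) ⟨z, hzZ, hzR1⟩ (fun i => hRR1 (hxR i))
    (fun i hi => hRR1 (hxiR i hi))
    (fun l b hb => by
      obtain ⟨x, hx', y, hy, rfl⟩ := Finset.mem_mul.1 hb
      have h1 := R1.mul_mem (hx1 (Sum.inl (Sum.inl ⟨l, x, hx'⟩)))
        (hRR1 (hR.bm y ((fam_pow hx.sb.fam _).mem y hy)))
      change mo (dg.symm (Nv N ps l)) x * mo 0 y ∈ R1 at h1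
      rwa [mo_mul, add_zero] at h1)
    (fun l => ⟨g l * z ^ (1 + p * Fintype.card G - dgr G p l),
      Finset.mul_mem_mul (hg1 l) (Finset.pow_mem_pow hzZ), by
      have h1 := R1.mul_mem (hx1 (Sum.inl (Sum.inr l)))
        (hpw (1 + p * Fintype.card G - dgr G p l))
      change mo (-(dg.symm (Nv N ps l))) (g l)⁻¹ *
        mo (0 : L) (z ^ (1 + p * Fintype.card G - dgr G p l))⁻¹ ∈ R1 at h1
      rwa [mo_mul, add_zero, ← mul_inv] at h1⟩)
  have hinv : (∏ j, hz dg c D j) * ∏ j, hzi dg c D j = 1 := by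
    rw [← Finset.prod_mul_distrib]
    exact Finset.prod_eq_one fun j _ => hz_mul_hzi c D j
  have hunit : IsUnit (∏ j, hz dg c D j) := IsUnit.of_mul_eq_one _ hinv
  refine ⟨lc R1 (∏ j, hz dg c D j) hm, smooth_lc (smooth_lc hR.sm had hu) hm hunit,
    regular_lc (regular_lc hR.reg had hu) hm hunit, hCle, ?_⟩
  intro S hclo hBS hxS hop
  have hadS : Adm dg {i | al A B' (vK k L W) i < 1} S :=
    adm_of hmo hx.sys.pc hx.pos hxS hclo
  have hRS : R ≤ S := hR.univ S hclo hBS hadS fun c hc h _ u hu hcu z hz =>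
    hop c hc h u hu hcu z hz
  have hR1S : R1 ≤ S := lc_le had (mo_inv ha0) hRS (hclo d a ha0 (hRS had) haW)
  refine lc_le hm hinv hR1S ?_
  -- the inverse
  have h1 : ∏ j, hz dg c D j = mo (∑ j, dg.symm (EE Z A B' • c j)) (∏ j, hh D j) := by
    unfold hz
    rw [SQ.mo_prod]
  have h2 : W (algebraMap (ML K L) F (∏ j, hz dg c D j)) = 1 :=
    hC.one_of_inv ((CC dg hx.sys.pc D).prod_mem fun j _ => hz_mem hc hx.sys.pc j)
      ((CC dg hx.sys.pc D).prod_mem fun j _ => hzi_mem hc hx.sys.pc j) hinv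
  have h0 : ∏ j, hh D j ≠ 0 := Finset.prod_ne_zero_iff.2 fun j _ => hh_ne D j
  have h3 : mo (-(∑ j, dg.symm (EE Z A B' • c j))) (∏ j, hh D j)⁻¹ ∈ S := by
    refine hclo _ _ h0 ?_ ?_
    · rw [← h1]
      exact hR1S hm
    · rw [← h1]
      exact h2
  have h4 : ∏ j, hzi dg c D j = mo (-(∑ j, dg.symm (EE Z A B' • c j))) (∏ j, hh D j)⁻¹ := by
    have h5 := mo_inv (d := ∑ j, dg.symm (EE Z A B' • c j)) h0
    rw [← h1] at h5
    exact (left_inv_eq_right_inv (by rw [mul_comm]; exact hinv) h5)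
  rw [h4]
  exact h3

/-- The chart is locally smooth and regular. -/
theorem loc_chart [IsDomain (ML K L)] (hp : 0 < p) :
    ∃ (d : L) (a : K) (hd : (mo d a : ML K L) ∈ CC dg hx.sys.pc D), a ≠ 0 ∧
      W (algebraMap (ML K L) F (mo d a)) = 1 ∧ Algebra.Smooth k (lc (CC dg hx.sys.pc D) (mo d a) hd) ∧
      IsRegularRing (lc (CC dg hx.sys.pc D) (mo d a) hd) := by
  obtain ⟨R', hsm, hreg, hle, huniv⟩ := exists_R hx hC hR hI hH hp
  have hZB : ∀ z ∈ Z, z ∈ B := hx.sb.fam.mem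
  refine loc_of_model (CC dg hx.sys.pc D) R' (gr_CC hx.sys.pc D) hC.le hle ?_ ?_ hsm hreg
  · refine huniv _ (clo_LW _) (fun b hb => le_LW _ _ ?_)
      (fun i => le_LW _ _ (xz_mem_CC hx.sys.pc i)) ?_
    · rw [mo_mem_CC]
      intro Γ _ v hv
      rw [map_zero, nm_zero]
      exact hv.1.1 _ hb
    · intro c hc h u hu hcu z hz
      have hadm := adm_C hx hC
      rw [op_apply]
      rcases dl'_mem (ρ := ρ) h hz with h1 | h1
      · by_cases hc1 : c = 1
        · subst hc1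
          rw [hcu rfl, pow_zero]
          refine hadm.adj (fl_C hx hC (Sum.inl h) _ h1) fun j hj => ?_
          unfold wt
          rw [wM_zero, add_zero, hx.wN_eq h j hj]
        · refine hadm.adj (key_C hx hC c hc1 u hu h _ h1) fun j hj => ?_
          unfold wt
          rw [Pi.add_apply, Pi.add_apply, hx.wN_eq h j hj]
      · rw [h1, map_zero, mo_zero]
        exact Subalgebra.zero_mem _
  · have h1 : Algebra.FiniteType k R' := inferInstance
    exact (Subalgebra.fg_iff_finiteType R').2 h1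

end main

end Pool.Agent.Helper49.SR
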