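import Pool.Agent.Helper49.SR.As7
import Pool.Agent.Helper49.SR.Hd5

/-!
# Projective models of the quotients in terms of the basic data, relative version
-/

set_option autoImplicit false
set_option linter.unusedSectionVars false

namespace Pool.Agent.Helper49.SR

open Finset Pool.Agent.W559.Mg Pool.Agent.Helper46.AQ Pool.Agent.Helper49.PQ Pointwise
  Pool.Agent.Helper49.PN Pool.Agent.Helper49.SQ Pool.Agent.W559.Wr

/-- Projective models of the quotient in terms of the basic data: inertia groups. -/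
theorem spmr_of_SB' {k K : Type} [Field k] [Field K] [Algebra k K] [DecidableEq K] {G : Type}
    [Group G] [Fintype G] [DecidableEq G] {ρ : G →* (K ≃ₐ[k] K)} {B : Subalgebra k K}
    {Z : Finset K} [PerfectField k] (hb : SB ρ B Z) (hLL : LLZ ρ B Z) {p : ℕ} [Fact p.Prime]
    [CharP k p] (hG : InP ρ B Z p) {K0 F : IntermediateField k K} {t : K}
    (h : Scl ρ Z K0 F t) (ht : t ≠ 0)
    {Y Z1 : Finset K} (hr : RG ρ B Z Y Z1) (A₀ : Subalgebra k F)
    (hA : ∀ a ∈ A₀, ∀ (Γ : Type) [LinearOrderedCommGroupWithZero Γ] (v : Valuation K Γ),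
      Pos B Z v → v (a : K) ≤ 1)
    (hY : ∀ W : ValuationSubring K, (∀ a ∈ A₀, (a : K) ∈ W) → ∀ y ∈ Y, y ∈ W) :
    SPMR k F A₀ := by
  obtain ⟨ι, _, _, A, B', Ex, N, hS, hcmp⟩ := exists_LS (lf_Fp (ρ := ρ) hb p) (hm_Fp hb p)
    (rB G p)
  exact spmr_of_GS ⟨hb.fam, hb.gen, hb.fr⟩ ⟨hS.pc, hS.hm⟩ h ht
    (fun L _ _ dg D => smooth_inv' (dg := dg) hb hLL hS hcmp D hG) hr A₀ hA hY

/-- Projective models of the quotient in terms of the basic data. -/
theorem spmr_of_SB {k K : Type} [Field k] [Field K] [Algebra k K] [DecidableEq K] {G : Type}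
    [Group G] [Fintype G] [DecidableEq G] {ρ : G →* (K ≃ₐ[k] K)} {B : Subalgebra k K}
    {Z : Finset K} [PerfectField k] (hb : SB ρ B Z) (hLL : LLZ ρ B Z) {p : ℕ} [Fact p.Prime]
    [CharP k p] (hG : ¬ p ^ 2 ∣ Nat.card G) {K0 F : IntermediateField k K} {t : K}
    (h : Scl ρ Z K0 F t) (ht : t ≠ 0)
    {Y Z1 : Finset K} (hr : RG ρ B Z Y Z1) (A₀ : Subalgebra k F)
    (hA : ∀ a ∈ A₀, ∀ (Γ : Type) [LinearOrderedCommGroupWithZero Γ] (v : Valuation K Γ),
      Pos B Z v → v (a : K) ≤ 1)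
    (hY : ∀ W : ValuationSubring K, (∀ a ∈ A₀, (a : K) ∈ W) → ∀ y ∈ Y, y ∈ W) :
    SPMR k F A₀ :=
  spmr_of_SB' hb hLL (InP.of_card hG) h ht hr A₀ hA hY

end Pool.Agent.Helper49.SR
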