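import Pool.Agent.Helper49.SQ.Fam
import Pool.Agent.Helper49.PQ.Hom

/-!
# Relative generation of the cone
-/

set_option autoImplicit false
set_option linter.unusedSectionVars false

namespace Pool.Agent.Helper49.SR

open Finset Pool.Agent.W559.Mg Pool.Agent.Helper46.AQ Pool.Agent.Helper49.PQ Pointwise
  Pool.Agent.Helper49.SQ

/-- The algebra `B` is generated by `Z` and a finite stable set `Y`; all elements of `Z` are
combinations of elements `z` of `Z1 ⊆ Z`, for which `Y z ⊆ Z`. -/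
structure RG {k K : Type} [Field k] [Field K] [Algebra k K] {G : Type} [Group G]
    (ρ : G →* (K ≃ₐ[k] K)) (B : Subalgebra k K) (Z Y Z1 : Finset K) : Prop where
  st : ∀ g : G, ∀ y ∈ Y, ρ g y ∈ Y
  sub : Z1 ⊆ Z
  mul : ∀ y ∈ Y, ∀ z ∈ Z1, y * z ∈ Z
  dv : ∀ z ∈ Z, ∃ c : K → K, (∀ x ∈ Z1, c x ∈ B) ∧ z = ∑ x ∈ Z1, c x * x
  gen : B = Algebra.adjoin k ((Y : Set K) ∪ (Z : Set K))

section lem

lemma mlt' {Γ : Type} [LinearOrderedCommGroupWithZero Γ] {a b : Γ} (ha : a ≤ 1) (hb : b < 1) :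
    a * b < 1 :=
  lt_of_le_of_lt (mul_le_of_le_one_left' ha) hb

variable {k K : Type} [Field k] [Field K] [Algebra k K] {G : Type} [Group G]
  {ρ : G →* (K ≃ₐ[k] K)} {B : Subalgebra k K} {Z Y Z1 : Finset K}

lemma RG.Y_mem (h : RG ρ B Z Y Z1) {y : K} (hy : y ∈ Y) : y ∈ B := by
  rw [h.gen]
  exact Algebra.subset_adjoin (Or.inl hy)

lemma RG.Z_mem (h : RG ρ B Z Y Z1) {z : K} (hz : z ∈ Z) : z ∈ B := by
  rw [h.gen]
  exact Algebra.subset_adjoin (Or.inr hz)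

lemma RG.stable (h : RG ρ B Z Y Z1) (hZ : ∀ g : G, ∀ z ∈ Z, ρ g z ∈ Z) (g : G) :
    ∀ b ∈ B, ρ g b ∈ B := by
  have h1 : B ≤ B.comap ((ρ g : K ≃ₐ[k] K) : K →ₐ[k] K) := by
    conv_lhs => rw [h.gen]
    refine Algebra.adjoin_le ?_
    rintro s (hs | hs)
    · exact h.Y_mem (h.st g s hs)
    · exact h.Z_mem (hZ g s hs)
  exact h1

lemma RG.exZ1 (h : RG ρ B Z Y Z1) (hne : Z.Nonempty) (hn0 : ∀ z ∈ Z, z ≠ 0) :
    ∃ z, z ∈ Z1 := by
  obtain ⟨z, hz⟩ := hne
  obtain ⟨c, -, hc⟩ := h.dv z hz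
  rcases Z1.eq_empty_or_nonempty with h1 | h1
  · rw [h1, Finset.sum_empty] at hc
    exact (hn0 z hz hc).elim
  · exact h1

/-- Containment in a subalgebra. -/
lemma RG.le (h : RG ρ B Z Y Z1) {S : Subalgebra k K} (hZ : ∀ z ∈ Z, z ∈ S)
    (hY : ∀ y ∈ Y, y ∈ S) : B ≤ S := by
  rw [h.gen]
  refine Algebra.adjoin_le ?_
  rintro s (hs | hs)
  · exact hY s hs
  · exact hZ s hs

/-- Elements which fix `Z` fix `B`. -/
lemma RG.fix (h : RG ρ B Z Y Z1) (hne : Z.Nonempty) (hn0 : ∀ z ∈ Z, z ≠ 0) {g : G}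
    (hg : ∀ z ∈ Z, ρ g z = z) : ∀ b ∈ B, ρ g b = b := by
  obtain ⟨z1, hz1⟩ := h.exZ1 hne hn0
  have hz0 : z1 ≠ 0 := hn0 _ (h.sub hz1)
  let S : Subalgebra k K :=
    { carrier := {x | ρ g x = x}
      mul_mem' := fun {a b} ha hb => by
        change ρ g (a * b) = a * b
        rw [map_mul]
        change ρ g a = a at ha
        change ρ g b = b at hb
        rw [ha, hb]
      add_mem' := fun {a b} ha hb => by
        change ρ g (a + b) = a + b
        rw [map_add]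
        change ρ g a = a at ha
        change ρ g b = b at hb
        rw [ha, hb]
      algebraMap_mem' := fun r => AlgEquiv.commutes _ r }
  have h1 : B ≤ S := by
    refine h.le hg fun y hy => ?_
    change ρ g y = y
    have h2 := hg _ (h.mul y hy z1 hz1)
    rw [map_mul, hg _ (h.sub hz1)] at h2
    exact mul_right_cancel₀ hz0 h2
  exact h1

variable {Γ : Type} [LinearOrderedCommGroupWithZero Γ] {v : Valuation K Γ}

/-- Some element of `Z1` has value one. -/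
lemma RG.one (h : RG ρ B Z Y Z1) (hB : ∀ b ∈ B, v b ≤ 1) (h1 : ∃ s ∈ Z, v s = 1) :
    ∃ z ∈ Z1, v z = 1 := by
  obtain ⟨s, hs, hvs⟩ := h1
  obtain ⟨c, hc, hsc⟩ := h.dv s hs
  by_contra hcon
  push Not at hcon
  have h2 : ∀ x ∈ Z1, v (c x * x) < 1 := by
    intro x hx
    rw [map_mul]
    exact mlt' (hB _ (hc x hx)) (lt_of_le_of_ne (hB _ (h.Z_mem (h.sub hx))) (hcon x hx))
  have h3 : v s < 1 := by
    rw [hsc]
    exact v.map_sum_lt one_ne_zero h2
  exact h3.ne hvs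

/-- Elements which act trivially on `Z` modulo the centre of `v` act trivially on `B`. -/
lemma RG.lt (h : RG ρ B Z Y Z1) (hst : ∀ g : G, ∀ z ∈ Z, ρ g z ∈ Z) (hB : ∀ b ∈ B, v b ≤ 1)
    (h1 : ∃ s ∈ Z, v s = 1) {g : G} (hg : ∀ z ∈ Z, v (ρ g z - z) < 1) :
    ∀ b ∈ B, v (ρ g b - b) < 1 := by
  obtain ⟨z1, hz1, hv1⟩ := h.one hB h1
  have hgz : v (ρ g z1) = 1 := by
    have h2 : v (z1 + (ρ g z1 - z1)) = v z1 :=
      Valuation.map_add_eq_of_lt_left v (lt_of_lt_of_eq (hg _ (h.sub hz1)) hv1.symm)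
    rw [add_sub_cancel, hv1] at h2
    exact h2
  intro b hb
  have key : b ∈ B ∧ v (ρ g b - b) < 1 := by
    rw [h.gen] at hb
    induction hb using Algebra.adjoin_induction with
    | mem x hx =>
      rcases hx with hx | hx
      · refine ⟨h.Y_mem hx, ?_⟩
        have h2 : (ρ g x - x) * ρ g z1 =
            (ρ g (x * z1) - x * z1) - x * (ρ g z1 - z1) := by
          rw [map_mul]
          ring
        have h3 : v ((ρ g x - x) * ρ g z1) < 1 := by
          rw [h2]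
          refine lt_of_le_of_lt (v.map_sub _ _) (max_lt (hg _ (h.mul x hx z1 hz1)) ?_)
          rw [map_mul]
          exact mlt' (hB _ (h.Y_mem hx)) (hg _ (h.sub hz1))
        rwa [map_mul, hgz, mul_one] at h3
      · exact ⟨h.Z_mem hx, hg x hx⟩
    | algebraMap r =>
      refine ⟨B.algebraMap_mem r, ?_⟩
      rw [AlgEquiv.commutes, sub_self, map_zero]
      exact zero_lt_one
    | add x y _ _ h1 h2 =>
      refine ⟨B.add_mem h1.1 h2.1, ?_⟩
      have h3 : ρ g (x + y) - (x + y) = (ρ g x - x) + (ρ g y - y) := by rw [map_add]; ring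
      rw [h3]
      exact lt_of_le_of_lt (v.map_add _ _) (max_lt h1.2 h2.2)
    | mul x y _ _ h1 h2 =>
      refine ⟨B.mul_mem h1.1 h2.1, ?_⟩
      have h3 : ρ g (x * y) - (x * y) = ρ g x * (ρ g y - y) + (ρ g x - x) * y := by
        rw [map_mul]; ring
      rw [h3]
      refine lt_of_le_of_lt (v.map_add _ _) (max_lt ?_ ?_)
      · rw [map_mul]
        exact mlt' (hB _ (h.stable hst g x h1.1)) h2.2
      · rw [map_mul, mul_comm]
        exact mlt' (hB _ h2.1) h1.2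
  exact key.2

/-- The elements of `Y` are constants. -/
lemma RG.hom0 (h : RG ρ B Z Y Z1) (hne : Z.Nonempty) (hn0 : ∀ z ∈ Z, z ≠ 0)
    {K0 : Subfield K} {t : K} (ht : t ≠ 0) (hZ : HF K0 t 1 Z) {y : K} (hy : y ∈ Y) : y ∈ K0 := by
  obtain ⟨z1, hz1⟩ := h.exZ1 hne hn0
  have hz0 : z1 ≠ 0 := hn0 _ (h.sub hz1)
  have h1 := K0.div_mem (hZ _ (h.mul y hy z1 hz1)) (hZ _ (h.sub hz1))
  rw [zpow_one, div_div_div_cancel_right₀ ht, mul_div_cancel_right₀ _ hz0] at h1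
  exact h1

/-- Valuations which are bounded on the generators. -/
lemma RG.pos (h : RG ρ B Z Y Z1) {w : Valuation K Γ} (hk : ∀ r : k, w (algebraMap k K r) ≤ 1)
    (hs : ∀ s ∈ Z, w s ≤ 1) (hy : ∀ y ∈ Y, w y ≤ 1) (h1 : ∃ s ∈ Z, w s = 1) : Pos B Z w := by
  let S : Subalgebra k K :=
    { carrier := {x | w x ≤ 1}
      mul_mem' := fun {a b} ha hb => by
        change w (a * b) ≤ 1
        rw [map_mul]
        exact mul_le_one' ha hb
      add_mem' := fun {a b} ha hb => (w.map_add a b).trans (max_le ha hb)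
      algebraMap_mem' := hk }
  have h2 : B ≤ S := h.le hs hy
  refine ⟨fun b hb => h2 hb, le_antisymm (mx_le hs) ?_⟩
  obtain ⟨s, hs1, hs2⟩ := h1
  rw [← hs2]
  exact le_mx hs1

end lem

/-- The basic hypotheses. -/
structure SB {k K : Type} [Field k] [Field K] [Algebra k K] {G : Type} [Group G]
    (ρ : G →* (K ≃ₐ[k] K)) (B : Subalgebra k K) (Z : Finset K) : Prop where
  inj : ∀ g, ρ g = 1 → g = 1
  fam : Fam ρ B Z
  gen : ∃ Y Z1 : Finset K, RG ρ B Z Y Z1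
  fr : ∀ x : K, ∃ a ∈ B, ∃ b ∈ B, b ≠ 0 ∧ x = a / b

end Pool.Agent.Helper49.SR
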