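import Pool.Agent.Helper49.SR.Fam
import Pool.Agent.Helper49.PQ.Grd1
import Pool.Agent.Helper49.PQ.Fin1

/-!
# Homogeneous piecewise monomial coordinates
-/

set_option autoImplicit false
set_option linter.unusedSectionVars false

namespace Pool.Agent.Helper49.SR

open Finset Pool.Agent.W559.Mg Pool.Agent.Helper46.AQ Pool.Agent.Helper49.PQ Pointwise
  Pool.Agent.Helper49.SQ

/-- Homogeneous piecewise monomial coordinates. -/
structure GS {k K : Type} [Field k] [Field K] [Algebra k K] {G : Type} [Group G]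
    {ι : Type} [Fintype ι] (ρ : G →* (K ≃ₐ[k] K)) (B : Subalgebra k K) (Φ : Finset K)
    (A B' : ι → Finset K) : Prop where
  pc : PC ρ B Φ A B'
  hm : ∀ (K0 : Subfield K) (t : K), t ≠ 0 → HF K0 t 1 Φ → ∃ δ : ι → ℤ,
    ∀ i, HF K0 t (δ i) (A i) ∧ HF K0 t (δ i) (B' i)

/-- The basic hypotheses. -/
structure GB {k K : Type} [Field k] [Field K] [Algebra k K] {G : Type} [Group G]
    (ρ : G →* (K ≃ₐ[k] K)) (B : Subalgebra k K) (Φ : Finset K) : Prop where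
  fam : Fam ρ B Φ
  gen : ∃ Y Z1 : Finset K, RG ρ B Φ Y Z1
  fr : ∀ x : K, ∃ a ∈ B, ∃ b ∈ B, b ≠ 0 ∧ x = a / b

variable {k K : Type} [Field k] [Field K] [Algebra k K] [DecidableEq K] {G : Type} [Group G]
  {ρ : G →* (K ≃ₐ[k] K)} {B : Subalgebra k K} {Φ : Finset K}
  {ι : Type} [Fintype ι] [DecidableEq ι] {A B' : ι → Finset K}
  {L : Type} [AddCommGroup L] {dg : L ≃+ (ι → ℤ)}
  {K0 : IntermediateField k K} {t : K} {ht : t ≠ 0}

/-- The degrees of the functions. -/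
lemma exists_deg (hS : GS ρ B Φ A B') (ht : t ≠ 0) (hΦ : HF K0.toSubfield t 1 Φ) :
    ∃ δ : Option (ι ⊕ ι) → ℤ, δ none = EE Φ A B' ∧
      (∀ i, δ (some (Sum.inl i)) = δ (some (Sum.inr i))) ∧
      ∀ (D : Tp Φ A B') j, hh D j / t ^ δ j ∈ K0 := by
  obtain ⟨δ, hδ⟩ := hS.hm K0.toSubfield t ht hΦ
  have key : ∀ (j : Option (ι ⊕ ι)) (d : ℤ), HF K0.toSubfield t d (fm Φ A B' j) →
      ∀ D : Tp Φ A B', hh D j / t ^ ((EE Φ A B' : ℤ) * d) ∈ K0 := by
    intro j d hj D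
    have h1 := hom_pow ht (hj.es ht (D.1 j)) (EE Φ A B' / D.1 j)
    have h2 : ((EE Φ A B' / (D.1 j : ℕ) : ℕ) : ℤ) * (((D.1 j : ℕ) : ℤ) * d) =
        (EE Φ A B' : ℤ) * d := by
      rw [← mul_assoc, ← Nat.cast_mul, Nat.div_mul_cancel (dvd_EE D j)]
    rw [h2] at h1
    exact h1
  refine ⟨fun j => (EE Φ A B' : ℤ) * j.elim 1 (Sum.elim δ δ), ?_, fun i => rfl, ?_⟩
  · change (EE Φ A B' : ℤ) * 1 = _
    rw [mul_one]
  · rintro D (_ | i | i)
    · exact key none 1 hΦ D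
    · exact key (some (Sum.inl i)) (δ i) (hδ i).1 D
    · exact key (some (Sum.inr i)) (δ i) (hδ i).2 D

lemma GB.stable (hb : GB ρ B Φ) (γ : G) : ∀ b ∈ B, ρ γ b ∈ B := by
  obtain ⟨Y, Z1, h⟩ := hb.gen
  exact h.stable hb.fam.st γ

/-- The charts are stable. -/
lemma ga_mem_GC (hb : GB ρ B Φ) (hPC : PC ρ B Φ A B') {D : Tp Φ A B'} (γ : G) {f : ML K L}
    (hf : f ∈ CC dg hPC D) : ga ρ L γ f ∈ CC dg hPC D := by
  intro Γ _ v hv m
  set v' := v.comap ((ρ γ : K ≃ₐ[k] K) : K →+* K) with hv'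
  have hal : al A B' v' = al A B' v := by
    funext i
    unfold al
    rw [mx_comap (hPC.fA i), mx_comap (hPC.fB i)]
  have hvd : Vd B v' D := by
    refine ⟨⟨fun b hb' => hv.1.1 _ (hb.stable γ b hb'), by
      rw [mx_comap hPC.fΦ]; exact hv.1.2⟩, fun j => ?_⟩
    rw [mx_comap (hPC.fam j), ← hv.2 j]
    change v (ρ γ (hh D j)) = _
    rw [hPC.hh_inv]
  have h1 := hf Γ v' hvd m
  rw [nm_eq_mz, hal] at h1
  rw [ga_coeff]
  exact h1

end Pool.Agent.Helper49.SR
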