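import Pool.Agent.Helper49.SR.GdT
import Pool.Agent.Helper49.PQ.Grd6

/-!
# The quotient by the scalars
-/

set_option autoImplicit false
set_option linter.unusedSectionVars false

namespace Pool.Agent.Helper49.SR

open Finset Pool.Agent.W559.Mg Pool.Agent.Helper46.AQ Pool.Agent.Helper49.PQ Pointwise
  Pool.Agent.Helper49.SQ

variable {k K : Type} [Field k] [Field K] [Algebra k K] [DecidableEq K] {G : Type} [Group G]
  {ρ : G →* (K ≃ₐ[k] K)} {B : Subalgebra k K} {Φ : Finset K}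
  {ι : Type} [Fintype ι] [DecidableEq ι] {A B' : ι → Finset K}
  {L : Type} [AddCommGroup L] {dg : L ≃+ (ι → ℤ)}
  {K0 F : IntermediateField k K} {t : K} {ht : t ≠ 0}

variable (hS : GS ρ B Φ A B')

/-- The quotients of the denominators. -/
lemma ratio_mem (ht : t ≠ 0) (hΦ : HF K0.toSubfield t 1 Φ) (hS : GS ρ B Φ A B')
    (D D' : Tp Φ A B') : HH D' / HH D ∈ K0 := by
  obtain ⟨δ, -, -, hδ⟩ := exists_deg hS ht hΦ
  have h1 : ∀ D : Tp Φ A B', HH D / t ^ (∑ j, δ j) ∈ K0 := fun D => by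
    unfold HH
    exact hom_prod (K0 := K0.toSubfield) ht univ _ δ fun j _ => hδ D j
  have h2 := K0.div_mem (h1 D') (h1 D)
  rwa [div_div_div_cancel_right₀ (zpow_ne_zero _ ht)] at h2

lemma uu_mem (ht : t ≠ 0) (hΦ : HF K0.toSubfield t 1 Φ) (hS : GS ρ B Φ A B')
    (D : Tp Φ A B') (m : ι → ℤ) : uu D m ∈ K0 := by
  obtain ⟨δ, -, hδ', hδ⟩ := exists_deg hS ht hΦ
  unfold uu
  refine K0.toSubfield.prod_mem fun i _ => K0.toSubfield.zpow_mem ?_ _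
  change hh D (some (Sum.inl i)) / hh D (some (Sum.inr i)) ∈ K0
  have h2 := K0.div_mem (hδ D (some (Sum.inl i))) (hδ D (some (Sum.inr i)))
  rwa [hδ', div_div_div_cancel_right₀ (zpow_ne_zero _ ht)] at h2

lemma ratio_CC (D D' : Tp Φ A B') :
    mo 0 (HH D' / HH D) ∈ CC dg hS.pc D ⊓ Fx ρ L := by
  refine ⟨(mo_mem_CC hS.pc).2 ?_, mo_mem_Fx.2 ?_⟩
  · intro Γ _ v hv
    rw [map_zero, nm_zero]
    exact hv.RD_le _ (div_mem_RD D D')
  · intro γ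
    rw [map_div₀, hS.pc.HH_inv, hS.pc.HH_inv]

lemma none_CC (D : Tp Φ A B') (l : ℤ) :
    mo 0 (hh D none ^ l) ∈ CC dg hS.pc D ⊓ Fx ρ L := by
  refine ⟨(mo_mem_CC hS.pc).2 ?_, mo_mem_Fx.2 ?_⟩
  · intro Γ _ v hv
    rw [map_zero, nm_zero, map_zpow₀, hv.hn, one_zpow]
  · intro γ
    rw [map_zpow₀, hS.pc.hh_inv]

lemma uu_CC (D : Tp Φ A B') (m : L) :
    mo (EE Φ A B' • m) (uu D (dg m)) ∈ CC dg hS.pc D ⊓ Fx ρ L ∧
      mo (-(EE Φ A B' • m)) (uu D (dg m))⁻¹ ∈ CC dg hS.pc D ⊓ Fx ρ L := by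
  refine ⟨⟨(mo_mem_CC hS.pc).2 ?_, ?_⟩, ⟨(mo_mem_CC hS.pc).2 ?_, ?_⟩⟩
  · intro Γ _ v hv
    rw [hv.uu_eq, map_nsmul, nm_nsmul]
  · exact mo_mem_Fx.2 fun γ => hS.pc.uu_inv D _ γ
  · intro Γ _ v hv
    rw [map_inv₀, hv.uu_eq, map_neg, map_nsmul, nm_neg, nm_nsmul]
  · exact mo_mem_Fx.2 fun γ => by rw [map_inv₀, hS.pc.uu_inv D _ γ]

lemma gens_sub (ht : t ≠ 0) (hΦ : HF K0.toSubfield t 1 Φ) (D D' : Tp Φ A B') :
    gens dg K0 t hS.pc D' ⊆ gens dg K0 t hS.pc D := by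
  rintro d ⟨m, a, ha0, had, ha⟩
  obtain ⟨n, hn⟩ := gl_full hS.pc D D' _ ha.1
  have h1 : mo (0 : L) (HH D' / HH D) ^ n * mo m a = mo m ((HH D' / HH D) ^ n * a) := by
    rw [mo_pow, mo_mul, smul_zero, zero_add]
  refine ⟨m, (HH D' / HH D) ^ n * a, mul_ne_zero (pow_ne_zero _ (div_ne_zero (HH_ne _)
    (HH_ne _))) ha0, ?_, ?_⟩
  · rw [mul_div_assoc]
    exact K0.mul_mem (K0.toSubfield.pow_mem (ratio_mem ht hΦ hS D D') n) had
  · rw [← h1]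
    exact ⟨hn, (Fx ρ L).mul_mem ((Fx ρ L).pow_mem (ratio_CC (dg := dg) hS D D').2 _) ha.2⟩

lemma gens_EE (ht : t ≠ 0) (hΦ : HF K0.toSubfield t 1 Φ) (D : Tp Φ A B') :
    (EE Φ A B' : ℤ) ∈ gens dg K0 t hS.pc D := by
  obtain ⟨δ, hδ1, -, hδ⟩ := exists_deg hS ht hΦ
  have h1 := hδ D none
  rw [hδ1] at h1
  have h2 := none_CC (dg := dg) hS D 1
  rw [zpow_one] at h2
  exact ⟨0, hh D none, hh_ne D none, h1, h2⟩

/-- The generator of the degrees. -/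
theorem exists_tau (h : Scl ρ Φ K0 F t) (ht : t ≠ 0) :
    ∃ (d1 : ℤ) (τ : K), d1 ≠ 0 ∧ τ ≠ 0 ∧ τ / t ^ d1 ∈ K0 ∧ (∀ γ, ρ γ τ = τ) ∧
      ∀ D, AddSubgroup.closure (gens dg K0 t hS.pc D) = AddSubgroup.zmultiples d1 := by
  obtain ⟨D0, -⟩ := hS.pc.exists_chart (1 : Valuation K (WithZero (Multiplicative ℤ)))
  obtain ⟨d1, hd1⟩ := Int.subgroup_cyclic (AddSubgroup.closure (gens dg K0 t hS.pc D0))
  have hz : AddSubgroup.closure (gens dg K0 t hS.pc D0) = AddSubgroup.zmultiples d1 := by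
    rw [hd1, AddSubgroup.zmultiples_eq_closure]
  let W : AddSubgroup ℤ :=
    { carrier := {d | ∃ a : K, a ≠ 0 ∧ a / t ^ d ∈ K0 ∧ ∀ γ, ρ γ a = a}
      add_mem' := by
        rintro d d' ⟨a, ha0, ha, haγ⟩ ⟨b, hb0, hb, hbγ⟩
        exact ⟨a * b, mul_ne_zero ha0 hb0, hom_mul (K0 := K0.toSubfield) ht ha hb, fun γ => by
          rw [map_mul, haγ, hbγ]⟩
      zero_mem' := ⟨1, one_ne_zero, by rw [zpow_zero, div_one]; exact K0.one_mem,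
        fun γ => map_one _⟩
      neg_mem' := by
        rintro d ⟨a, ha0, ha, haγ⟩
        exact ⟨a⁻¹, inv_ne_zero ha0, hom_inv (K0 := K0.toSubfield) ht ha, fun γ => by
          rw [map_inv₀, haγ]⟩ }
  have hW : d1 ∈ W := by
    have h1 : AddSubgroup.closure (gens dg K0 t hS.pc D0) ≤ W := by
      refine (AddSubgroup.closure_le _).2 ?_
      rintro d ⟨m, a, ha0, had, ha⟩
      exact ⟨a, ha0, had, mo_mem_Fx.1 ha.2⟩
    rw [hz] at h1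
    exact h1 (AddSubgroup.mem_zmultiples d1)
  obtain ⟨τ, hτ0, hτ, hτγ⟩ := hW
  refine ⟨d1, τ, ?_, hτ0, hτ, hτγ, fun D => ?_⟩
  · rintro rfl
    have h1 : (EE Φ A B' : ℤ) ∈ AddSubgroup.closure (gens dg K0 t hS.pc D0) :=
      AddSubgroup.subset_closure (gens_EE (dg := dg) hS ht h.hΦ D0)
    rw [hz, AddSubgroup.zmultiples_zero_eq_bot, AddSubgroup.mem_bot] at h1
    have h2 := EE_pos (Φ := Φ) (A := A) (B' := B')
    omega
  · rw [← hz]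
    exact congrArg _ (Set.Subset.antisymm (gens_sub hS ht h.hΦ D0 D) (gens_sub hS ht h.hΦ D D0))

end Pool.Agent.Helper49.SR
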