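import Pool.Agent.Helper49.SR.Hd1

/-!
# The atlas of the quotient
-/

set_option autoImplicit false
set_option linter.unusedSectionVars false

namespace Pool.Agent.Helper49.SR

open Finset Pool.Agent.W559.Mg Pool.Agent.Helper46.AQ Pool.Agent.Helper49.PQ Pointwise
  Pool.Agent.Helper49.SQ

variable {k K : Type} [Field k] [Field K] [Algebra k K] [DecidableEq K] {G : Type} [Group G]
  {ρ : G →* (K ≃ₐ[k] K)} {B : Subalgebra k K} {Φ : Finset K}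
  {ι : Type} [Fintype ι] [DecidableEq ι] {A B' : ι → Finset K}
  {L : Type} [AddCommGroup L] {dg : L ≃+ (ι → ℤ)}
  {K0 F : IntermediateField k K} {t : K} {ht : t ≠ 0}

variable (hb : GB ρ B Φ) (hS : GS ρ B Φ A B') (h : Scl ρ Φ K0 F t)
  {d1 : ℤ} {τ : K} (hτ : Tau ρ dg K0 t hS.pc d1 τ)

include hb h hτ in
/-- The invariants of the charts are graded. -/
theorem tg_inv [IsDomain (ML K L)] (ht : t ≠ 0) (D : Tp Φ A B') :
    TG F τ hτ.τ0 (CC dg hS.pc D ⊓ Fx ρ L) := by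
  intro f hf
  obtain ⟨g, hg, rfl⟩ := tg_CC (dg := dg) hb hS ht h.tr h.hΦ D hf.1
  have hfx : jm K0 t ht L g ∈ Fx ρ L := hf.2
  have h1 : (jm K0 t ht L : ML K0 (ℤ × L) →ₐ[k] ML K L) g =
      ∑ e ∈ g.coeff.support, jm K0 t ht L (mo e (g.coeff e)) := by
    conv_lhs => rw [eq_sum_mo g, map_sum]
  change jm K0 t ht L g ∈ _
  rw [h1]
  refine Subalgebra.sum_mem _ fun e he => ?_
  have hc := hg e
  have hx := h.comp hb.fam (ind_of_tr ht h.tr) hfx e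
  obtain ⟨d, m⟩ := e
  have ha0 : (g.coeff (d, m) : K) ≠ 0 := fun h0 =>
    (Finsupp.mem_support_iff.1 he) (Subtype.ext h0)
  rw [jm_mo] at hc hx ⊢
  set a : K := (g.coeff (d, m) : K) * t ^ d with ha
  have ha0' : a ≠ 0 := mul_ne_zero ha0 (zpow_ne_zero _ ht)
  have had : a / t ^ d ∈ K0 := by
    rw [ha, mul_div_cancel_right₀ _ (zpow_ne_zero _ ht)]
    exact (g.coeff (d, m)).2
  have hd : d ∈ AddSubgroup.zmultiples d1 := by
    rw [← hτ.gen D]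
    exact AddSubgroup.subset_closure ⟨m, a, ha0', had, hc, hx⟩
  obtain ⟨l, hl⟩ := AddSubgroup.mem_zmultiples_iff.1 hd
  have hl' : d = l * d1 := by rw [← hl, smul_eq_mul]
  have hbF : a / τ ^ l ∈ F := by
    rw [h.F]
    constructor
    · have h2 := hom_zpow (K0 := K0.toSubfield) ht hτ.hτ l
      rw [← hl'] at h2
      have h3 := K0.div_mem had h2
      rwa [div_div_div_cancel_right₀ (zpow_ne_zero _ ht)] at h3
    · intro γ
      rw [map_div₀, map_zpow₀, hτ.inv, mo_mem_Fx.1 hx]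
  have h2 : mo (((d, m) : ℤ × L).2) a = jm F τ hτ.τ0 L (mo (l, m) ⟨a / τ ^ l, hbF⟩) := by
    rw [jm_mo]
    change mo m a = mo m (a / τ ^ l * τ ^ l)
    rw [div_mul_cancel₀ _ (zpow_ne_zero _ hτ.τ0)]
  refine ⟨mo (l, m) ⟨a / τ ^ l, hbF⟩, mo_mem_gI.2 ?_, h2.symm⟩
  rw [← h2]
  exact ⟨hc, hx⟩

include h hτ in
lemma ind_tau (ht : t ≠ 0) : Ind F τ :=
  (ind_of_tr ht h.tr).of_pow ht (fun a ha => ((h.F a).1 ha).1) hτ.d0 hτ.hτ hτ.τ0

/-- The charts of the quotient. -/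
noncomputable def CF (F : IntermediateField k K) (hS : GS ρ B Φ A B')
    (hτ : Tau ρ dg K0 t hS.pc d1 τ) (D : Tp Φ A B') : Subalgebra k (ML F (ℤ × L)) :=
  (CC dg hS.pc D ⊓ Fx ρ L).comap (jm F τ hτ.τ0 L)

lemma mem_CF {D : Tp Φ A B'} {f : ML F (ℤ × L)} :
    f ∈ CF F hS hτ D ↔ jm F τ hτ.τ0 L f ∈ CC dg hS.pc D ⊓ Fx ρ L := Iff.rfl

lemma mo_mem_CF {D : Tp Φ A B'} {l : ℤ} {m : L} {a : F} :
    mo (l, m) a ∈ CF F hS hτ D ↔ mo m ((a : K) * τ ^ l) ∈ CC dg hS.pc D ⊓ Fx ρ L := by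
  rw [mem_CF, jm_mo]

include hb h in
lemma gr_CF [IsDomain (ML K L)] (ht : t ≠ 0) (D : Tp Φ A B') : Gr (CF F hS hτ D) := by
  intro f hf e
  obtain ⟨g, hg, hgf⟩ := tg_inv hb hS h hτ ht D hf
  have h1 : g = f := jm_inj (hs := hτ.τ0) (ind_tau hS h hτ ht) hgf
  rw [← h1]
  exact hg e

include hb h in
/-- The charts of the quotient are smooth. -/
theorem smooth_CF [IsDomain (ML K L)] (ht : t ≠ 0) (D : Tp Φ A B')
    (hsm : Algebra.Smooth k ↥(CC dg hS.pc D ⊓ Fx ρ L)) : Algebra.Smooth k (CF F hS hτ D) := by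
  let φ : CF F hS hτ D →ₐ[k] ↥(CC dg hS.pc D ⊓ Fx ρ L) :=
    ((jm F τ hτ.τ0 L).comp (CF F hS hτ D).val).codRestrict _ fun x => x.2
  have hinj : Function.Injective φ := by
    intro x y hxy
    apply Subtype.ext
    exact jm_inj (hs := hτ.τ0) (ind_tau hS h hτ ht)
      (congrArg (fun z : ↥(CC dg hS.pc D ⊓ Fx ρ L) => (z : ML K L)) hxy)
  have hsur : Function.Surjective φ := by
    rintro ⟨f, hf⟩
    obtain ⟨g, -, hgf⟩ := tg_inv hb hS h hτ ht D hf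
    refine ⟨⟨g, ?_⟩, Subtype.ext hgf⟩
    rw [mem_CF]
    have h1 : jm F τ hτ.τ0 L g = f := hgf
    rw [h1]
    exact hf
  exact Algebra.Smooth.of_equiv (AlgEquiv.ofBijective φ ⟨hinj, hsur⟩).symm

include h hS in
lemma ratio_F (ht : t ≠ 0) (D D' : Tp Φ A B') : HH D' / HH D ∈ F :=
  (h.F _).2 ⟨ratio_mem ht h.hΦ hS D D', fun γ => by rw [map_div₀, hS.pc.HH_inv, hS.pc.HH_inv]⟩

include h hS in
lemma uu_F (ht : t ≠ 0) (D : Tp Φ A B') (m : ι → ℤ) : uu D m ∈ F :=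
  (h.F _).2 ⟨uu_mem ht h.hΦ hS D m, fun γ => hS.pc.uu_inv D m γ⟩

include h hτ in
/-- The function which gives the values of `τ`. -/
lemma kappa_F (ht : t ≠ 0) (D : Tp Φ A B') : τ ^ EE Φ A B' / hh D none ^ d1 ∈ F := by
  refine (h.F _).2 ⟨?_, fun γ => ?_⟩
  · obtain ⟨δ, hδ1, -, hδ⟩ := exists_deg hS ht h.hΦ
    have h1 := hδ D none
    rw [hδ1] at h1
    have h2 := hom_zpow (K0 := K0.toSubfield) ht h1 d1
    have h3 := hom_pow (K0 := K0.toSubfield) ht hτ.hτ (EE Φ A B')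
    have h4 := K0.div_mem h3 h2
    rwa [mul_comm d1, div_div_div_cancel_right₀ (zpow_ne_zero _ ht)] at h4
  · rw [map_div₀, map_pow, map_zpow₀, hτ.inv, hS.pc.hh_inv]

end Pool.Agent.Helper49.SR
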