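import Pool.Graph.R_seed8.W559.Wr.StmR

/-!
Homogeneous coordinates of a smooth projective scheme over an affine scheme, adapted to a finite
set of generators (project SR, package COORD).
-/

set_option autoImplicit false

namespace Pool.Agent.Helper93.SR

open Pool.Agent.W559.Wr

/-- Finite sets of generators. -/
theorem exists_fin_mem {k E : Type} [Field k] [Field E] [Algebra k E] (A : Subalgebra k E)
    (R : Set E) (x : E) (hx : x ∈ A ⊔ Algebra.adjoin k R) :
    ∃ F : Finset E, (∀ y ∈ F, y ∈ A) ∧ x ∈ Algebra.adjoin k ((F : Set E) ∪ R) := by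
  classical
  have h1 : A ⊔ Algebra.adjoin k R = Algebra.adjoin k ((A : Set E) ∪ R) := by
    rw [Algebra.adjoin_union, Algebra.adjoin_eq]
  rw [h1] at hx
  induction hx using Algebra.adjoin_induction with
  | mem x hx =>
    rcases hx with hx | hx
    · refine ⟨{x}, by simpa using hx, Algebra.subset_adjoin (Or.inl (by simp))⟩
    · exact ⟨∅, by simp, Algebra.subset_adjoin (Or.inr hx)⟩
  | algebraMap r => exact ⟨∅, by simp, Subalgebra.algebraMap_mem _ r⟩
  | add x y _ _ hx hy =>
    obtain ⟨F, hF, hxF⟩ := hx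
    obtain ⟨F', hF', hyF⟩ := hy
    refine ⟨F ∪ F', ?_, ?_⟩
    · intro z hz
      rcases Finset.mem_union.1 hz with h | h
      · exact hF z h
      · exact hF' z h
    · refine Subalgebra.add_mem _ (Algebra.adjoin_mono ?_ hxF) (Algebra.adjoin_mono ?_ hyF)
      · exact Set.union_subset_union_left _ (by simp)
      · exact Set.union_subset_union_left _ (by simp)
  | mul x y _ _ hx hy =>
    obtain ⟨F, hF, hxF⟩ := hx
    obtain ⟨F', hF', hyF⟩ := hy
    refine ⟨F ∪ F', ?_, ?_⟩
    · intro z hz
      rcases Finset.mem_union.1 hz with h | h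
      · exact hF z h
      · exact hF' z h
    · refine Subalgebra.mul_mem _ (Algebra.adjoin_mono ?_ hxF) (Algebra.adjoin_mono ?_ hyF)
      · exact Set.union_subset_union_left _ (by simp)
      · exact Set.union_subset_union_left _ (by simp)

/-- A finitely generated chart is generated by finitely many elements of `A` and by `R`. -/
theorem exists_fin_gen {k E : Type} [Field k] [Field E] [Algebra k E] (A : Subalgebra k E)
    (R : Set E) (h : (A ⊔ Algebra.adjoin k R).FG) :
    ∃ F : Finset E, (∀ y ∈ F, y ∈ A) ∧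
      A ⊔ Algebra.adjoin k R ≤ Algebra.adjoin k ((F : Set E) ∪ R) := by
  classical
  obtain ⟨S, hS⟩ := h
  have h1 : ∀ s : S, ∃ F : Finset E, (∀ y ∈ F, y ∈ A) ∧
      (s : E) ∈ Algebra.adjoin k ((F : Set E) ∪ R) := by
    intro s
    refine exists_fin_mem A R s ?_
    rw [← hS]
    exact Algebra.subset_adjoin s.2
  choose F hF hsF using h1
  refine ⟨Finset.univ.biUnion F, ?_, ?_⟩
  · intro y hy
    obtain ⟨s, -, hs⟩ := Finset.mem_biUnion.1 hy
    exact hF s y hs
  · rw [← hS]
    refine Algebra.adjoin_le fun s hs => ?_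
    refine Algebra.adjoin_mono ?_ (hsF ⟨s, hs⟩)
    refine Set.union_subset_union_left _ ?_
    intro y hy
    exact Finset.mem_coe.2 (Finset.mem_biUnion.2 ⟨⟨s, hs⟩, Finset.mem_univ _, hy⟩)

theorem exists_hc {k E : Type} [Field k] [Field E] [Algebra k E] (A : Subalgebra k E)
    (hA : Pool.Agent.W559.Wr.SPMR k E A) :
    ∃ (N : ℕ) (z : Fin (N + 1) → E) (J : Finset (Fin (N + 1))) (YA : Finset E),
      (∀ i, z i ≠ 0) ∧ J.Nonempty ∧ (∀ y ∈ YA, y ∈ A) ∧
      (∀ j ∈ J, Algebra.Smooth k (Algebra.adjoin k (Set.range fun i => z i / z j))) ∧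
      (∀ j ∈ J, A ≤ Algebra.adjoin k (Set.range fun i => z i / z j)) ∧
      (∀ y ∈ YA, ∀ j ∈ J, ∃ i, z i = y * z j) ∧
      (∀ i, ∃ j ∈ J, ∃ y ∈ Algebra.adjoin k (YA : Set E), z i = y * z j) ∧
      IntermediateField.adjoin k {x | ∃ i j, x = z i / z j} = ⊤ := by
  classical
  obtain ⟨l, w, hw, hsm, htop⟩ := hA
  -- the generators
  have hfg : ∀ a : Fin (l + 1),
      (A ⊔ Algebra.adjoin k (Set.range fun j => w j / w a) : Subalgebra k E).FG := by
    intro a
    have := hsm a
    exact (Subalgebra.fg_iff_finiteType _).2 inferInstance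
  choose F hFA hF using fun a => exists_fin_gen A (Set.range fun j => w j / w a) (hfg a)
  set YA : Finset E := (Finset.univ.biUnion F).filter (· ≠ 0) with hYA
  have hYA0 : ∀ y ∈ YA, y ≠ 0 := fun y hy => (Finset.mem_filter.1 hy).2
  have hYAA : ∀ y ∈ YA, y ∈ A := by
    intro y hy
    obtain ⟨a, -, ha⟩ := Finset.mem_biUnion.1 (Finset.mem_filter.1 hy).1
    exact hFA a y ha
  have hchart : ∀ a : Fin (l + 1),
      (A ⊔ Algebra.adjoin k (Set.range fun j => w j / w a) : Subalgebra k E) =
        Algebra.adjoin k ((YA : Set E) ∪ Set.range fun j => w j / w a) := by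
    intro a
    refine le_antisymm ?_ ?_
    · refine (hF a).trans (Algebra.adjoin_le ?_)
      rintro y (hy | hy)
      · by_cases h0 : y = 0
        · rw [h0]; exact Subalgebra.zero_mem _
        · exact Algebra.subset_adjoin (Or.inl (Finset.mem_coe.2 (Finset.mem_filter.2
            ⟨Finset.mem_biUnion.2 ⟨a, Finset.mem_univ _, hy⟩, h0⟩)))
      · exact Algebra.subset_adjoin (Or.inr hy)
    · refine Algebra.adjoin_le ?_
      rintro y (hy | hy)
      · exact (le_sup_left : A ≤ _) (hYAA y hy)
      · exact (le_sup_right : Algebra.adjoin k _ ≤ _) (Algebra.subset_adjoin hy)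
  -- the coordinates
  let I := Option YA × Fin (l + 1)
  let v : Option YA → E := fun o => o.elim 1 (fun y => (y : E))
  have hv0 : ∀ o, v o ≠ 0 := by
    rintro (_ | y)
    · exact one_ne_zero
    · exact hYA0 y y.2
  have hvmem : ∀ o, v o ∈ Algebra.adjoin k (YA : Set E) := by
    rintro (_ | y)
    · exact Subalgebra.one_mem _
    · exact Algebra.subset_adjoin y.2
  have hcard : Fintype.card I = (Fintype.card I - 1) + 1 := by
    have : 0 < Fintype.card I := Fintype.card_pos_iff.2 ⟨(none, 0)⟩
    omega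
  let e : Fin ((Fintype.card I - 1) + 1) ≃ I :=
    (finCongr hcard.symm).trans (Fintype.equivFin I).symm
  let z : Fin ((Fintype.card I - 1) + 1) → E := fun i => v (e i).1 * w (e i).2
  have hz : ∀ (o : Option YA) (a : Fin (l + 1)), z (e.symm (o, a)) = v o * w a := by
    intro o a
    simp only [z, Equiv.apply_symm_apply]
  have hzJ : ∀ j, (e j).1 = none → z j = w (e j).2 := by
    intro j hj
    simp only [z]
    rw [hj]
    simp [v]
  have hadj : ∀ j, (e j).1 = none → Algebra.adjoin k (Set.range fun i => z i / z j) =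
      (A ⊔ Algebra.adjoin k (Set.range fun i => w i / w (e j).2) : Subalgebra k E) := by
    intro j hj
    rw [hchart]
    refine le_antisymm ?_ ?_
    · refine Algebra.adjoin_le ?_
      rintro _ ⟨i, rfl⟩
      have h1 : z i / z j = v (e i).1 * (w (e i).2 / w (e j).2) := by
        rw [hzJ j hj]; simp only [z]; rw [mul_div_assoc]
      change z i / z j ∈ _
      rw [h1]
      refine Subalgebra.mul_mem _ (Algebra.adjoin_mono Set.subset_union_left (hvmem _))
        (Algebra.subset_adjoin (Or.inr ⟨_, rfl⟩))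
    · refine Algebra.adjoin_le ?_
      rintro y (hy | ⟨i, rfl⟩)
      · refine Algebra.subset_adjoin ⟨e.symm (some ⟨y, hy⟩, (e j).2), ?_⟩
        change z _ / z j = y
        rw [hz, hzJ j hj]
        change y * w (e j).2 / w (e j).2 = y
        rw [mul_div_assoc, div_self (hw _), mul_one]
      · refine Algebra.subset_adjoin ⟨e.symm (none, i), ?_⟩
        change z _ / z j = w i / w (e j).2
        rw [hz, hzJ j hj]
        change 1 * w i / w (e j).2 = _
        rw [one_mul]
  refine ⟨Fintype.card I - 1, z, Finset.univ.filter (fun j => (e j).1 = none), YA,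
    fun i => mul_ne_zero (hv0 _) (hw _), ?_, hYAA, ?_, ?_, ?_, ?_, ?_⟩
  · exact ⟨e.symm (none, 0), by simp⟩
  · intro j hj
    rw [hadj j (Finset.mem_filter.1 hj).2]
    exact hsm _
  · intro j hj
    rw [hadj j (Finset.mem_filter.1 hj).2]
    exact le_sup_left
  · intro y hy j hj
    refine ⟨e.symm (some ⟨y, hy⟩, (e j).2), ?_⟩
    rw [hz, hzJ j (Finset.mem_filter.1 hj).2]
    rfl
  · intro i
    refine ⟨e.symm (none, (e i).2), by simp, v (e i).1, hvmem _, ?_⟩
    rw [hz]
    change _ = v (e i).1 * (1 * w (e i).2)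
    rw [one_mul]
  · rw [eq_top_iff, ← htop]
    set T : IntermediateField k E := IntermediateField.adjoin k {x | ∃ i j, x = z i / z j} with hT
    have hle : (A ⊔ Algebra.adjoin k (Set.range fun i => w i / w 0) : Subalgebra k E) ≤
        T.toSubalgebra := by
      have h0 : (e (e.symm (none, 0))).1 = none := by simp
      have h1 := hadj (e.symm (none, 0)) h0
      have h2 : (e (e.symm (none, 0))).2 = 0 := by simp
      rw [h2] at h1
      rw [← h1]
      refine Algebra.adjoin_le ?_
      rintro _ ⟨i, rfl⟩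
      exact IntermediateField.subset_adjoin k _ ⟨i, _, rfl⟩
    refine IntermediateField.adjoin_le_iff.2 ?_
    rintro y (hy | hy)
    · exact hle ((le_sup_left : A ≤ _) hy)
    · exact hle ((le_sup_right : Algebra.adjoin k _ ≤ _) (Algebra.subset_adjoin hy))

end Pool.Agent.Helper93.SR
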