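import Pool.Agent.Helper49.SR.Tow
import Pool.Agent.Helper49.SR.RC
import Pool.Agent.Helper49.SR.RI
import Pool.Agent.Helper49.SR.PCo

/-!
# Quotients of powers by permutation groups of order not divisible by `p ^ 2` and towers
-/

set_option autoImplicit false
set_option linter.unusedSectionVars false

namespace Pool.Agent.Helper49.SR

open Pool.Agent.W559.Wr

/-- The quotients by permutation groups of order not divisible by `p ^ 2`. -/
theorem qqR_small (p : ℕ) [Fact p.Prime] (k : Type) [Field k] [PerfectField k] [CharP k p] (n : ℕ)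
    (P : Subgroup (Equiv.Perm (Fin n))) (hP : ¬ p ^ 2 ∣ Nat.card P) : QQR k (Fin n) P :=
  qqR_of (fun k E K _ _ _ _ _ n N z hz J hsm YA hYJ hJ e g hg hginj K0 he t ht Z hZ Y hY B hB q hq
      hqZ => cone_etale_rel n N z hz J hsm YA hYJ hJ e g hg hginj K0 he t ht Z hZ Y hY B hB q hq hqZ)
    (fun _ _ _ _ _ A hA => Pool.Agent.Helper93.SR.exists_hc A hA)
    (fun _ _ _ _ _ H _ R hR W hW => mem_of_inv H R hR W hW) p k n P hP

/-- The quotients by towers of permutation groups. -/
theorem qqR_tow {p : ℕ} [Fact p.Prime] {k : Type}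
    [Field k] [PerfectField k] [CharP k p] {ι : Type} {P : Subgroup (Equiv.Perm ι)}
    (h : TowP p k ι P) (i : Fintype ι) : QQR k ι P :=
  qqR_tow_of (fun k E K _ _ _ _ _ n N z hz J hsm YA hYJ hJ e g hg hginj K0 he t ht Z hZ Y hY B hB q hq
      hqZ => cone_etale_rel n N z hz J hsm YA hYJ hJ e g hg hginj K0 he t ht Z hZ Y hY B hB q hq hqZ)
    (fun _ _ _ _ _ A hA => Pool.Agent.Helper93.SR.exists_hc A hA)
    (fun _ _ _ _ _ H _ R hR W hW => mem_of_inv H R hR W hW) h i

end Pool.Agent.Helper49.SR
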