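import Pool.Agent.Helper49.SR.As8
import Pool.Agent.Helper49.SQ.PR
import Pool.Graph.R_seed8.W559.Wr.AllR

/-!
# Projective models of the quotients of the powers, relative version: assembly
-/

set_option autoImplicit false
set_option linter.unusedSectionVars false

namespace Pool.Agent.Helper49.SR

open Finset Pool.Agent.W559.Mg Pool.Agent.Helper46.AQ Pool.Agent.Helper49.PQ Pointwise
  Pool.Agent.Helper49.PN Pool.Agent.Helper49.SQ Pool.Agent.W559.Wr Pool.Agent.Helper82.SQ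
  TensorProduct

/-- The statement of the relative version of `cone_etale`. -/
def ConeRStm : Prop := ∀ (k E K : Type) [Field k] [Field E] [Algebra k E] [Field K] [Algebra k K]
    (n N : ℕ) (z : Fin (N + 1) → E) (_ : ∀ i, z i ≠ 0) (J : Finset (Fin (N + 1)))
    (_ : ∀ j ∈ J, Algebra.Smooth k (Algebra.adjoin k (Set.range fun i => z i / z j)))
    (YA : Finset E) (_ : ∀ y ∈ YA, ∀ j ∈ J, ∃ i, z i = y * z j)
    (_ : ∀ i, ∃ j ∈ J, ∃ y ∈ Algebra.adjoin k (YA : Set E), z i = y * z j)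
    (e : Fin n → E →ₐ[k] K) (g : (⨂[k] _ : Fin n, E) →ₐ[k] K)
    (_ : ∀ i x, g (PiTensorProduct.singleAlgHom (R := k) (A := fun _ : Fin n => E) i x) = e i x)
    (_ : Function.Injective g) (K0 : IntermediateField k K) (_ : ∀ i x, e i x ∈ K0) (t : K)
    (_ : Transcendental K0 t) (Z : Finset K)
    (_ : ∀ x, x ∈ Z ↔ ∃ a : Fin n → Fin (N + 1), x = t * ∏ i, e i (z (a i)))
    (Y : Finset K) (_ : ∀ x, x ∈ Y ↔ ∃ i, ∃ y ∈ YA, x = e i y)
    (B : Subalgebra k K) (_ : B = Algebra.adjoin k ((Y : Set K) ∪ (Z : Set K))) (q : Ideal B)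
    (_ : q.IsPrime)
    (_ : ∃ (x : K) (hx : x ∈ B), x ∈ Z ∧ (⟨x, hx⟩ : B) ∉ q),
    ∃ (f : K) (hf : f ∈ B), (⟨f, hf⟩ : B) ∉ q ∧
      ∃ (m : ℕ) (x : Fin m → lc B f hf),
        ((MvPolynomial.aeval x : MvPolynomial (Fin m) k →ₐ[k] lc B f hf).toRingHom).Etale ∧
        (∀ j, (x j : K) ∈ Z) ∧
        ∀ (τ : K →ₐ[k] K) (π : Equiv.Perm (Fin n)), (∀ i x, τ (e i x) = e (π i) x) → τ t = t →
          (∀ c, c ∈ B → ∀ h : τ c - c ∈ B, (⟨τ c - c, h⟩ : B) ∈ q) →
          τ f = f ∧ ∀ j, τ (x j : K) ∈ Submodule.span k (Set.range fun j => (x j : K))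

/-- Homogeneous coordinates. -/
def CoordStm : Prop := ∀ (k E : Type) [Field k] [Field E] [Algebra k E] (A : Subalgebra k E)
    (_ : SPMR k E A), ∃ (N : ℕ) (z : Fin (N + 1) → E) (J : Finset (Fin (N + 1))) (YA : Finset E),
      (∀ i, z i ≠ 0) ∧ J.Nonempty ∧ (∀ y ∈ YA, y ∈ A) ∧
      (∀ j ∈ J, Algebra.Smooth k (Algebra.adjoin k (Set.range fun i => z i / z j))) ∧
      (∀ j ∈ J, A ≤ Algebra.adjoin k (Set.range fun i => z i / z j)) ∧
      (∀ y ∈ YA, ∀ j ∈ J, ∃ i, z i = y * z j) ∧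
      (∀ i, ∃ j ∈ J, ∃ y ∈ Algebra.adjoin k (YA : Set E), z i = y * z j) ∧
      IntermediateField.adjoin k {x | ∃ i j, x = z i / z j} = ⊤

/-- Elements are integral over the invariants. -/
def IntStm : Prop := ∀ (k K : Type) [Field k] [Field K] [Algebra k K]
    (H : Subgroup (K ≃ₐ[k] K)) [Finite H] (R : Subalgebra k K)
    (_ : ∀ h ∈ H, ∀ x ∈ R, h x ∈ R) (W : ValuationSubring K)
    (_ : ∀ x ∈ R, (∀ h ∈ H, h x = x) → x ∈ W), ∀ x ∈ R, x ∈ W

section main

variable {k E M K : Type} [Field k] [Field E] [Algebra k E] [Field M] [Algebra k M] [Field K]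
  [Algebra k K] {n N : ℕ}

/-- The relative version of `hasModel_CD`. -/
theorem spmr_CD (h2 : ConeRStm) (h3 : IntStm) (p : ℕ) [Fact p.Prime] [PerfectField k] [CharP k p]
    (A : Subalgebra k E) (z : Fin (N + 1) → E) (J : Finset (Fin (N + 1))) (YA : Finset E)
    (hz : ∀ i, z i ≠ 0) (hJne : J.Nonempty) (hYA : ∀ y ∈ YA, y ∈ A)
    (hsm : ∀ j ∈ J, Algebra.Smooth k (Algebra.adjoin k (Set.range fun i => z i / z j)))
    (hAJ : ∀ j ∈ J, A ≤ Algebra.adjoin k (Set.range fun i => z i / z j))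
    (hYJ : ∀ y ∈ YA, ∀ j ∈ J, ∃ i, z i = y * z j)
    (hJ : ∀ i, ∃ j ∈ J, ∃ y ∈ Algebra.adjoin k (YA : Set E), z i = y * z j)
    (hE : IntermediateField.adjoin k {x | ∃ i j, x = z i / z j} = ⊤)
    (D : CD k E M K n) (G : Subgroup (Equiv.Perm (Fin n))) (hG : ¬ p ^ 2 ∣ Nat.card G)
    (F : IntermediateField k M) (hinv : ∀ m, m ∈ F ↔ ∀ π ∈ G, D.Ψ π m = m) :
    SPMR k F ((⨆ i, A.map (D.gM.comp (sg k E i))).comap F.val) := by
  classical
  let H : Subgroup (K ≃ₐ[k] K) := (D.Θ.comp G.subtype).range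
  have hHfin : Finite H := Set.finite_range (D.Θ.comp G.subtype)
  have hHft : Fintype H := Fintype.ofFinite H
  have hHG : ¬ p ^ 2 ∣ Nat.card H := fun h =>
    hG (h.trans (Subgroup.card_range_dvd (D.Θ.comp G.subtype)))
  let Z : Finset K := univ.image fun a : Fin n → Fin (N + 1) => D.t * ∏ i, D.e i (z (a i))
  have hZ : ∀ x, x ∈ Z ↔ ∃ a : Fin n → Fin (N + 1), x = D.t * ∏ i, D.e i (z (a i)) := by
    intro x
    rw [Finset.mem_image]
    exact ⟨fun ⟨a, _, h⟩ => ⟨a, h.symm⟩, fun ⟨a, h⟩ => ⟨a, mem_univ _, h.symm⟩⟩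
  let Z1 : Finset K := (univ.filter fun a : Fin n → Fin (N + 1) => ∀ i, a i ∈ J).image
    fun a : Fin n → Fin (N + 1) => D.t * ∏ i, D.e i (z (a i))
  have hZ1 : ∀ x, x ∈ Z1 ↔ ∃ a : Fin n → Fin (N + 1), (∀ i, a i ∈ J) ∧
      x = D.t * ∏ i, D.e i (z (a i)) := by
    intro x
    rw [Finset.mem_image]
    constructor
    · rintro ⟨a, ha, h⟩
      exact ⟨a, (Finset.mem_filter.1 ha).2, h.symm⟩
    · rintro ⟨a, ha, h⟩
      exact ⟨a, Finset.mem_filter.2 ⟨mem_univ _, ha⟩, h.symm⟩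
  let Y : Finset K := univ.biUnion fun i => YA.image (D.e i)
  have hY : ∀ x, x ∈ Y ↔ ∃ i, ∃ y ∈ YA, x = D.e i y := by
    intro x
    rw [Finset.mem_biUnion]
    constructor
    · rintro ⟨i, -, h⟩
      obtain ⟨y, hy, rfl⟩ := Finset.mem_image.1 h
      exact ⟨i, y, hy, rfl⟩
    · rintro ⟨i, y, hy, rfl⟩
      exact ⟨i, mem_univ _, Finset.mem_image_of_mem _ hy⟩
  have hez : ∀ i a, D.e i (z a) ≠ 0 := fun i a => (map_ne_zero (D.e i)).2 (hz a)
  have hP : ∀ a : Fin n → Fin (N + 1), ∏ i, D.e i (z (a i)) ≠ 0 := fun a =>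
    Finset.prod_ne_zero_iff.2 fun i _ => hez i _
  have hPm : ∀ a : Fin n → Fin (N + 1), ∏ i, D.e i (z (a i)) ∈ D.K0 := fun a =>
    prod_mem fun i _ => D.e_mem i _
  have hup : ∀ (a : Fin n → Fin (N + 1)) (i : Fin n) (l : Fin (N + 1)) (y : E),
      z l = y * z (a i) →
      D.t * ∏ j, D.e j (z (Function.update a i l j)) =
        D.e i y * (D.t * ∏ j, D.e j (z (a j))) := by
    intro a i l y h
    rw [← Finset.mul_prod_erase _ _ (Finset.mem_univ i),
      ← Finset.mul_prod_erase _ (fun i => D.e i (z (a i))) (Finset.mem_univ i),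
      Function.update_self, h, map_mul]
    have h1 : ∏ x ∈ Finset.univ.erase i, D.e x (z (Function.update a i l x)) =
        ∏ x ∈ Finset.univ.erase i, D.e x (z (a x)) :=
      Finset.prod_congr rfl fun x hx => by rw [Function.update_of_ne (Finset.ne_of_mem_erase hx)]
    rw [h1]
    ring
  let t' : K := D.t * ∏ i, D.e i (z 0)
  have ht' : t' ≠ 0 := mul_ne_zero D.t0 (hP fun _ => 0)
  have htr : Transcendental D.K0 t' := by
    intro h
    apply D.tr
    have h3 : IsAlgebraic D.K0 (∏ i, D.e i (z 0))⁻¹ :=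
      isAlgebraic_algebraMap (⟨_, inv_mem (hPm fun _ => 0)⟩ : D.K0)
    have h4 := h.mul h3
    rwa [mul_inv_cancel_right₀ (hP fun _ => 0)] at h4
  -- fractions
  let Q := IntermediateField.adjoin k (Z : Set K)
  have hQe : ∀ i x, D.e i x ∈ Q := fun i x => mem_Q z hz hE D.e D.t D.t0 Z hZ i x
  have hQt : D.t ∈ Q := t_mem_Q z hz hE D.e D.t D.t0 Z hZ
  have hQT : ∀ w, D.gT w ∈ Q := by
    intro w
    have h3 : w ∈ Algebra.adjoin k (⋃ i, Set.range
        (PiTensorProduct.singleAlgHom (R := k) (A := fun _ : Fin n => E) i)) := by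
      rw [Pool.Agent.Helper49.SQ.PTL.coprod_adjoin (Pool.Agent.Helper49.SQ.PTL.isCoprod_pi (k := k) (A := fun _ : Fin n => E))]; trivial
    induction h3 using Algebra.adjoin_induction with
    | mem x hx =>
      obtain ⟨i, a, rfl⟩ := Set.mem_iUnion.1 hx
      exact hQe i a
    | algebraMap r => rw [AlgHom.commutes]; exact Q.algebraMap_mem r
    | add x y _ _ hx hy => rw [map_add]; exact Q.add_mem hx hy
    | mul x y _ _ hx hy => rw [map_mul]; exact Q.mul_mem hx hy
  have hQM : ∀ m, D.c m ∈ Q := by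
    intro m
    obtain ⟨a, b, hb, rfl⟩ := D.fM m
    rw [map_div₀]
    exact div_mem (hQT a) (hQT b)
  have hQK : ∀ f : Polynomial M, D.cK f ∈ Q := by
    intro f
    induction f using Polynomial.induction_on' with
    | add p q hp hq => rw [map_add]; exact Q.add_mem hp hq
    | monomial n a =>
      rw [← Polynomial.C_mul_X_pow_eq_monomial, map_mul, map_pow]
      exact Q.mul_mem (hQM a) (pow_mem hQt n)
  let B : Subalgebra k K := Algebra.adjoin k ((Y : Set K) ∪ (Z : Set K))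
  have hfr : ∀ x : K, ∃ a ∈ B, ∃ b ∈ B, b ≠ 0 ∧ x = a / b := by
    intro x
    obtain ⟨a, b, hb, rfl⟩ := D.fK x
    have h3 : D.cK a / D.cK b ∈ Q := div_mem (hQK a) (hQK b)
    obtain ⟨r, hr, s, hs, h4⟩ := IntermediateField.mem_adjoin_iff_div.1 h3
    have hle : Algebra.adjoin k (Z : Set K) ≤ B := Algebra.adjoin_mono Set.subset_union_right
    by_cases h0 : s = 0
    · refine ⟨0, B.zero_mem, 1, B.one_mem, one_ne_zero, ?_⟩
      rw [h4, h0, div_zero, zero_div]
    · exact ⟨r, hle hr, s, hle hs, h0, h4⟩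
  -- relative generation
  have hYB : ∀ i, ∀ y ∈ Algebra.adjoin k (YA : Set E), D.e i y ∈ B := by
    intro i
    have h1 : Algebra.adjoin k (YA : Set E) ≤ B.comap (D.e i) := by
      refine Algebra.adjoin_le fun y hy => ?_
      exact Algebra.subset_adjoin (Or.inl ((hY _).2 ⟨i, y, hy, rfl⟩))
    exact fun y hy => h1 hy
  have hRG : RG H.subtype B Z Y Z1 :=
    { st := by
        rintro ⟨_, ⟨π, rfl⟩⟩ y hy
        obtain ⟨i, y, hyA, rfl⟩ := (hY _).1 hy
        change D.Θ (π : Equiv.Perm (Fin n)) _ ∈ Y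
        rw [D.Θe]
        exact (hY _).2 ⟨_, y, hyA, rfl⟩
      sub := by
        intro x hx
        obtain ⟨a, -, rfl⟩ := (hZ1 x).1 hx
        exact (hZ _).2 ⟨a, rfl⟩
      mul := by
        intro y hy x hx
        obtain ⟨a, ha, rfl⟩ := (hZ1 x).1 hx
        obtain ⟨i, y, hyA, rfl⟩ := (hY _).1 hy
        obtain ⟨l, hl⟩ := hYJ y hyA (a i) (ha i)
        exact (hZ _).2 ⟨Function.update a i l, (hup a i l y hl).symm⟩
      dv := by
        intro x hx
        obtain ⟨a, rfl⟩ := (hZ x).1 hx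
        choose jf hjf yf hyf hzf using hJ
        have hZ1m : D.t * ∏ i, D.e i (z (jf (a i))) ∈ Z1 :=
          (hZ1 _).2 ⟨fun i => jf (a i), fun i => hjf _, rfl⟩
        refine ⟨fun x => if x = D.t * ∏ i, D.e i (z (jf (a i))) then ∏ i, D.e i (yf (a i)) else 0,
          fun x _ => ?_, ?_⟩
        · dsimp only
          split_ifs
          · exact B.prod_mem fun i _ => hYB i _ (hyf _)
          · exact B.zero_mem
        refine Eq.trans ?_ (Finset.sum_eq_single_of_mem _ hZ1m fun x _ hx => by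
          simp only [if_neg hx, zero_mul]).symm
        simp only [if_true]
        have h1 : ∏ i, D.e i (z (a i)) =
            (∏ i, D.e i (yf (a i))) * ∏ i, D.e i (z (jf (a i))) := by
          rw [← Finset.prod_mul_distrib]
          refine Finset.prod_congr rfl fun i _ => ?_
          rw [← map_mul, ← hzf]
        rw [h1]
        ring
      gen := rfl }
  -- the basic hypotheses
  have hSB : SB H.subtype B Z :=
    { inj := fun h hh => Subtype.ext hh
      fam :=
        { ne := ⟨t', (hZ _).2 ⟨fun _ => 0, rfl⟩⟩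
          mem := fun a ha => hRG.Z_mem ha
          n0 := by
            intro a ha
            obtain ⟨b, rfl⟩ := (hZ a).1 ha
            exact mul_ne_zero D.t0 (hP b)
          st := by
            rintro ⟨_, ⟨π, rfl⟩⟩ a ha
            obtain ⟨b, rfl⟩ := (hZ a).1 ha
            change D.Θ (π : Equiv.Perm (Fin n)) _ ∈ Z
            refine (hZ _).2 ⟨fun i => b ((π : Equiv.Perm (Fin n)).symm i), ?_⟩
            rw [map_mul, D.Θt, map_prod]
            congr 1
            rw [← Equiv.prod_comp (π : Equiv.Perm (Fin n)) fun j =>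
              D.e j (z (b ((π : Equiv.Perm (Fin n)).symm j)))]
            refine Finset.prod_congr rfl fun i _ => ?_
            rw [D.Θe, Equiv.symm_apply_apply] }
      gen := ⟨Y, Z1, hRG⟩
      fr := hfr }
  have hLL : LLZ H.subtype B Z := by
    intro q hq hqZ
    obtain ⟨x, hx, hxZ, hxq⟩ := hqZ
    obtain ⟨f, hf, hfq, m, y, h3, h4, h5⟩ := h2 k E K n N z hz J hsm YA hYJ hJ D.e D.gT
      (fun i x => rfl) D.gTi D.K0 D.e_mem D.t D.tr Z hZ Y hY B rfl q hq ⟨x, hx, hxZ, hxq⟩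
    refine ⟨f, hf, hfq, m, y, h3, h4, ?_⟩
    rintro ⟨_, ⟨π, rfl⟩⟩ hh
    exact h5 ((D.Θ (π : Equiv.Perm (Fin n)) : K ≃ₐ[k] K) : K →ₐ[k] K) π
      (fun i x => D.Θe π i x) (D.Θt π) hh
  -- the invariants
  have hScl : Scl H.subtype Z D.K0 (F.map D.c) t' :=
    { tΦ := (hZ _).2 ⟨fun _ => 0, rfl⟩
      tr := htr
      hΦ := by
        intro a ha
        obtain ⟨b, rfl⟩ := (hZ a).1 ha
        rw [zpow_one]
        change D.t * _ / (D.t * _) ∈ _
        rw [mul_div_mul_left _ _ D.t0]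
        exact div_mem (hPm b) (hPm fun _ => 0)
      st := by
        rintro ⟨_, ⟨π, rfl⟩⟩ a ha
        obtain ⟨m, rfl⟩ := D.mem_K0 ha
        change D.Θ (π : Equiv.Perm (Fin n)) (D.c m) ∈ D.K0
        rw [D.Θc]
        exact D.c_mem _
      F := by
        intro a
        rw [IntermediateField.mem_map]
        constructor
        · rintro ⟨m, hm, rfl⟩
          refine ⟨D.c_mem m, ?_⟩
          rintro ⟨_, ⟨π, rfl⟩⟩
          change D.Θ (π : Equiv.Perm (Fin n)) (D.c m) = D.c m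
          rw [D.Θc, (hinv m).1 hm π π.2]
        · rintro ⟨ha, h⟩
          obtain ⟨m, rfl⟩ := D.mem_K0 ha
          refine ⟨m, (hinv m).2 ?_, rfl⟩
          intro π hπ
          apply D.ci
          have h3 := h ⟨D.Θ π, ⟨⟨π, hπ⟩, rfl⟩⟩
          change D.Θ π (D.c m) = D.c m at h3
          rwa [D.Θc] at h3 }
  -- the affine base
  let TA : Subalgebra k M := ⨆ i, A.map (D.gM.comp (sg k E i))
  have hTA : ∀ i, ∀ y ∈ A, D.gM (sg k E i y) ∈ TA := fun i y hy =>
    (le_iSup (fun i => A.map (D.gM.comp (sg k E i))) i) ⟨y, hy, rfl⟩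
  have hTAst : ∀ π : Equiv.Perm (Fin n), ∀ m ∈ TA, D.Ψ π m ∈ TA := by
    intro π
    have h1 : TA ≤ TA.comap ((D.Ψ π : M ≃ₐ[k] M) : M →ₐ[k] M) := by
      refine iSup_le fun i => ?_
      rintro _ ⟨y, hy, rfl⟩
      change D.Ψ π (D.gM (sg k E i y)) ∈ TA
      rw [D.hΨ, PEq_sg]
      exact hTA _ y hy
    exact fun m hm => h1 hm
  have hmain : SPMR k (F.map D.c) ((TA.map D.c).comap (F.map D.c).val) := by
    refine spmr_of_SB hSB hLL hHG hScl ht' hRG _ ?_ ?_
    · rintro ⟨a, haF⟩ ha Γ _ v hv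
      obtain ⟨m, hm, hma⟩ := ha
      change v a ≤ 1
      have hma' : D.c m = a := hma
      rw [← hma']
      have hv1 : ∀ b ∈ B, v b ≤ 1 := hv.1
      obtain ⟨s, hs, hvs⟩ := exists_mx (v := v) hSB.fam.ne
      obtain ⟨z1, hz1, hvz⟩ := hRG.one hv.1 ⟨s, hs, hvs.symm.trans hv.2⟩
      obtain ⟨b, hb, rfl⟩ := (hZ1 _).1 hz1
      let S : Subalgebra k M :=
        { carrier := {x | v (D.c x) ≤ 1}
          mul_mem' := fun {a b} ha hb => by
            change v (D.c (a * b)) ≤ 1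
            rw [map_mul, map_mul]
            exact mul_le_one' ha hb
          add_mem' := fun {a b} ha hb => by
            change v (D.c (a + b)) ≤ 1
            rw [map_add]
            exact (v.map_add _ _).trans (max_le ha hb)
          algebraMap_mem' := fun r => by
            change v (D.c (algebraMap k M r)) ≤ 1
            rw [AlgHom.commutes]
            exact hv1 _ (B.algebraMap_mem r) }
      have hS : TA ≤ S := by
        refine iSup_le fun i => ?_
        rintro _ ⟨y, hy, rfl⟩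
        have h1 : Algebra.adjoin k (Set.range fun l => z l / z (b i)) ≤
            S.comap (D.gM.comp (sg k E i)) := by
          refine Algebra.adjoin_le ?_
          rintro _ ⟨l, rfl⟩
          change v (D.e i (z l / z (b i))) ≤ 1
          have h4 := hup b i l (z l / z (b i)) (div_mul_cancel₀ _ (hz _)).symm
          have h5 : v (D.t * ∏ j, D.e j (z (Function.update b i l j))) ≤ 1 :=
            hv1 _ (hRG.Z_mem ((hZ _).2 ⟨_, rfl⟩))
          rw [h4, map_mul, hvz, mul_one] at h5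
          exact h5
        exact h1 (hAJ (b i) (hb i) hy)
      exact hS hm
    · intro W hW
      have h4 := h3 k K H (TA.map D.c) (by
        rintro _ ⟨π, rfl⟩ _ ⟨m, hm, rfl⟩
        change D.Θ (π : Equiv.Perm (Fin n)) (D.c m) ∈ _
        rw [D.Θc]
        exact ⟨_, hTAst _ m hm, rfl⟩) W (by
        rintro _ ⟨m, hm, rfl⟩ hfix
        have hmF : m ∈ F := by
          refine (hinv m).2 fun π hπ => ?_
          apply D.ci
          have h5 := hfix (D.Θ π) ⟨⟨π, hπ⟩, rfl⟩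
          change D.Θ π (D.c m) = D.c m at h5
          rwa [D.Θc] at h5
        exact hW ⟨D.c m, ⟨m, hmF, rfl⟩⟩ ⟨m, hm, rfl⟩)
      intro y hy
      obtain ⟨i, y, hyA, rfl⟩ := (hY _).1 hy
      exact h4 _ ⟨_, hTA i y (hYA y hyA), rfl⟩
  have h4 := Pool.Agent.W469.WR.IsoR.isoR k (F.map D.c) F (F.equivMap D.c).symm _ hmain
  have h5 : ((TA.map D.c).comap (F.map D.c).val).map
      (((F.equivMap D.c).symm : (F.map D.c) ≃ₐ[k] F) : (F.map D.c) →ₐ[k] F) = TA.comap F.val := by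
    ext x
    constructor
    · rintro ⟨y, hy, rfl⟩
      obtain ⟨m, hm, hmy⟩ := hy
      obtain ⟨w, rfl⟩ := (F.equivMap D.c).surjective y
      have h7 : (F.equivMap D.c).symm ((F.equivMap D.c) w) = w := AlgEquiv.symm_apply_apply _ _
      change (((F.equivMap D.c).symm ((F.equivMap D.c) w) : F) : M) ∈ TA
      rw [h7]
      have h6 : D.c m = D.c w := hmy
      rwa [← D.ci h6]
    · intro hx
      exact ⟨(F.equivMap D.c) x, ⟨x, hx, rfl⟩, (F.equivMap D.c).symm_apply_apply x⟩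
  rwa [h5] at h4

end main

end Pool.Agent.Helper49.SR
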