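import Pool.Agent.Helper49.SR.PA

/-!
# The quotients of the powers by permutation groups of order not divisible by `p ^ 2`
-/

set_option autoImplicit false
set_option linter.unusedSectionVars false

namespace Pool.Agent.Helper49.SR

open Finset Pool.Agent.Helper49.SQ Pool.Agent.W559.Wr Pool.Agent.Helper82.SQ TensorProduct
  Pool.Agent.W382.Wr.Cyc

/-- The permutation groups of order not divisible by `p ^ 2`. -/
theorem qqR_of (h2 : ConeRStm) (h1 : CoordStm) (h3 : IntStm) (p : ℕ) [Fact p.Prime] (k : Type)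
    [Field k] [PerfectField k] [CharP k p] (n : ℕ) (P : Subgroup (Equiv.Perm (Fin n)))
    (hP : ¬ p ^ 2 ∣ Nat.card P) : QQR k (Fin n) P := by
  intro E M _ _ _ _ e he htop A hA
  obtain ⟨N, z, J, YA, hz, hJne, hYA, hsm, hAJ, hYJ, hJ, hE⟩ := h1 k E A hA
  obtain ⟨g, hg, hginj⟩ := exists_g e he
  have hfr := exists_frac e htop g hg
  let _ : Algebra (⨂[k] _ : Fin n, E) M := (g : (⨂[k] _ : Fin n, E) →+* M).toAlgebra
  have hdom : IsDomain (⨂[k] _ : Fin n, E) :=
    Function.Injective.isDomain (g : (⨂[k] _ : Fin n, E) →+* M) hginj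
  have hst : IsScalarTower k (⨂[k] _ : Fin n, E) M :=
    IsScalarTower.of_algebraMap_eq fun r => (g.commutes r).symm
  have hfs : FaithfulSMul (⨂[k] _ : Fin n, E) M :=
    (faithfulSMul_iff_algebraMap_injective _ _).2 hginj
  have hF : IsFractionRing (⨂[k] _ : Fin n, E) M := by
    refine IsFractionRing.of_field (⨂[k] _ : Fin n, E) M fun x => ?_
    obtain ⟨a, b, -, hx⟩ := hfr x
    exact ⟨a, b, hx⟩
  let D : CD k E M (FractionRing (Polynomial M)) n := mkCD k E M n
  have hDg : ∀ b, D.gM b = g b := fun b => rfl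
  have hDe : ∀ i, D.gM.comp (sg k E i) = e i := fun i => AlgHom.ext fun x => hg i x
  have hΨe : ∀ π i x, D.Ψ π (e i x) = e (π i) x := by
    intro π i x
    have h5 : D.gM (sg k E i x) = e i x := hg i x
    rw [← h5, D.hΨ, PEq_sg]
    exact hg (π i) x
  have h4 := spmr_CD h2 h3 p A z J YA hz hJne hYA hsm hAJ hYJ hJ hE D P hP
    (IntermediateField.fixedField (permGrp e P)) (by
    intro m
    rw [IntermediateField.mem_fixedField_iff]
    constructor
    · intro h π hπ
      exact h (D.Ψ π) ⟨π, hπ, hΨe π⟩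
    · rintro h f ⟨π, hπ, hf⟩
      rw [aut_ext e htop f (D.Ψ π) (fun i x => by rw [hf, hΨe]) m]
      exact h π hπ)
  have h5 : (⨆ i, A.map (D.gM.comp (sg k E i))) = ⨆ i, A.map (e i) :=
    iSup_congr fun i => by rw [hDe]
  rwa [h5] at h4

end Pool.Agent.Helper49.SR
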