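import Pool.Agent.Helper49.SR.Fam

/-!
# The families of the iterated differences: norms
-/

set_option autoImplicit false
set_option linter.unusedSectionVars false

namespace Pool.Agent.Helper49.SR

open Finset Pool.Agent.W559.Mg Pool.Agent.Helper46.AQ Pool.Agent.Helper49.PQ Pointwise
  Pool.Agent.Helper49.SQ

section mxx

variable {K : Type} [Field K] [DecidableEq K] {Γ : Type} [LinearOrderedCommGroupWithZero Γ]
  {v : Valuation K Γ}

lemma mx_empty : mx v (∅ : Finset K) = 0 := by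
  rw [mx, Finset.sup_empty]
  exact bot_eq_zero

lemma mx_mul' (Ψ Ψ' : Finset K) : mx v (Ψ * Ψ') = mx v Ψ * mx v Ψ' := by
  rcases Ψ.eq_empty_or_nonempty with rfl | h
  · rw [Finset.empty_mul, mx_empty, zero_mul]
  · rcases Ψ'.eq_empty_or_nonempty with rfl | h'
    · rw [Finset.mul_empty, mx_empty, mul_zero]
    · exact mx_mul h h'

lemma mx_one : mx v (1 : Finset K) = 1 := by
  rw [mx, ← Finset.singleton_one, Finset.sup_singleton, map_one]

lemma mx_prod {ι : Type} [DecidableEq ι] (s : Finset ι) (f : ι → Finset K) :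
    mx v (∏ i ∈ s, f i) = ∏ i ∈ s, mx v (f i) := by
  induction s using Finset.induction_on with
  | empty => rw [Finset.prod_empty, Finset.prod_empty, mx_one]
  | insert a s ha ih => rw [Finset.prod_insert ha, Finset.prod_insert ha, mx_mul', ih]

lemma mx_pow (Ψ : Finset K) (n : ℕ) : mx v (Ψ ^ n) = mx v Ψ ^ n := by
  induction n with
  | zero => rw [pow_zero, pow_zero, mx_one]
  | succ n ih => rw [pow_succ, pow_succ, mx_mul', ih]

lemma mx_erase0 (S : Finset K) (φ : K → K) :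
    mx v ((S.image φ).erase 0) = S.sup fun i => v (φ i) := by
  apply le_antisymm
  · refine mx_le fun a ha => ?_
    obtain ⟨-, h1⟩ := Finset.mem_erase.1 ha
    obtain ⟨i, hi, rfl⟩ := Finset.mem_image.1 h1
    exact Finset.le_sup (f := fun i => v (φ i)) hi
  · refine Finset.sup_le fun i hi => ?_
    by_cases h0 : φ i = 0
    · rw [h0, map_zero]
      exact zero_le
    · exact le_mx (Finset.mem_erase.2 ⟨h0, Finset.mem_image_of_mem _ hi⟩)

lemma sup_mul' {ι : Type} (s : Finset ι) (f : ι → Γ) {a : Γ} (ha : a ≠ 0) :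
    s.sup f * a = s.sup fun i => f i * a := by
  have h := Finset.sup_div₀ (a := a⁻¹) zero_le s f
  simp only [div_inv_eq_mul] at h
  have _ := ha
  exact h

end mxx

variable {k K : Type} [Field k] [Field K] [Algebra k K] [DecidableEq K] {G : Type} [Group G]
  [Fintype G] [DecidableEq G] {ρ : G →* (K ≃ₐ[k] K)} {B : Subalgebra k K} {Z : Finset K}
  {Γ : Type} [LinearOrderedCommGroupWithZero Γ] {v : Valuation K Γ}

/-! ### The families -/

lemma rho_mem (hb : SB ρ B Z) (g : G) {x : K} (hx : x ∈ B) : ρ g x ∈ B := by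
  obtain ⟨Y, Z1, h⟩ := hb.gen
  exact h.stable hb.fam.st g x hx

lemma dlt_pow_succ (c : G) (a : ℕ) (x : K) : ((dlt ρ c) ^ (a + 1) : Module.End k K) x =
    ((dlt ρ c) ^ a : Module.End k K) (ρ c x) - ((dlt ρ c) ^ a : Module.End k K) x := by
  rw [pow_succ, Module.End.mul_apply, dlt_apply, map_sub]

lemma dlt_mem (hb : SB ρ B Z) (c : G) (a : ℕ) {x : K} (hx : x ∈ B) :
    ((dlt ρ c) ^ a : Module.End k K) x ∈ B := by
  induction a generalizing x with
  | zero => exact hx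
  | succ a ih => rw [dlt_pow_succ]; exact B.sub_mem (ih (rho_mem hb c hx)) (ih hx)

lemma dlt_conj (g c : G) (a : ℕ) (x : K) : ρ g (((dlt ρ c) ^ a : Module.End k K) x) =
    ((dlt ρ (g * c * g⁻¹)) ^ a : Module.End k K) (ρ g x) := by
  induction a generalizing x with
  | zero => rfl
  | succ a ih =>
    rw [dlt_pow_succ, dlt_pow_succ, map_sub, ih, ih]
    congr 2
    rw [← AlgEquiv.mul_apply, ← AlgEquiv.mul_apply, ← map_mul, ← map_mul]
    congr 2
    group

lemma exists_dlt_ne (hb : SB ρ B Z) {h : G} (hh : h ≠ 1) : ∃ z ∈ Z, dlt ρ h z ≠ 0 := by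
  by_contra hcon
  push Not at hcon
  apply hh
  apply hb.inj
  obtain ⟨Y, Z1, hr⟩ := hb.gen
  have h1 : ∀ y ∈ B, ρ h y = y :=
    hr.fix hb.fam.ne hb.fam.n0 fun z hz => sub_eq_zero.1 (hcon z hz)
  apply AlgEquiv.ext
  intro x
  obtain ⟨a, ha, b, hb', -, rfl⟩ := hb.fr x
  rw [map_div₀, h1 a ha, h1 b hb', AlgEquiv.one_apply]

lemma FF_one : FF ρ Z 1 = Z := by rw [FF, if_pos rfl]

lemma FF_nonempty (hb : SB ρ B Z) (h : G) : (FF ρ Z h).Nonempty := by
  by_cases hh : h = 1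
  · rw [hh, FF_one]
    exact hb.fam.ne
  · rw [FF, if_neg hh]
    obtain ⟨z, hz, h1⟩ := exists_dlt_ne hb hh
    exact ⟨_, Finset.mem_erase.2 ⟨h1, Finset.mem_image_of_mem _ hz⟩⟩

lemma FF_n0 (hb : SB ρ B Z) (h : G) {a : K} (ha : a ∈ FF ρ Z h) : a ≠ 0 := by
  by_cases hh : h = 1
  · rw [hh, FF_one] at ha
    exact hb.fam.n0 a ha
  · rw [FF, if_neg hh] at ha
    exact (Finset.mem_erase.1 ha).1

lemma FF_mem (hb : SB ρ B Z) (h : G) {a : K} (ha : a ∈ FF ρ Z h) : a ∈ B := by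
  by_cases hh : h = 1
  · rw [hh, FF_one] at ha
    exact hb.fam.mem a ha
  · rw [FF, if_neg hh] at ha
    obtain ⟨z, hz, rfl⟩ := Finset.mem_image.1 (Finset.mem_erase.1 ha).2
    exact B.sub_mem (rho_mem hb h (hb.fam.mem z hz)) (hb.fam.mem z hz)

/-- The conjugation of the families. -/
theorem FF_conj (hb : SB ρ B Z) (g h : G) : FF ρ Z (g * h * g⁻¹) = (FF ρ Z h).image (ρ g) := by
  have key : ∀ g h : G, (FF ρ Z h).image (ρ g) ⊆ FF ρ Z (g * h * g⁻¹) := by
    intro g h x hx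
    obtain ⟨y, hy, rfl⟩ := Finset.mem_image.1 hx
    by_cases hh : h = 1
    · rw [hh, FF_one] at hy
      rw [hh, mul_one, mul_inv_cancel, FF_one]
      exact hb.fam.st g y hy
    · have hh' : g * h * g⁻¹ ≠ 1 := by
        intro h1
        apply hh
        rwa [mul_inv_eq_one, mul_eq_left] at h1
      rw [FF, if_neg hh] at hy
      rw [FF, if_neg hh']
      obtain ⟨h0, h1⟩ := Finset.mem_erase.1 hy
      obtain ⟨z, hz, rfl⟩ := Finset.mem_image.1 h1
      refine Finset.mem_erase.2 ⟨(map_ne_zero (ρ g)).2 h0, Finset.mem_image.2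
        ⟨ρ g z, hb.fam.st g z hz, ?_⟩⟩
      have := dlt_conj (ρ := ρ) g h 1 z
      rw [pow_one, pow_one] at this
      exact this.symm
  apply Finset.Subset.antisymm
  · intro x hx
    have h1 := key g⁻¹ (g * h * g⁻¹) (Finset.mem_image_of_mem (ρ g⁻¹) hx)
    have h2 : g⁻¹ * (g * h * g⁻¹) * g⁻¹⁻¹ = h := by group
    rw [h2] at h1
    refine Finset.mem_image.2 ⟨_, h1, ?_⟩
    rw [← AlgEquiv.mul_apply, ← map_mul, mul_inv_cancel, map_one, AlgEquiv.one_apply]
  · exact key g h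

lemma image_prod_FF (hb : SB ρ B Z) (g h : G) :
    (∏ h' ∈ Finset.univ.erase h, FF ρ Z h').image (ρ g) =
      ∏ h' ∈ Finset.univ.erase (g * h * g⁻¹), FF ρ Z h' := by
  have h1 := map_prod (Finset.imageMonoidHom (ρ g)) (fun h' => FF ρ Z h') (Finset.univ.erase h)
  have h2 : (∏ h' ∈ Finset.univ.erase h, FF ρ Z h').image (ρ g) =
      ∏ h' ∈ Finset.univ.erase h, (FF ρ Z h').image (ρ g) := h1
  rw [h2]
  refine Finset.prod_nbij' (fun h' => g * h' * g⁻¹) (fun h' => g⁻¹ * h' * g) ?_ ?_ ?_ ?_ ?_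
  · intro h' hh'
    rw [Finset.mem_erase] at hh' ⊢
    exact ⟨fun hc => hh'.1 (by simpa using hc), Finset.mem_univ _⟩
  · intro h' hh'
    rw [Finset.mem_erase] at hh' ⊢
    refine ⟨fun hc => hh'.1 ?_, Finset.mem_univ _⟩
    rw [← hc]
    group
  · intro h' _
    group
  · intro h' _
    group
  · intro h' _
    exact (FF_conj hb g h').symm

lemma image_prod_FF' (hb : SB ρ B Z) (g : G) :
    (∏ h', FF ρ Z h').image (ρ g) = ∏ h', FF ρ Z h' := by
  have h1 := map_prod (Finset.imageMonoidHom (ρ g)) (fun h' => FF ρ Z h') Finset.univ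
  have h2 : (∏ h', FF ρ Z h').image (ρ g) = ∏ h', (FF ρ Z h').image (ρ g) := h1
  rw [h2]
  refine Finset.prod_nbij' (fun h' => g * h' * g⁻¹) (fun h' => g⁻¹ * h' * g) ?_ ?_ ?_ ?_ ?_
  · exact fun _ _ => Finset.mem_univ _
  · exact fun _ _ => Finset.mem_univ _
  · intro h' _
    group
  · intro h' _
    group
  · intro h' _
    exact (FF_conj hb g h').symm

/-- Elements of the differences. -/
lemma mem_bb {c : G} {a : ℕ} {w : K} : w ∈ bb ρ Z c a ↔ ∃ h, ∃ i ∈ FF ρ Z h,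
    ((dlt ρ c) ^ a : Module.End k K) i ≠ 0 ∧ ∃ x ∈ ∏ h' ∈ Finset.univ.erase h, FF ρ Z h',
      ∃ y ∈ (∏ h', FF ρ Z h') ^ (a - 1), w = ((dlt ρ c) ^ a : Module.End k K) i * x * y := by
  constructor
  · intro hw
    rw [bb, Finset.mem_biUnion] at hw
    obtain ⟨h, -, hw⟩ := hw
    obtain ⟨u, hu, y, hy, rfl⟩ := Finset.mem_mul.1 hw
    obtain ⟨e, he, x, hx, rfl⟩ := Finset.mem_mul.1 hu
    obtain ⟨h0, h1⟩ := Finset.mem_erase.1 he
    obtain ⟨i, hi, rfl⟩ := Finset.mem_image.1 h1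
    exact ⟨h, i, hi, h0, x, hx, y, hy, rfl⟩
  · rintro ⟨h, i, hi, h0, x, hx, y, hy, rfl⟩
    rw [bb, Finset.mem_biUnion]
    exact ⟨h, Finset.mem_univ _, Finset.mul_mem_mul (Finset.mul_mem_mul (Finset.mem_erase.2
      ⟨h0, Finset.mem_image_of_mem _ hi⟩) hx) hy⟩

lemma mem_nn_succ {c : G} {u : ℕ} {w : K} : w ∈ nn ρ Z c (u + 1) ↔
    ∃ a ≤ u, ∃ x ∈ bb ρ Z c (a + 1), ∃ y ∈ nn ρ Z c (u - a), w = x * y := by
  rw [nn, Finset.mem_biUnion]
  constructor
  · rintro ⟨a, -, hw⟩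
    obtain ⟨x, hx, y, hy, rfl⟩ := Finset.mem_mul.1 hw
    exact ⟨a, Nat.lt_succ_iff.1 a.2, x, hx, y, hy, rfl⟩
  · rintro ⟨a, ha, x, hx, y, hy, rfl⟩
    exact ⟨⟨a, Nat.lt_succ_of_le ha⟩, Finset.mem_univ _, Finset.mul_mem_mul hx hy⟩

/-- Induction on the elements of the families. -/
theorem nn_ind (c : G) (n : ℕ) (P : ℕ → K → Prop) (h0 : P 0 1)
    (h1 : ∀ a u, 1 ≤ a → a + u ≤ n → ∀ h, ∀ i ∈ FF ρ Z h,
      ((dlt ρ c) ^ a : Module.End k K) i ≠ 0 → ∀ x ∈ ∏ h' ∈ Finset.univ.erase h, FF ρ Z h',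
      ∀ y ∈ (∏ h', FF ρ Z h') ^ (a - 1), ∀ w, P u w →
        P (a + u) (((dlt ρ c) ^ a : Module.End k K) i * x * y * w)) :
    ∀ u ≤ n, ∀ w ∈ nn ρ Z c u, P u w := by
  intro u
  induction u using Nat.strong_induction_on with
  | _ u ih =>
    intro hu w hw
    rcases u with _ | u
    · rw [nn, Finset.mem_singleton] at hw
      rw [hw]
      exact h0
    · obtain ⟨a, ha, b, hb, w', hw', rfl⟩ := mem_nn_succ.1 hw
      obtain ⟨h, i, hi, hne, x, hx, y, hy, rfl⟩ := mem_bb.1 hb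
      have h2 := ih (u - a) (by omega) (by omega) w' hw'
      have h3 := h1 (a + 1) (u - a) (by omega) (by omega) h i hi hne x hx y hy w' h2
      rwa [show a + 1 + (u - a) = u + 1 by omega] at h3

/-- Membership in the families. -/
theorem mem_nn (c h : G) (i : K) (hi : i ∈ FF ρ Z h) (a : ℕ) (ha : 1 ≤ a)
    (hne : ((dlt ρ c) ^ a : Module.End k K) i ≠ 0) (x y : K)
    (hx : x ∈ ∏ h' ∈ Finset.univ.erase h, FF ρ Z h') (hy : y ∈ (∏ h', FF ρ Z h') ^ (a - 1)) :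
    ((dlt ρ c) ^ a : Module.End k K) i * x * y ∈ nn ρ Z c a := by
  obtain ⟨b, rfl⟩ : ∃ b, a = b + 1 := ⟨a - 1, by omega⟩
  rw [mem_nn_succ]
  refine ⟨b, le_rfl, _, mem_bb.2 ⟨h, i, hi, hne, x, hx, y, hy, rfl⟩, 1, ?_, (mul_one _).symm⟩
  rw [Nat.sub_self, nn]
  exact Finset.mem_singleton_self _

/-! ### Norms -/

lemma dv_ne (hb : SB ρ B Z) (h : G) : dv ρ Z v h ≠ 0 :=
  mx_ne_zero (FF_nonempty hb h) fun _ ha => FF_n0 hb h ha

lemma dv_pos (hb : SB ρ B Z) (h : G) : 0 < dv ρ Z v h := zero_lt_iff.2 (dv_ne hb h)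

lemma DV_ne (hb : SB ρ B Z) : DV ρ Z v ≠ 0 := Finset.prod_ne_zero_iff.2 fun h _ => dv_ne hb h

/-- The norm of the differences of order exactly `a`. -/
noncomputable def mu (ρ : G →* (K ≃ₐ[k] K)) (Z : Finset K) (v : Valuation K Γ) (c : G) (a : ℕ) :
    Γ := Finset.univ.sup fun h : G =>
      ((FF ρ Z h).sup fun i => v (((dlt ρ c) ^ a : Module.End k K) i)) / dv ρ Z v h

lemma le_mu (hb : SB ρ B Z) (c h : G) {i : K} (hi : i ∈ FF ρ Z h) (a : ℕ) :
    v (((dlt ρ c) ^ a : Module.End k K) i) ≤ dv ρ Z v h * mu ρ Z v c a := by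
  have h1 : ((FF ρ Z h).sup fun i => v (((dlt ρ c) ^ a : Module.End k K) i)) / dv ρ Z v h ≤
      mu ρ Z v c a := Finset.le_sup (f := fun h : G =>
      ((FF ρ Z h).sup fun i => v (((dlt ρ c) ^ a : Module.End k K) i)) / dv ρ Z v h)
      (Finset.mem_univ h)
  rw [div_le_iff₀ (dv_pos hb h)] at h1
  rw [mul_comm]
  exact (Finset.le_sup (f := fun i => v (((dlt ρ c) ^ a : Module.End k K) i)) hi).trans h1

lemma exists_mu (hb : SB ρ B Z) (c : G) (a : ℕ) : ∃ h, ∃ i ∈ FF ρ Z h,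
    v (((dlt ρ c) ^ a : Module.End k K) i) = dv ρ Z v h * mu ρ Z v c a := by
  obtain ⟨h, -, h1⟩ := Finset.exists_mem_eq_sup Finset.univ ⟨(1 : G), Finset.mem_univ _⟩
    (fun h : G => ((FF ρ Z h).sup fun i => v (((dlt ρ c) ^ a : Module.End k K) i)) / dv ρ Z v h)
  obtain ⟨i, hi, h2⟩ := Finset.exists_mem_eq_sup (FF ρ Z h) (FF_nonempty hb h)
    fun i => v (((dlt ρ c) ^ a : Module.End k K) i)
  refine ⟨h, i, hi, ?_⟩
  rw [mu, h1, h2, mul_div_cancel₀ _ (dv_ne hb h)]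

lemma mu_le (hb : SB ρ B Z) (c : G) (a : ℕ) {q : Γ} (hq : ∀ h, ∀ i ∈ FF ρ Z h,
    v (((dlt ρ c) ^ a : Module.End k K) i) ≤ dv ρ Z v h * q) : mu ρ Z v c a ≤ q := by
  obtain ⟨h, i, hi, h1⟩ := exists_mu (v := v) hb c a
  have h2 := hq h i hi
  rw [h1] at h2
  exact le_of_mul_le_mul_left h2 (dv_pos hb h)

lemma mx_bb (hb : SB ρ B Z) (c : G) (a : ℕ) (ha : 1 ≤ a) :
    mx v (bb ρ Z c a) = mu ρ Z v c a * DV ρ Z v ^ a := by
  rw [mu, sup_mul' _ _ (pow_ne_zero _ (DV_ne hb)), bb, mx, Finset.sup_biUnion]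
  refine Finset.sup_congr rfl fun h _ => ?_
  change mx v (_ * _ * _) = _
  rw [mx_mul', mx_mul', mx_erase0, mx_prod, mx_pow, mx_prod]
  change _ * (∏ i ∈ Finset.univ.erase h, dv ρ Z v i) * (DV ρ Z v) ^ (a - 1) = _
  have h1 : DV ρ Z v = dv ρ Z v h * ∏ i ∈ Finset.univ.erase h, dv ρ Z v i :=
    (Finset.mul_prod_erase Finset.univ (dv ρ Z v) (Finset.mem_univ h)).symm
  have h2 : DV ρ Z v ^ a = DV ρ Z v ^ (a - 1) * DV ρ Z v := by
    rw [← pow_succ]
    congr 1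
    omega
  rw [h2]
  nth_rw 3 [h1]
  have h3 := dv_ne (v := v) hb h
  field_simp

lemma nv_succ (hb : SB ρ B Z) (c : G) (u : ℕ) : nv ρ Z v c (u + 1) =
    Finset.univ.sup fun a : Fin (u + 1) => mu ρ Z v c (a + 1) * nv ρ Z v c (u - a) := by
  rw [nv, nn, mx, Finset.sup_biUnion, Finset.sup_div₀ zero_le]
  refine Finset.sup_congr rfl fun a _ => ?_
  change mx v (_ * _) / _ = _
  rw [mx_mul', mx_bb hb c _ (by omega), nv]
  have h1 : DV ρ Z v ^ (u + 1) = DV ρ Z v ^ ((a : ℕ) + 1) * DV ρ Z v ^ (u - a) := by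
    rw [← pow_add]
    congr 1
    have := a.2
    omega
  have h2 := pow_ne_zero ((a : ℕ) + 1) (DV_ne (v := v) hb)
  have h3 := pow_ne_zero (u - a) (DV_ne (v := v) hb)
  rw [h1]
  field_simp

theorem nv_zero (c : G) : nv ρ Z v c 0 = 1 := by
  rw [nv, nn, pow_zero, div_one, mx, Finset.sup_singleton, map_one]

lemma mu_mul_le (hb : SB ρ B Z) (c : G) {a u : ℕ} (ha : a ≤ u) :
    mu ρ Z v c (a + 1) * nv ρ Z v c (u - a) ≤ nv ρ Z v c (u + 1) := by
  have h := Finset.le_sup (f := fun a : Fin (u + 1) => mu ρ Z v c (a + 1) * nv ρ Z v c (u - a))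
    (Finset.mem_univ (⟨a, Nat.lt_succ_of_le ha⟩ : Fin (u + 1)))
  exact h.trans (nv_succ (v := v) hb c u).ge

lemma exists_mu_mul (hb : SB ρ B Z) (c : G) (u : ℕ) : ∃ a ≤ u,
    nv ρ Z v c (u + 1) = mu ρ Z v c (a + 1) * nv ρ Z v c (u - a) := by
  obtain ⟨a, -, h1⟩ := Finset.exists_mem_eq_sup Finset.univ
    ⟨(0 : Fin (u + 1)), Finset.mem_univ _⟩
    (fun a : Fin (u + 1) => mu ρ Z v c (a + 1) * nv ρ Z v c (u - a))
  exact ⟨a, Nat.lt_succ_iff.1 a.2, (nv_succ (v := v) hb c u).trans h1⟩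

lemma mu_le_nv (hb : SB ρ B Z) (c : G) {a : ℕ} (ha : 1 ≤ a) :
    mu ρ Z v c a ≤ nv ρ Z v c a := by
  obtain ⟨b, rfl⟩ : ∃ b, a = b + 1 := ⟨a - 1, by omega⟩
  have := mu_mul_le (v := v) hb c (le_refl b)
  rwa [Nat.sub_self, nv_zero, mul_one] at this

lemma nv_one (hb : SB ρ B Z) (c : G) : nv ρ Z v c 1 = mu ρ Z v c 1 := by
  obtain ⟨a, ha, h⟩ := exists_mu_mul (v := v) hb c 0
  obtain rfl : a = 0 := by omega
  rw [Nat.sub_self, nv_zero, mul_one] at h
  exact h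

theorem nv_mul (hb : SB ρ B Z) {c : G} (hc : c ≠ 1) (a b : ℕ) :
    nv ρ Z v c a * nv ρ Z v c b ≤ nv ρ Z v c (a + b) := by
  have _ := hc
  induction a using Nat.strong_induction_on with
  | _ a ih =>
    rcases a with _ | a
    · rw [nv_zero, one_mul, zero_add]
    · obtain ⟨a', ha', h⟩ := exists_mu_mul (v := v) hb c a
      rw [h, mul_assoc]
      have h1 := ih (a - a') (by omega)
      have h2 := mu_mul_le (v := v) hb c (a := a') (u := a + b) (by omega)
      have e1 : a + 1 + b = a + b + 1 := by omega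
      have e2 : a + b - a' = a - a' + b := by omega
      rw [e1]
      rw [e2] at h2
      exact (mul_le_mul_right h1 _).trans h2

lemma mu_one_ne (hb : SB ρ B Z) {c : G} (hc : c ≠ 1) : mu ρ Z v c 1 ≠ 0 := by
  obtain ⟨z, hz, h1⟩ := exists_dlt_ne hb hc
  intro h0
  have h2 := le_mu (v := v) hb c 1 (i := z) (by rw [FF_one]; exact hz) 1
  rw [h0, mul_zero, pow_one, le_zero_iff, Valuation.zero_iff] at h2
  exact h1 h2

theorem nv_ne (hb : SB ρ B Z) {c : G} (hc : c ≠ 1) (u : ℕ) : nv ρ Z v c u ≠ 0 := by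
  induction u with
  | zero => rw [nv_zero]; exact one_ne_zero
  | succ u ih =>
    intro h0
    have h1 := nv_mul (v := v) hb hc u 1
    rw [h0, le_zero_iff, mul_eq_zero, nv_one hb] at h1
    exact h1.elim ih (mu_one_ne hb hc)

theorem le_nv (hb : SB ρ B Z) {c : G} (hc : c ≠ 1) (h : G) (i : K) (hi : i ∈ FF ρ Z h) (a : ℕ) :
    v (((dlt ρ c) ^ a : Module.End k K) i) ≤ dv ρ Z v h * nv ρ Z v c a := by
  have _ := hc
  rcases a with _ | a
  · rw [nv_zero, mul_one]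
    exact le_mx hi
  · exact (le_mu hb c h hi _).trans (mul_le_mul_right (mu_le_nv hb c (by omega)) _)

/-! ### Relevant elements -/

theorem dv_rel (hb : SB ρ B Z) {c : G} (hr : SQ.Rel ρ Z v c) (h : G) :
    dv ρ Z v (c * h * c⁻¹) = dv ρ Z v h := by
  have h1 : ∀ i, ρ c i = i + dlt ρ c i := fun i => by rw [dlt_apply]; ring
  rw [dv, FF_conj hb]
  apply le_antisymm
  · refine mx_le fun a ha => ?_
    obtain ⟨i, hi, rfl⟩ := Finset.mem_image.1 ha
    rw [h1]
    exact (v.map_add _ _).trans (max_le (le_mx hi) (hr h i hi).le)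
  · obtain ⟨i, hi, h2⟩ := exists_mx (v := v) (FF_nonempty hb h)
    have h3 : v (ρ c i) = v i := by
      rw [h1]
      refine v.map_add_eq_of_lt_left ?_
      rw [← h2]
      exact hr h i hi
    rw [dv, h2, ← h3]
    exact le_mx (Finset.mem_image_of_mem _ hi)

theorem nv_rel_one (hb : SB ρ B Z) {c : G} (hc : c ≠ 1) (hr : SQ.Rel ρ Z v c) :
    nv ρ Z v c 1 < 1 := by
  have _ := hc
  rw [nv_one hb]
  obtain ⟨h, i, hi, h1⟩ := exists_mu (v := v) hb c 1
  have h2 := hr h i hi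
  rw [pow_one] at h1
  rw [h1] at h2
  by_contra hcon
  push Not at hcon
  exact absurd h2 (not_lt.2 (le_mul_of_one_le_right zero_le hcon))

lemma mu_rel (hb : SB ρ B Z) {c : G} (hr : SQ.Rel ρ Z v c) (a : ℕ) :
    mu ρ Z v c (a + 1) ≤ mu ρ Z v c a := by
  refine mu_le hb c _ fun h i hi => ?_
  rw [dlt_pow_succ]
  refine (v.map_sub _ _).trans (max_le ?_ (le_mu hb c h hi a))
  have h1 : ρ c i ∈ FF ρ Z (c * h * c⁻¹) := by
    rw [FF_conj hb]
    exact Finset.mem_image_of_mem _ hi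
  have h2 := le_mu (v := v) hb c _ h1 a
  rwa [dv_rel hb hr] at h2

theorem nv_rel (hb : SB ρ B Z) {c : G} (hc : c ≠ 1) (hr : SQ.Rel ρ Z v c) (u : ℕ) :
    nv ρ Z v c (u + 1) ≤ nv ρ Z v c u := by
  induction u using Nat.strong_induction_on with
  | _ u ih =>
    obtain ⟨a, ha, h⟩ := exists_mu_mul (v := v) hb c u
    rw [h]
    rcases Nat.eq_or_lt_of_le ha with rfl | ha
    · rw [Nat.sub_self, nv_zero, mul_one]
      rcases a with _ | a
      · rw [nv_zero, zero_add, ← nv_one hb]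
        exact (nv_rel_one hb hc hr).le
      · exact (mu_rel hb hr _).trans (mu_le_nv hb c (by omega))
    · have h1 := ih (u - a - 1) (by omega)
      rw [show u - a - 1 + 1 = u - a by omega] at h1
      have h2 := mu_mul_le (v := v) hb c (a := a) (u := u - 1) (by omega)
      rw [show u - 1 + 1 = u by omega, show u - 1 - a = u - a - 1 by omega] at h2
      exact (mul_le_mul_right h1 _).trans h2

/-! ### Irrelevant elements -/

theorem one_le_nv (hb : SB ρ B Z) {c : G} (hc : c ≠ 1) (hr : ¬ SQ.Rel ρ Z v c) :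
    1 ≤ nv ρ Z v c 1 := by
  rw [SQ.Rel] at hr
  push Not at hr
  obtain ⟨h, i, hi, h1⟩ := hr
  have h2 := le_nv (v := v) hb hc h i hi 1
  rw [pow_one] at h2
  have h3 := h1.trans h2
  by_contra hcon
  push Not at hcon
  exact absurd h3 (not_le.2 (mul_lt_of_lt_one_right (dv_pos hb h) hcon))

lemma dv_irr_one (hb : SB ρ B Z) {c : G} (hc : c ≠ 1) (hr : ¬ SQ.Rel ρ Z v c) (h : G) :
    dv ρ Z v (c * h * c⁻¹) ≤ dv ρ Z v h * nv ρ Z v c 1 := by
  rw [dv, FF_conj hb]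
  refine mx_le fun a ha => ?_
  obtain ⟨i, hi, rfl⟩ := Finset.mem_image.1 ha
  have h1 : ρ c i = i + dlt ρ c i := by rw [dlt_apply]; ring
  rw [h1]
  refine (v.map_add _ _).trans (max_le ?_ ?_)
  · exact (le_mx hi).trans (le_mul_of_one_le_right zero_le (one_le_nv hb hc hr))
  · have := le_nv (v := v) hb hc h i hi 1
    rwa [pow_one] at this

theorem dv_irr (hb : SB ρ B Z) {c : G} (hc : c ≠ 1) (hr : ¬ SQ.Rel ρ Z v c) (h : G) (t : ℕ) :
    dv ρ Z v (c ^ t * h * (c ^ t)⁻¹) ≤ dv ρ Z v h * nv ρ Z v c 1 ^ t := by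
  induction t with
  | zero => rw [pow_zero, pow_zero, one_mul, inv_one, mul_one, mul_one]
  | succ t ih =>
    have e : c ^ (t + 1) * h * (c ^ (t + 1))⁻¹ = c * (c ^ t * h * (c ^ t)⁻¹) * c⁻¹ := by
      rw [pow_succ']
      group
    have h1 := (dv_irr_one (v := v) hb hc hr (c ^ t * h * (c ^ t)⁻¹)).trans
      (mul_le_mul_left ih _)
    rw [mul_assoc (dv ρ Z v h), ← pow_succ] at h1
    rw [e]
    exact h1

lemma mu_irr (hb : SB ρ B Z) {c : G} (hc : c ≠ 1) (hr : ¬ SQ.Rel ρ Z v c) (a : ℕ) :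
    ∀ h, ∀ i ∈ FF ρ Z h, v (((dlt ρ c) ^ a : Module.End k K) i) ≤
      dv ρ Z v h * nv ρ Z v c 1 ^ a := by
  have h1 := one_le_nv (v := v) hb hc hr
  induction a with
  | zero =>
    intro h i hi
    rw [pow_zero, pow_zero, mul_one]
    exact le_mx hi
  | succ a ih =>
    intro h i hi
    rw [dlt_pow_succ]
    refine (v.map_sub _ _).trans (max_le ?_ ?_)
    · have h2 : ρ c i ∈ FF ρ Z (c * h * c⁻¹) := by
        rw [FF_conj hb]
        exact Finset.mem_image_of_mem _ hi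
      refine (ih _ _ h2).trans ?_
      rw [pow_succ', ← mul_assoc]
      exact mul_le_mul_left (dv_irr_one hb hc hr h) _
    · refine (ih h i hi).trans (mul_le_mul_right ?_ _)
      rw [pow_succ]
      exact le_mul_of_one_le_right zero_le h1

theorem nv_irr (hb : SB ρ B Z) {c : G} (hc : c ≠ 1) (hr : ¬ SQ.Rel ρ Z v c) (u : ℕ) :
    nv ρ Z v c u = nv ρ Z v c 1 ^ u := by
  apply le_antisymm
  · induction u using Nat.strong_induction_on with
    | _ u ih =>
      rcases u with _ | u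
      · rw [nv_zero, pow_zero]
      · obtain ⟨a, ha, h⟩ := exists_mu_mul (v := v) hb c u
        rw [h, show u + 1 = a + 1 + (u - a) by omega, pow_add]
        exact mul_le_mul' (mu_le hb c _ (mu_irr hb hc hr (a + 1))) (ih (u - a) (by omega))
  · induction u with
    | zero => rw [nv_zero, pow_zero]
    | succ u ih =>
      rw [pow_succ]
      exact (mul_le_mul_left ih _).trans (nv_mul hb hc u 1)

/-! ### The maximal ratio -/

/-- The maximal ratio is attained by a linear element. -/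
theorem exists_ext (hb : SB ρ B Z) (I : Set G) (hI : I.Nonempty) (hI1 : ∀ c ∈ I, c ≠ 1)
    (p : ℕ) (hp : 2 ≤ p) :
    ∃ τ ∈ I, ∃ u, u + 1 < p ∧
      (∀ c ∈ I, ∀ u', u' + 1 < p →
        nv ρ Z v c (u' + 1) * nv ρ Z v τ u ≤ nv ρ Z v τ (u + 1) * nv ρ Z v c u') ∧
      ∃ h, ∃ i ∈ FF ρ Z h,
        v (((dlt ρ τ) ^ (u + 1) : Module.End k K) i) = dv ρ Z v h * nv ρ Z v τ (u + 1) := by
  classical
  set rt : G × ℕ → Γ := fun x => nv ρ Z v x.1 (x.2 + 1) / nv ρ Z v x.1 x.2 with hrt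
  set S : Finset (G × ℕ) := (Finset.univ.filter fun c => c ∈ I) ×ˢ Finset.range (p - 1) with hS
  have hmS : ∀ x : G × ℕ, x ∈ S ↔ x.1 ∈ I ∧ x.2 + 1 < p := by
    intro x
    rw [hS, Finset.mem_product, Finset.mem_filter, Finset.mem_range]
    constructor
    · rintro ⟨⟨-, h1⟩, h2⟩
      exact ⟨h1, by omega⟩
    · rintro ⟨h1, h2⟩
      exact ⟨⟨Finset.mem_univ _, h1⟩, by omega⟩
  obtain ⟨c0, hc0⟩ := hI
  have hSne : S.Nonempty := ⟨(c0, 0), (hmS _).2 ⟨hc0, by omega⟩⟩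
  obtain ⟨x0, hx0, hx0m⟩ := Finset.exists_max_image S rt hSne
  -- the maximal pairs
  set S' : Finset (G × ℕ) := S.filter fun x => rt x = rt x0 with hS'
  obtain ⟨x1, hx1, hx1m⟩ := Finset.exists_min_image S' (fun x => x.2)
    ⟨x0, Finset.mem_filter.2 ⟨hx0, rfl⟩⟩
  rw [hS', Finset.mem_filter, hmS] at hx1
  obtain ⟨⟨h1, h2⟩, h3⟩ := hx1
  obtain ⟨τ, u⟩ := x1
  have hτ1 := hI1 τ h1
  have hmax : ∀ c ∈ I, ∀ u', u' + 1 < p → rt (c, u') ≤ rt (τ, u) := fun c hc u' hu' => by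
    rw [h3]
    exact hx0m _ ((hmS _).2 ⟨hc, hu'⟩)
  have hpos : ∀ c ∈ I, ∀ u', 0 < nv ρ Z v c u' := fun c hc u' =>
    zero_lt_iff.2 (nv_ne hb (hI1 c hc) u')
  refine ⟨τ, h1, u, h2, fun c hc u' hu' => ?_, ?_⟩
  · have h4 := hmax c hc u' hu'
    simp only [hrt] at h4
    rwa [div_le_div_iff₀ (hpos c hc u') (hpos τ h1 u)] at h4
  · obtain ⟨a, ha, h4⟩ := exists_mu_mul (v := v) hb τ u
    rcases Nat.eq_or_lt_of_le ha with rfl | ha
    · rw [Nat.sub_self, nv_zero, mul_one] at h4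
      obtain ⟨h, i, hi, h5⟩ := exists_mu (v := v) hb τ (a + 1)
      exact ⟨h, i, hi, by rw [h4]; exact h5⟩
    · exfalso
      -- the ratio at `b - 1` is at least as large
      have hb1 : u - a - 1 + 1 = u - a := by omega
      have h5 := mu_mul_le (v := v) hb τ (a := a) (u := u - 1) (by omega)
      rw [show u - 1 + 1 = u by omega, show u - 1 - a = u - a - 1 by omega] at h5
      have h6 : rt (τ, u) ≤ rt (τ, u - a - 1) := by
        simp only [hrt]
        rw [hb1, div_le_div_iff₀ (hpos τ h1 _) (hpos τ h1 _), h4]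
        calc mu ρ Z v τ (a + 1) * nv ρ Z v τ (u - a) * nv ρ Z v τ (u - a - 1)
            = nv ρ Z v τ (u - a) * (mu ρ Z v τ (a + 1) * nv ρ Z v τ (u - a - 1)) := by
              rw [mul_comm (mu ρ Z v τ (a + 1)) (nv ρ Z v τ (u - a)), mul_assoc]
          _ ≤ nv ρ Z v τ (u - a) * nv ρ Z v τ u := mul_le_mul_right h5 _
      have h7 : rt (τ, u - a - 1) = rt x0 := by
        apply le_antisymm
        · rw [← h3]
          exact hmax τ h1 _ (by omega)
        · rw [← h3]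
          exact h6
      have h8 := hx1m (τ, u - a - 1) (by
        rw [hS', Finset.mem_filter, hmS]
        exact ⟨⟨h1, by simp only; omega⟩, h7⟩)
      simp only at h8
      omega

/-! ### The families are permuted -/

lemma nn_mem_B (hb : SB ρ B Z) (c : G) (u : ℕ) : ∀ w ∈ nn ρ Z c u, w ∈ B := by
  have hpB : ∀ s : Finset G, ∀ x ∈ ∏ h' ∈ s, FF ρ Z h', x ∈ B := by
    intro s
    induction s using Finset.induction_on with
    | empty =>
      intro x hx
      rw [Finset.prod_empty, Finset.mem_one] at hx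
      rw [hx]
      exact B.one_mem
    | insert a s ha ih =>
      intro x hx
      rw [Finset.prod_insert ha] at hx
      obtain ⟨y, hy, z, hz, rfl⟩ := Finset.mem_mul.1 hx
      exact B.mul_mem (FF_mem hb _ hy) (ih z hz)
  have hpp : ∀ n : ℕ, ∀ y ∈ (∏ h', FF ρ Z h') ^ n, y ∈ B := by
    intro n
    induction n with
    | zero =>
      intro y hy
      rw [pow_zero, Finset.mem_one] at hy
      rw [hy]
      exact B.one_mem
    | succ n ih =>
      intro y hy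
      rw [pow_succ] at hy
      obtain ⟨x, hx, z, hz, rfl⟩ := Finset.mem_mul.1 hy
      exact B.mul_mem (ih x hx) (hpB _ z hz)
  refine nn_ind c u (fun _ w => w ∈ B) B.one_mem ?_ u le_rfl
  intro a u' _ _ h i hi _ x hx y hy w hw
  exact B.mul_mem (B.mul_mem (B.mul_mem (dlt_mem hb c a (FF_mem hb h hi)) (hpB _ x hx))
    (hpp _ y hy)) hw

lemma nn_n0 (hb : SB ρ B Z) (c : G) (u : ℕ) : ∀ w ∈ nn ρ Z c u, w ≠ 0 := by
  have hpB : ∀ s : Finset G, ∀ x ∈ ∏ h' ∈ s, FF ρ Z h', x ≠ 0 := by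
    intro s
    induction s using Finset.induction_on with
    | empty =>
      intro x hx
      rw [Finset.prod_empty, Finset.mem_one] at hx
      rw [hx]
      exact one_ne_zero
    | insert a s ha ih =>
      intro x hx
      rw [Finset.prod_insert ha] at hx
      obtain ⟨y, hy, z, hz, rfl⟩ := Finset.mem_mul.1 hx
      exact mul_ne_zero (FF_n0 hb _ hy) (ih z hz)
  have hpp : ∀ n : ℕ, ∀ y ∈ (∏ h', FF ρ Z h') ^ n, y ≠ 0 := by
    intro n
    induction n with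
    | zero =>
      intro y hy
      rw [pow_zero, Finset.mem_one] at hy
      rw [hy]
      exact one_ne_zero
    | succ n ih =>
      intro y hy
      rw [pow_succ] at hy
      obtain ⟨x, hx, z, hz, rfl⟩ := Finset.mem_mul.1 hy
      exact mul_ne_zero (ih x hx) (hpB _ z hz)
  refine nn_ind c u (fun _ w => w ≠ 0) one_ne_zero ?_ u le_rfl
  intro a u' _ _ h i hi hne x hx y hy w hw
  exact mul_ne_zero (mul_ne_zero (mul_ne_zero hne (hpB _ x hx)) (hpp _ y hy)) hw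

lemma prod_FF_ne (hb : SB ρ B Z) (s : Finset G) : (∏ h' ∈ s, FF ρ Z h').Nonempty := by
  induction s using Finset.induction_on with
  | empty => rw [Finset.prod_empty]; exact Finset.one_nonempty
  | insert a s ha ih => rw [Finset.prod_insert ha]; exact (FF_nonempty hb a).mul ih

lemma nn_nonempty (hb : SB ρ B Z) {c : G} (hc : c ≠ 1) (u : ℕ) : (nn ρ Z c u).Nonempty := by
  induction u with
  | zero => rw [nn]; exact Finset.singleton_nonempty _
  | succ u ih =>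
    obtain ⟨z, hz, h1⟩ := exists_dlt_ne hb hc
    obtain ⟨x, hx⟩ := prod_FF_ne hb (Finset.univ.erase (1 : G))
    obtain ⟨w, hw⟩ := ih
    refine ⟨_, mem_nn_succ.2 ⟨0, Nat.zero_le _, _, mem_bb.2 ⟨1, z, by rw [FF_one]; exact hz, ?_, x,
      hx, 1, ?_, rfl⟩, w, hw, rfl⟩⟩
    · rw [zero_add, pow_one]
      exact h1
    · rw [zero_add, Nat.sub_self, pow_zero]
      exact Finset.mem_one.2 rfl

lemma nn_conj (hb : SB ρ B Z) (g c : G) (u : ℕ) : ∀ w ∈ nn ρ Z c u,
    ρ g w ∈ nn ρ Z (g * c * g⁻¹) u := by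
  induction u using Nat.strong_induction_on with
  | _ u ih =>
    intro w hw
    rcases u with _ | u
    · rw [nn, Finset.mem_singleton] at hw ⊢
      rw [hw, map_one]
    · obtain ⟨a, ha, b, hb', w', hw', rfl⟩ := mem_nn_succ.1 hw
      obtain ⟨h, i, hi, hne, x, hx, y, hy, rfl⟩ := mem_bb.1 hb'
      rw [mem_nn_succ]
      refine ⟨a, ha, _, mem_bb.2 ⟨g * h * g⁻¹, ρ g i, ?_, ?_, ρ g x, ?_, ρ g y, ?_, rfl⟩, ρ g w',
        ih _ (by omega) w' hw', ?_⟩
      · rw [FF_conj hb]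
        exact Finset.mem_image_of_mem _ hi
      · rw [← dlt_conj]
        exact (map_ne_zero (ρ g)).2 hne
      · rw [← image_prod_FF hb]
        exact Finset.mem_image_of_mem _ hx
      · have h1 : ((∏ h', FF ρ Z h') ^ (a + 1 - 1)).image (ρ g) =
            (∏ h', FF ρ Z h') ^ (a + 1 - 1) := by
          have h2 := map_pow (Finset.imageMonoidHom (ρ g)) (∏ h', FF ρ Z h') (a + 1 - 1)
          have h3 : ((∏ h', FF ρ Z h') ^ (a + 1 - 1)).image (ρ g) =
            ((∏ h', FF ρ Z h').image (ρ g)) ^ (a + 1 - 1) := h2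
          rw [h3, image_prod_FF' hb]
        rw [← h1]
        exact Finset.mem_image_of_mem _ hy
      · rw [map_mul, map_mul, map_mul, dlt_conj]

/-- The families are permuted. -/
theorem lf_Fl (hb : SB ρ B Z) (p : ℕ) : LF ρ B Z (Fl ρ Z p) where
  fZ := hb.fam
  ne := by
    rintro (h | ⟨c, u⟩)
    · exact FF_nonempty hb h
    · exact nn_nonempty hb c.2 _
  mem := by
    rintro (h | ⟨c, u⟩)
    · exact fun a ha => FF_mem hb h ha
    · exact nn_mem_B hb c.1 _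
  n0 := by
    rintro (h | ⟨c, u⟩)
    · exact fun a ha => FF_n0 hb h ha
    · exact nn_n0 hb c.1 _
  pm := by
    intro g
    have hcc : ∀ c : G, c ≠ 1 → g * c * g⁻¹ ≠ 1 := by
      intro c hc h1
      apply hc
      rwa [mul_inv_eq_one, mul_eq_left] at h1
    have hcc' : ∀ c : G, c ≠ 1 → g⁻¹ * c * g ≠ 1 := by
      intro c hc h1
      apply hc
      have : c = g * (g⁻¹ * c * g) * g⁻¹ := by group
      rw [this, h1]
      group
    refine ⟨Equiv.sumCongr ⟨fun h => g * h * g⁻¹, fun h => g⁻¹ * h * g, fun h => by group,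
      fun h => by group⟩ (Equiv.prodCongr ⟨fun c => ⟨g * c.1 * g⁻¹, hcc c.1 c.2⟩,
        fun c => ⟨g⁻¹ * c.1 * g, hcc' c.1 c.2⟩, fun c => Subtype.ext (by simp only; group),
        fun c => Subtype.ext (by simp only; group)⟩ (Equiv.refl _)), ?_⟩
    rintro (h | ⟨c, u⟩) a ha
    · change ρ g a ∈ FF ρ Z (g * h * g⁻¹)
      rw [FF_conj hb]
      exact Finset.mem_image_of_mem _ ha
    · exact nn_conj hb g c.1 _ a ha
  one := ⟨Sum.inl 1, fun Γ _ v hv => by
    change mx v (FF ρ Z 1) = 1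
    rw [FF_one]
    exact hv.2⟩

end Pool.Agent.Helper49.SR
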