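import Pool.Agent.Helper49.SR.PQR

/-!
# Towers of permutation groups
-/

set_option autoImplicit false
set_option linter.unusedSectionVars false

namespace Pool.Agent.Helper49.SR

open Pool.Agent.W559.Wr

/-- The permutation groups obtained by direct and wreath products and relabelling from the
permutation groups of order not divisible by `p ^ 2`, the cyclic permutation groups of order
dividing `p ^ 2 * m`, where `k` contains a primitive `m`-th root of unity, and the Sylow
`p`-subgroups of the symmetric groups. -/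
inductive TowP (p : ℕ) (k : Type) [Field k] : (ι : Type) → Subgroup (Equiv.Perm ι) → Prop
  | sm (n : ℕ) (P : Subgroup (Equiv.Perm (Fin n))) (hP : ¬ p ^ 2 ∣ Nat.card P) : TowP p k (Fin n) P
  | cyc (n : ℕ) (π : Equiv.Perm (Fin n)) (m : ℕ) (hm : 0 < m) (ω : k) (hω : IsPrimitiveRoot ω m)
      (hπ : π ^ (p ^ 2 * m) = 1) : TowP p k (Fin n) (Subgroup.zpowers π)
  | syl (n : ℕ) (S : Sylow p (Equiv.Perm (Fin n))) : TowP p k (Fin n) S
  | prod (ι ι' : Type) (P : Subgroup (Equiv.Perm ι)) (P' : Subgroup (Equiv.Perm ι')) :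
      TowP p k ι P → TowP p k ι' P' → TowP p k (ι ⊕ ι') (prodGrp P P')
  | wr (ι ι' : Type) (P : Subgroup (Equiv.Perm ι)) (P' : Subgroup (Equiv.Perm ι')) :
      TowP p k ι P → TowP p k ι' P' → TowP p k (ι × ι') (wrGrp P P')
  | rel (ι ι' : Type) (f : ι ≃ ι') (P : Subgroup (Equiv.Perm ι)) : TowP p k ι P →
      TowP p k ι' (P.map (f.permCongrHom : Equiv.Perm ι ≃* Equiv.Perm ι').toMonoidHom)

lemma TowP.finite {p : ℕ} {k : Type} [Field k] {ι : Type} {P : Subgroup (Equiv.Perm ι)} (h : TowP p k ι P) :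
    Finite ι := by
  induction h with
  | sm n P hP => infer_instance
  | cyc n π m hm ω hω hπ => infer_instance
  | syl n S => infer_instance
  | prod ι ι' P P' _ _ h h' => exact inferInstance
  | wr ι ι' P P' _ _ h h' => exact inferInstance
  | rel ι ι' f P _ h => exact Finite.of_equiv ι f

theorem qqR_tow_of (h2 : ConeRStm) (h1 : CoordStm) (h3 : IntStm) {p : ℕ} [Fact p.Prime] {k : Type}
    [Field k] [PerfectField k] [CharP k p] {ι : Type} {P : Subgroup (Equiv.Perm ι)}
    (h : TowP p k ι P) : ∀ i : Fintype ι, QQR k ι P := by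
  classical
  have hp : p.Prime := Fact.out
  have hpk : (p : k) = 0 := CharP.cast_eq_zero k p
  induction h with
  | sm n P hP => exact fun i => QQR.congr _ _ (qqR_of h2 h1 h3 p k n P hP)
  | cyc n π m hm ω hω hπ =>
    rw [pow_two] at hπ
    exact fun i => QQR.congr _ _
      (cycR' k p m hp hpk (Pool.Agent.W559.Et.cast_ne hm hω) ⟨ω, hω⟩ n π hπ)
  | syl n S => exact fun i => QQR.congr _ _ (sylR' k p hpk n S)
  | prod ι ι' P P' h1 h2 h h' =>
    intro i
    have := h1.finite
    have := h2.finite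
    let i1 : Fintype ι := Fintype.ofFinite ι
    let i2 : Fintype ι' := Fintype.ofFinite ι'
    exact QQR.congr _ _ (sumR' k ι ι' P P' (h i1) (h' i2))
  | wr ι ι' P P' h1 h2 h h' =>
    intro i
    have := h1.finite
    have := h2.finite
    let i1 : Fintype ι := Fintype.ofFinite ι
    let i2 : Fintype ι' := Fintype.ofFinite ι'
    exact QQR.congr _ _ (wrR' k ι ι' P P' (h i1) (h' i2))
  | rel ι ι' f P h1 h =>
    intro i
    have := h1.finite
    let i1 : Fintype ι := Fintype.ofFinite ι
    exact QQR.congr _ _ (relR' k ι ι' f P (h i1))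

/-- The relative statement contains the absolute one. -/
theorem qq_of_qqR {k : Type} [Field k] {ι : Type} [Fintype ι] {P : Subgroup (Equiv.Perm ι)}
    (h : QQR k ι P) : QQ k ι P := by
  intro K M _ _ _ _ e he htop hK
  obtain ⟨l, z, hz, hsm, hgen⟩ := hK
  have h1 : SPMR k K ⊥ := by
    refine ⟨l, z, hz, fun i => ?_, ?_⟩
    · rw [bot_sup_eq]
      exact hsm i
    · rw [eq_top_iff, ← hgen]
      exact IntermediateField.adjoin.mono _ _ _ Set.subset_union_right
  obtain ⟨l', z', hz', hsm', hgen'⟩ := h K M e he htop ⊥ h1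
  have h2 : (⨆ i, (⊥ : Subalgebra k K).map (e i)).comap
      (IntermediateField.fixedField (permGrp e P)).val = ⊥ := by
    rw [eq_bot_iff]
    intro x hx
    have h3 : (⨆ i, (⊥ : Subalgebra k K).map (e i)) ≤ ⊥ :=
      iSup_le fun i => by rw [Algebra.map_bot]
    obtain ⟨r, hr⟩ := Algebra.mem_bot.1 (h3 hx)
    refine Algebra.mem_bot.2 ⟨r, Subtype.ext ?_⟩
    exact hr
  refine ⟨l', z', hz', fun i => ?_, ?_⟩
  · have h3 := hsm' i
    rw [h2, bot_sup_eq] at h3
    exact h3
  · rw [h2] at hgen'
    rw [eq_top_iff, ← hgen', IntermediateField.adjoin_le_iff]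
    rintro x (hx | hx)
    · obtain ⟨r, rfl⟩ := Algebra.mem_bot.1 hx
      exact IntermediateField.algebraMap_mem _ r
    · exact IntermediateField.subset_adjoin _ _ hx

end Pool.Agent.Helper49.SR
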